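import Mathlib

/-!
# MP_720f8f_co : t-reachability networks

Definitions.
-/

set_option autoImplicit false

namespace ReachNet

/-- Apply the transpositions of the list `L` to the position `x`, the first entry of `L` first. -/
def move {α : Type} [DecidableEq α] (L : List (α × α)) (x : α) : α :=
  L.foldl (fun y T => Equiv.swap T.1 T.2 y) x

/-- `L` (a sequence of transpositions of the `n` positions) is a `t`-reachability network: for all
distinct `x 0, ..., x (t-1)` some subsequence moves the counter which starts on the `j`-th position
to `x j`, for every `j < t`. -/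
def IsNet {t n : ℕ} (h : t ≤ n) (L : List (Fin n × Fin n)) : Prop :=
  (∀ T ∈ L, T.1 ≠ T.2) ∧
    ∀ x : Fin t → Fin n, Function.Injective x →
      ∃ M : List (Fin n × Fin n), M.Sublist L ∧ ∀ j : Fin t, move M (Fin.castLE h j) = x j

/-- `R t n` is the minimum length of a `t`-reachability network on `n` positions. -/
noncomputable def R (t n : ℕ) : ℕ :=
  sInf {l | ∃ (h : t ≤ n) (L : List (Fin n × Fin n)), IsNet h L ∧ L.length = l}

/-! ### Basic facts on `move` -/

section

variable {α β : Type} [DecidableEq α] [DecidableEq β]

@[simp] theorem move_nil (x : α) : move ([] : List (α × α)) x = x := rfl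

@[simp] theorem move_cons (T : α × α) (L : List (α × α)) (x : α) :
    move (T :: L) x = move L (Equiv.swap T.1 T.2 x) := rfl

theorem move_append (L L' : List (α × α)) (x : α) : move (L ++ L') x = move L' (move L x) := by
  unfold move
  rw [List.foldl_append]

theorem move_injective (L : List (α × α)) : Function.Injective (move L) := by
  induction L with
  | nil => exact Function.injective_id
  | cons T L ih => exact ih.comp (Equiv.swap T.1 T.2).injective

theorem move_map {f : α → β} (hf : Function.Injective f) (L : List (α × α)) (x : α) :
    move (L.map (Prod.map f f)) (f x) = f (move L x) := by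
  induction L generalizing x with
  | nil => rfl
  | cons T L ih =>
    rw [List.map_cons, move_cons, move_cons, ← ih]
    congr 1
    simp only [Prod.map_fst, Prod.map_snd]
    exact (hf.swap_apply T.1 T.2 x)

/-- A list of transpositions which does not touch `x` keeps `x`. -/
theorem move_of_notMem (L : List (α × α)) (x : α) (h : ∀ T ∈ L, T.1 ≠ x ∧ T.2 ≠ x) :
    move L x = x := by
  induction L with
  | nil => rfl
  | cons T L ih =>
    have h1 := h T (List.mem_cons_self)
    rw [move_cons, Equiv.swap_apply_of_ne_of_ne (Ne.symm h1.1) (Ne.symm h1.2)]
    exact ih fun T' hT' => h T' (List.mem_cons_of_mem _ hT')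

end

/-- Some subsequence of `L` moves `f i` to `g i` for all `i`. -/
def Reach {α ι : Type} [DecidableEq α] (L : List (α × α)) (f g : ι → α) : Prop :=
  ∃ M : List (α × α), M.Sublist L ∧ ∀ i, move M (f i) = g i

section

variable {α ι : Type} [DecidableEq α]

theorem Reach.refl (L : List (α × α)) (f : ι → α) : Reach L f f :=
  ⟨[], List.nil_sublist _, fun _ => rfl⟩

theorem Reach.trans {L L' : List (α × α)} {f g h : ι → α} (h1 : Reach L f g) (h2 : Reach L' g h) :
    Reach (L ++ L') f h := by
  obtain ⟨M, hM, hm⟩ := h1
  obtain ⟨M', hM', hm'⟩ := h2
  exact ⟨M ++ M', hM.append hM', fun i => by rw [move_append, hm, hm']⟩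

theorem Reach.injective {L : List (α × α)} {f g : ι → α} (h : Reach L f g)
    (hf : Function.Injective f) : Function.Injective g := by
  obtain ⟨M, -, hm⟩ := h
  intro i j hij
  rw [← hm, ← hm] at hij
  exact hf (move_injective M hij)

end

end ReachNet
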