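import Pool.Agent.Lib.MP_720f8f_co.Defs

/-!
# The lower bound

`D` = set of positions which can hold a counter. A transposition is *dead* (no end in `D`),
a *splitter* (one end in `D`) or *full*. `kap D L p` is an upper bound for the number of final
positions which force `p` to be occupied now.
-/

set_option autoImplicit false

open Finset

namespace ReachNet

variable {α : Type} [DecidableEq α]

/-- The live positions after the transposition `T`. -/
def stp (D : Finset α) (T : α × α) : Finset α :=
  if T.1 ∈ D ∨ T.2 ∈ D then insert T.1 (insert T.2 D) else D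

/-- The live positions at the end. -/
def live : Finset α → List (α × α) → Finset α
  | D, [] => D
  | D, T :: L => live (stp D T) L

/-- The weight of the position `p`. -/
def kap : Finset α → List (α × α) → α → ℕ
  | _, [], _ => 1
  | D, T :: L, p =>
    if T.1 ∈ D ∧ T.2 ∈ D then
      (if p = T.1 ∨ p = T.2 then kap (stp D T) L T.1 + kap (stp D T) L T.2
        else kap (stp D T) L p)
    else if T.1 ∈ D ∨ T.2 ∈ D then
      (if p = T.1 ∨ p = T.2 then min (kap (stp D T) L T.1) (kap (stp D T) L T.2)
        else kap (stp D T) L p)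
    else kap (stp D T) L p

theorem one_le_kap (D : Finset α) (L : List (α × α)) (p : α) : 1 ≤ kap D L p := by
  induction L generalizing D p with
  | nil => exact le_refl _
  | cons T L ih =>
    unfold kap
    have h1 := ih (stp D T) T.1
    have h2 := ih (stp D T) T.2
    have h3 := ih (stp D T) p
    split_ifs <;> omega

theorem subset_stp (D : Finset α) (T : α × α) : D ⊆ stp D T := by
  unfold stp
  split_ifs
  · exact (subset_insert _ _).trans (subset_insert _ _)
  · exact Subset.rfl

theorem subset_live (D : Finset α) (L : List (α × α)) : D ⊆ live D L := by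
  induction L generalizing D with
  | nil => exact Subset.rfl
  | cons T L ih => exact (subset_stp D T).trans (ih _)

theorem image_swap_subset {D O : Finset α} (T : α × α) (hO : O ⊆ D) :
    O.image (Equiv.swap T.1 T.2) ⊆ stp D T := by
  intro y hy
  obtain ⟨x, hx, rfl⟩ := mem_image.1 hy
  have hxD := hO hx
  by_cases h1 : x = T.1
  · subst h1
    rw [Equiv.swap_apply_left]
    unfold stp
    rw [if_pos (Or.inl hxD)]
    exact mem_insert_of_mem (mem_insert_self _ _)
  · by_cases h2 : x = T.2
    · subst h2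
      rw [Equiv.swap_apply_right]
      unfold stp
      rw [if_pos (Or.inr hxD)]
      exact mem_insert_self _ _
    · rw [Equiv.swap_apply_of_ne_of_ne h1 h2]
      exact subset_stp D T hxD

/-- Splitting a subsequence of `T :: L`: the occupied set after the first step. -/
theorem sub_cons {D O : Finset α} {T : α × α} {L M : List (α × α)} (hO : O ⊆ D)
    (hM : M.Sublist (T :: L)) : ∃ O' : Finset α, ∃ M' : List (α × α), M'.Sublist L ∧
      O' ⊆ stp D T ∧ O.image (move M) = O'.image (move M') ∧
      (O' = O ∨ O' = O.image (Equiv.swap T.1 T.2)) := by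
  rcases List.sublist_cons_iff.1 hM with h | ⟨M', rfl, h⟩
  · exact ⟨O, M, h, hO.trans (subset_stp D T), rfl, Or.inl rfl⟩
  · refine ⟨O.image (Equiv.swap T.1 T.2), M', h, image_swap_subset T hO, ?_, Or.inr rfl⟩
    rw [image_image]
    rfl

theorem image_subset_live {D O : Finset α} {L M : List (α × α)} (hO : O ⊆ D)
    (hM : M.Sublist L) : O.image (move M) ⊆ live D L := by
  induction L generalizing D O M with
  | nil =>
    rw [List.sublist_nil] at hM
    subst hM
    intro y hy
    obtain ⟨x, hx, rfl⟩ := mem_image.1 hy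
    exact hO hx
  | cons T L ih =>
    obtain ⟨O', M', h1, h2, h3, -⟩ := sub_cons hO hM
    rw [h3]
    exact ih h2 h1

/-- `X` forces `p`: whenever all of `X` is occupied at the end, `p` is occupied now. -/
def Forces (D : Finset α) (L : List (α × α)) (p : α) (X : Finset α) : Prop :=
  ∀ O : Finset α, O ⊆ D → ∀ M : List (α × α), M.Sublist L → X ⊆ O.image (move M) → p ∈ O

/-- After a step one of the two ends is occupied: then one was occupied before. -/
theorem mem_or_of_swap {O O' : Finset α} {T : α × α}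
    (h : O' = O ∨ O' = O.image (Equiv.swap T.1 T.2)) (hm : T.1 ∈ O' ∨ T.2 ∈ O') :
    T.1 ∈ O ∨ T.2 ∈ O := by
  rcases h with h | h
  · rwa [h] at hm
  · rw [h] at hm
    rcases hm with hm | hm
    · obtain ⟨x, hx, hx'⟩ := mem_image.1 hm
      have : x = T.2 :=
        (Equiv.swap T.1 T.2).injective (hx'.trans (Equiv.swap_apply_right T.1 T.2).symm)
      exact Or.inr (this ▸ hx)
    · obtain ⟨x, hx, hx'⟩ := mem_image.1 hm
      have : x = T.1 :=
        (Equiv.swap T.1 T.2).injective (hx'.trans (Equiv.swap_apply_left T.1 T.2).symm)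
      exact Or.inl (this ▸ hx)

theorem mem_and_of_swap {O O' : Finset α} {T : α × α}
    (h : O' = O ∨ O' = O.image (Equiv.swap T.1 T.2)) (hm : T.1 ∈ O' ∧ T.2 ∈ O') :
    T.1 ∈ O ∧ T.2 ∈ O := by
  rcases h with h | h
  · rwa [h] at hm
  · rw [h] at hm
    obtain ⟨x, hx, hx'⟩ := mem_image.1 hm.1
    have h1 : x = T.2 :=
      (Equiv.swap T.1 T.2).injective (hx'.trans (Equiv.swap_apply_right T.1 T.2).symm)
    obtain ⟨y, hy, hy'⟩ := mem_image.1 hm.2
    have h2 : y = T.1 :=
      (Equiv.swap T.1 T.2).injective (hy'.trans (Equiv.swap_apply_left T.1 T.2).symm)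
    exact ⟨h2 ▸ hy, h1 ▸ hx⟩

theorem mem_of_swap_of_ne {O O' : Finset α} {T : α × α} {p : α}
    (h : O' = O ∨ O' = O.image (Equiv.swap T.1 T.2)) (h1 : p ≠ T.1) (h2 : p ≠ T.2)
    (hm : p ∈ O') : p ∈ O := by
  rcases h with h | h
  · rwa [h] at hm
  · rw [h] at hm
    obtain ⟨x, hx, hx'⟩ := mem_image.1 hm
    have : x = p :=
      (Equiv.swap T.1 T.2).injective (hx'.trans (Equiv.swap_apply_of_ne_of_ne h1 h2).symm)
    exact this ▸ hx

theorem exists_forces (L : List (α × α)) : ∀ (D : Finset α) (p : α), p ∈ D →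
    ∃ X : Finset α, X.card ≤ kap D L p ∧ Forces D L p X := by
  induction L with
  | nil =>
    intro D p _
    refine ⟨{p}, le_of_eq (card_singleton p), ?_⟩
    intro O _ M hM hX
    rw [List.sublist_nil] at hM
    subst hM
    obtain ⟨x, hx, hx'⟩ := mem_image.1 (singleton_subset_iff.1 hX)
    exact hx' ▸ hx
  | cons T L ih =>
    intro D p hp
    have hsub := subset_stp D T
    by_cases hpT : p = T.1 ∨ p = T.2
    · -- `p` is an end of `T`
      have hor : T.1 ∈ D ∨ T.2 ∈ D := by
        rcases hpT with h | h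
        · exact Or.inl (h ▸ hp)
        · exact Or.inr (h ▸ hp)
      have hm1 : T.1 ∈ stp D T := by
        unfold stp
        rw [if_pos hor]
        exact mem_insert_self _ _
      have hm2 : T.2 ∈ stp D T := by
        unfold stp
        rw [if_pos hor]
        exact mem_insert_of_mem (mem_insert_self _ _)
      obtain ⟨X1, hc1, hf1⟩ := ih (stp D T) T.1 hm1
      obtain ⟨X2, hc2, hf2⟩ := ih (stp D T) T.2 hm2
      by_cases hand : T.1 ∈ D ∧ T.2 ∈ D
      · refine ⟨X1 ∪ X2, ?_, ?_⟩
        · unfold kap
          rw [if_pos hand, if_pos hpT]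
          exact (card_union_le _ _).trans (add_le_add hc1 hc2)
        · intro O hO M hM hX
          obtain ⟨O', M', h1, h2, h3, h4⟩ := sub_cons hO hM
          rw [h3] at hX
          have k1 := hf1 O' h2 M' h1 (union_subset_left hX)
          have k2 := hf2 O' h2 M' h1 (union_subset_right hX)
          have := mem_and_of_swap h4 ⟨k1, k2⟩
          rcases hpT with h | h
          · exact h ▸ this.1
          · exact h ▸ this.2
      · have key : ∀ O : Finset α, O ⊆ D → T.1 ∈ O ∨ T.2 ∈ O → p ∈ O := by
          intro O hO h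
          rcases h with h | h
          · rcases hpT with h' | h'
            · exact h' ▸ h
            · exact absurd ⟨hO h, h' ▸ hp⟩ hand
          · rcases hpT with h' | h'
            · exact absurd ⟨h' ▸ hp, hO h⟩ hand
            · exact h' ▸ h
        rcases le_total (kap (stp D T) L T.1) (kap (stp D T) L T.2) with hle | hle
        · refine ⟨X1, ?_, ?_⟩
          · unfold kap
            rw [if_neg hand, if_pos hor, if_pos hpT, min_eq_left hle]
            exact hc1
          · intro O hO M hM hX
            obtain ⟨O', M', h1, h2, h3, h4⟩ := sub_cons hO hM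
            rw [h3] at hX
            exact key O hO (mem_or_of_swap h4 (Or.inl (hf1 O' h2 M' h1 hX)))
        · refine ⟨X2, ?_, ?_⟩
          · unfold kap
            rw [if_neg hand, if_pos hor, if_pos hpT, min_eq_right hle]
            exact hc2
          · intro O hO M hM hX
            obtain ⟨O', M', h1, h2, h3, h4⟩ := sub_cons hO hM
            rw [h3] at hX
            exact key O hO (mem_or_of_swap h4 (Or.inr (hf2 O' h2 M' h1 hX)))
    · obtain ⟨X, hc, hf⟩ := ih (stp D T) p (hsub hp)
      refine ⟨X, ?_, ?_⟩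
      · unfold kap
        split_ifs <;> exact hc
      · intro O hO M hM hX
        obtain ⟨O', M', h1, h2, h3, h4⟩ := sub_cons hO hM
        rw [h3] at hX
        exact mem_of_swap_of_ne h4 (fun h => hpT (Or.inl h)) (fun h => hpT (Or.inr h))
          (hf O' h2 M' h1 hX)

/-- Every set of at most `t` positions can be occupied at the end. -/
def RP (t : ℕ) (D : Finset α) (L : List (α × α)) : Prop :=
  ∀ X : Finset α, X.card ≤ t → ∃ O : Finset α, O ⊆ D ∧
    ∃ M : List (α × α), M.Sublist L ∧ X ⊆ O.image (move M)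

theorem RP.tail {t : ℕ} {D : Finset α} {T : α × α} {L : List (α × α)} (h : RP t D (T :: L)) :
    RP t (stp D T) L := by
  intro X hX
  obtain ⟨O, hO, M, hM, hs⟩ := h X hX
  obtain ⟨O', M', h1, h2, h3, -⟩ := sub_cons hO hM
  exact ⟨O', h2, M', h1, h3 ▸ hs⟩

theorem RP.splitter {t : ℕ} {D : Finset α} {T : α × α} {L : List (α × α)} (h : RP t D (T :: L))
    (hor : T.1 ∈ D ∨ T.2 ∈ D) (hand : ¬ (T.1 ∈ D ∧ T.2 ∈ D)) :
    t < kap (stp D T) L T.1 + kap (stp D T) L T.2 := by
  by_contra hcon
  push Not at hcon
  have hm1 : T.1 ∈ stp D T := by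
    unfold stp
    rw [if_pos hor]
    exact mem_insert_self _ _
  have hm2 : T.2 ∈ stp D T := by
    unfold stp
    rw [if_pos hor]
    exact mem_insert_of_mem (mem_insert_self _ _)
  obtain ⟨X1, hc1, hf1⟩ := exists_forces L (stp D T) T.1 hm1
  obtain ⟨X2, hc2, hf2⟩ := exists_forces L (stp D T) T.2 hm2
  obtain ⟨O, hO, M, hM, hs⟩ := h (X1 ∪ X2)
    ((card_union_le _ _).trans ((add_le_add hc1 hc2).trans hcon))
  obtain ⟨O', M', h1, h2, h3, h4⟩ := sub_cons hO hM
  rw [h3] at hs
  have k1 := hf1 O' h2 M' h1 (union_subset_left hs)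
  have k2 := hf2 O' h2 M' h1 (union_subset_right hs)
  have := mem_and_of_swap h4 ⟨k1, k2⟩
  exact hand ⟨hO this.1, hO this.2⟩

/-! ### The potential -/

/-- `g k = max (2 ^ (1 - k) - 2 ^ (-m)) 0` -/
noncomputable def gp (m k : ℕ) : ℝ := max (2 * (1 / 2) ^ k - (1 / 2) ^ m) 0

theorem gp_nonneg (m k : ℕ) : 0 ≤ gp m k := le_max_right _ _

theorem gp_anti (m : ℕ) {i j : ℕ} (h : i ≤ j) : gp m j ≤ gp m i := by
  unfold gp
  apply max_le_max _ le_rfl
  have : ((1 : ℝ) / 2) ^ j ≤ (1 / 2) ^ i := pow_le_pow_of_le_one (by norm_num) (by norm_num) h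
  linarith

theorem gp_one (m : ℕ) : gp m 1 = 1 - (1 / 2) ^ m := by
  unfold gp
  have : ((1 : ℝ) / 2) ^ m ≤ 1 := pow_le_one₀ (by norm_num) (by norm_num)
  rw [max_eq_left (by linarith)]
  ring

theorem gp_zero (m k : ℕ) (h : m + 1 ≤ k) : gp m k = 0 := by
  unfold gp
  apply max_eq_right
  have h1 : ((1 : ℝ) / 2) ^ k ≤ (1 / 2) ^ (m + 1) :=
    pow_le_pow_of_le_one (by norm_num) (by norm_num) h
  have h2 : ((1 : ℝ) / 2) ^ (m + 1) = (1 / 2) ^ m * (1 / 2) := pow_succ _ _
  linarith

theorem gp_add (m : ℕ) {i j : ℕ} (hi : 1 ≤ i) (hj : 1 ≤ j) :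
    gp m i + gp m j ≤ 2 * gp m (i + j) + 1 := by
  obtain ⟨i, rfl⟩ := Nat.exists_eq_add_of_le' hi
  obtain ⟨j, rfl⟩ := Nat.exists_eq_add_of_le' hj
  have hx0 : (0 : ℝ) ≤ (1 / 2) ^ i := by positivity
  have hy0 : (0 : ℝ) ≤ (1 / 2) ^ j := by positivity
  have hc0 : (0 : ℝ) ≤ (1 / 2) ^ m := by positivity
  have hx1 : ((1 : ℝ) / 2) ^ i ≤ 1 := pow_le_one₀ (by norm_num) (by norm_num)
  have hy1 : ((1 : ℝ) / 2) ^ j ≤ 1 := pow_le_one₀ (by norm_num) (by norm_num)
  have e1 : 2 * ((1 : ℝ) / 2) ^ (i + 1) = (1 / 2) ^ i := by rw [pow_succ]; ring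
  have e2 : 2 * ((1 : ℝ) / 2) ^ (j + 1) = (1 / 2) ^ j := by rw [pow_succ]; ring
  have e3 : 2 * ((1 : ℝ) / 2) ^ (i + 1 + (j + 1)) = (1 / 2) ^ i * (1 / 2) ^ j / 2 := by
    rw [pow_add, pow_succ, pow_succ]; ring
  unfold gp
  rw [e1, e2, e3]
  set x : ℝ := (1 / 2) ^ i
  set y : ℝ := (1 / 2) ^ j
  set c : ℝ := (1 / 2) ^ m
  have hm := le_max_left (x * y / 2 - c) 0
  have hm' := le_max_right (x * y / 2 - c) 0
  have hxy : x + y ≤ 1 + x * y := by nlinarith
  rcases le_total (x - c) 0 with h1 | h1
  · rw [max_eq_right h1]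
    rcases le_total (y - c) 0 with h2 | h2
    · rw [max_eq_right h2]; linarith
    · rw [max_eq_left h2]; linarith
  · rw [max_eq_left h1]
    rcases le_total (y - c) 0 with h2 | h2
    · rw [max_eq_right h2]; linarith
    · rw [max_eq_left h2]; linarith

/-- The potential inequality. -/
theorem potential {t m : ℕ} (hm : 2 * m ≤ t) (L : List (α × α)) : ∀ D : Finset α,
    (∀ T ∈ L, T.1 ≠ T.2) → RP t D L →
    (1 + gp m 1) * ((live D L).card : ℝ) ≤
      L.length + D.card + ∑ p ∈ D, gp m (kap D L p) := by
  induction L with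
  | nil =>
    intro D _ _
    simp only [live, kap, List.length_nil, Nat.cast_zero, zero_add, sum_const, nsmul_eq_mul]
    linarith
  | cons T L ih =>
    intro D hne hRP
    have hT : T.1 ≠ T.2 := hne T List.mem_cons_self
    have hIH := ih (stp D T) (fun T' hT' => hne T' (List.mem_cons_of_mem _ hT')) hRP.tail
    have hlive : live D (T :: L) = live (stp D T) L := rfl
    rw [hlive, List.length_cons]
    push_cast
    suffices hs : ((stp D T).card : ℝ) + ∑ p ∈ stp D T, gp m (kap (stp D T) L p) ≤
        D.card + ∑ p ∈ D, gp m (kap D (T :: L) p) + 1 by linarith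
    by_cases hand : T.1 ∈ D ∧ T.2 ∈ D
    · -- full
      have hst : stp D T = D := by
        unfold stp
        rw [if_pos (Or.inl hand.1), insert_eq_self.2 (mem_insert_of_mem hand.1),
          insert_eq_self.2 hand.2]
      have hk1 : kap D (T :: L) T.1 = kap (stp D T) L T.1 + kap (stp D T) L T.2 := by
        conv_lhs => unfold kap
        rw [if_pos hand, if_pos (Or.inl rfl)]
      have hk2 : kap D (T :: L) T.2 = kap (stp D T) L T.1 + kap (stp D T) L T.2 := by
        conv_lhs => unfold kap
        rw [if_pos hand, if_pos (Or.inr rfl)]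
      have hk : ∀ p ∈ (D.erase T.1).erase T.2, kap D (T :: L) p = kap (stp D T) L p := by
        intro p hp
        have h2 : p ≠ T.2 := ne_of_mem_erase hp
        have h1 : p ≠ T.1 := ne_of_mem_erase (mem_of_mem_erase hp)
        conv_lhs => unfold kap
        rw [if_pos hand, if_neg (by rintro (h | h); exacts [h1 h, h2 h])]
      have hm2 : T.2 ∈ D.erase T.1 := mem_erase.2 ⟨hT.symm, hand.2⟩
      have s1 : ∑ p ∈ D, gp m (kap (stp D T) L p) = gp m (kap (stp D T) L T.1) +
          (gp m (kap (stp D T) L T.2) +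
            ∑ p ∈ (D.erase T.1).erase T.2, gp m (kap (stp D T) L p)) := by
        rw [add_sum_erase _ (fun p => gp m (kap (stp D T) L p)) hm2,
          add_sum_erase _ (fun p => gp m (kap (stp D T) L p)) hand.1]
      have s2 : ∑ p ∈ D, gp m (kap D (T :: L) p) = gp m (kap D (T :: L) T.1) +
          (gp m (kap D (T :: L) T.2) +
            ∑ p ∈ (D.erase T.1).erase T.2, gp m (kap D (T :: L) p)) := by
        rw [add_sum_erase _ (fun p => gp m (kap D (T :: L) p)) hm2,
          add_sum_erase _ (fun p => gp m (kap D (T :: L) p)) hand.1]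
      have s3 : ∑ p ∈ (D.erase T.1).erase T.2, gp m (kap D (T :: L) p) =
          ∑ p ∈ (D.erase T.1).erase T.2, gp m (kap (stp D T) L p) :=
        sum_congr rfl fun p hp => by rw [hk p hp]
      have hg := gp_add m (one_le_kap (stp D T) L T.1) (one_le_kap (stp D T) L T.2)
      rw [s2, s3, hk1, hk2]
      have hcard : ((stp D T).card : ℝ) = D.card := by rw [hst]
      have hsum : ∑ p ∈ stp D T, gp m (kap (stp D T) L p) =
          ∑ p ∈ D, gp m (kap (stp D T) L p) := by
        conv_lhs => rw [show (∑ p ∈ stp D T, gp m (kap (stp D T) L p)) =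
          ∑ p ∈ D, gp m (kap (stp D T) L p) from sum_congr hst fun _ _ => rfl]
      rw [hcard, hsum, s1]
      linarith
    · by_cases hor : T.1 ∈ D ∨ T.2 ∈ D
      · -- splitter
        have hsp := hRP.splitter hor hand
        have hmax : gp m (kap (stp D T) L T.1) + gp m (kap (stp D T) L T.2) ≤
            gp m (min (kap (stp D T) L T.1) (kap (stp D T) L T.2)) := by
          rcases le_total (kap (stp D T) L T.1) (kap (stp D T) L T.2) with h | h
          · rw [min_eq_left h, gp_zero m (kap (stp D T) L T.2) (by omega)]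
            linarith
          · rw [min_eq_right h, gp_zero m (kap (stp D T) L T.1) (by omega)]
            linarith
        have hst : stp D T = insert T.1 (insert T.2 D) := by
          unfold stp
          rw [if_pos hor]
        -- the live end `u` and the dead end `v`
        obtain ⟨u, v, hu, hv, huv, hset, hku, hor'⟩ : ∃ u v : α, u ∈ D ∧ v ∉ D ∧ u ≠ v ∧
            stp D T = insert v D ∧
            kap D (T :: L) u = min (kap (stp D T) L T.1) (kap (stp D T) L T.2) ∧
            ((u = T.1 ∧ v = T.2) ∨ (u = T.2 ∧ v = T.1)) := by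
          rcases hor with h | h
          · have h' : T.2 ∉ D := fun h' => hand ⟨h, h'⟩
            refine ⟨T.1, T.2, h, h', hT, ?_, ?_, Or.inl ⟨rfl, rfl⟩⟩
            · rw [hst]
              exact insert_eq_self.2 (mem_insert_of_mem h)
            · conv_lhs => unfold kap
              rw [if_neg hand, if_pos (Or.inl h), if_pos (Or.inl rfl)]
          · have h' : T.1 ∉ D := fun h' => hand ⟨h', h⟩
            refine ⟨T.2, T.1, h, h', hT.symm, ?_, ?_, Or.inr ⟨rfl, rfl⟩⟩
            · rw [hst, insert_eq_self.2 h]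
            · conv_lhs => unfold kap
              rw [if_neg hand, if_pos (Or.inr h), if_pos (Or.inr rfl)]
        have hk : ∀ p ∈ D.erase u, kap D (T :: L) p = kap (stp D T) L p := by
          intro p hp
          have h1 : p ≠ u := ne_of_mem_erase hp
          have h2 : p ≠ v := fun h => hv (h ▸ mem_of_mem_erase hp)
          have h3 : ¬ (p = T.1 ∨ p = T.2) := by
            rcases hor' with ⟨e1, e2⟩ | ⟨e1, e2⟩
            · rw [← e1, ← e2]
              rintro (h | h)
              exacts [h1 h, h2 h]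
            · rw [← e1, ← e2]
              rintro (h | h)
              exacts [h2 h, h1 h]
          conv_lhs => unfold kap
          rw [if_neg hand, if_pos hor, if_neg h3]
        have s0 : ∑ p ∈ stp D T, gp m (kap (stp D T) L p) =
            ∑ p ∈ insert v D, gp m (kap (stp D T) L p) := sum_congr hset fun _ _ => rfl
        have s1 : ∑ p ∈ insert v D, gp m (kap (stp D T) L p) = gp m (kap (stp D T) L v) +
            (gp m (kap (stp D T) L u) + ∑ p ∈ D.erase u, gp m (kap (stp D T) L p)) := by
          rw [sum_insert hv, add_sum_erase _ (fun p => gp m (kap (stp D T) L p)) hu]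
        have s2 : ∑ p ∈ D, gp m (kap D (T :: L) p) = gp m (kap D (T :: L) u) +
            ∑ p ∈ D.erase u, gp m (kap D (T :: L) p) := by
          rw [add_sum_erase _ (fun p => gp m (kap D (T :: L) p)) hu]
        have s3 : ∑ p ∈ D.erase u, gp m (kap D (T :: L) p) =
            ∑ p ∈ D.erase u, gp m (kap (stp D T) L p) :=
          sum_congr rfl fun p hp => by rw [hk p hp]
        have hcard : ((stp D T).card : ℝ) = D.card + 1 := by
          rw [hset, card_insert_of_notMem hv]
          push_cast
          ring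
        have huv' : gp m (kap (stp D T) L v) + gp m (kap (stp D T) L u) ≤
            gp m (min (kap (stp D T) L T.1) (kap (stp D T) L T.2)) := by
          rcases hor' with ⟨e1, e2⟩ | ⟨e1, e2⟩
          · rw [e1, e2]; linarith
          · rw [e1, e2]; linarith
        rw [s0, s1, s2, s3, hku, hcard]
        linarith
      · -- dead
        have hst : stp D T = D := by
          unfold stp
          rw [if_neg hor]
        have hk : ∀ p ∈ D, kap D (T :: L) p = kap (stp D T) L p := by
          intro p _
          conv_lhs => unfold kap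
          rw [if_neg hand, if_neg hor]
        have s1 : ∑ p ∈ D, gp m (kap D (T :: L) p) = ∑ p ∈ D, gp m (kap (stp D T) L p) :=
          sum_congr rfl fun p hp => by rw [hk p hp]
        have s0 : ∑ p ∈ stp D T, gp m (kap (stp D T) L p) =
            ∑ p ∈ D, gp m (kap (stp D T) L p) := sum_congr hst fun _ _ => rfl
        have hcard : ((stp D T).card : ℝ) = D.card := by rw [hst]
        rw [s0, s1, hcard]
        linarith

theorem IsNet.rp {t n : ℕ} {h : t ≤ n} {L : List (Fin n × Fin n)} (hL : IsNet h L) :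
    RP t (univ.image (Fin.castLE h)) L := by
  intro X hX
  obtain ⟨Y, hXY, hY⟩ := exists_superset_card_eq hX (by simpa using h)
  obtain ⟨M, hM, hm⟩ := hL.2 (fun j => Y.orderEmbOfFin hY j)
    (fun a b hab => (Y.orderEmbOfFin hY).injective hab)
  refine ⟨univ.image (Fin.castLE h), Subset.rfl, M, hM, ?_⟩
  intro p hp
  have hpY : p ∈ Set.range (Y.orderEmbOfFin hY) := by
    rw [range_orderEmbOfFin]
    exact hXY hp
  obtain ⟨j, hj⟩ := hpY
  rw [mem_image]
  exact ⟨Fin.castLE h j, mem_image_of_mem _ (mem_univ _), by rw [hm, hj]⟩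

/-- Fewer than `t` positions can be occupied without the help of the counter `j0`. -/
theorem IsNet.avoid {t n : ℕ} {h : t ≤ n} {L : List (Fin n × Fin n)} (hL : IsNet h L)
    {X : Finset (Fin n)} (hX : X.card < t) (j0 : Fin t) :
    ∃ M : List (Fin n × Fin n), M.Sublist L ∧
      X ⊆ ((univ.image (Fin.castLE h)).erase (Fin.castLE h j0)).image (move M) := by
  obtain ⟨Y, hXY, hY⟩ := exists_superset_card_eq (s := X) (n := t - 1)
    (show X.card ≤ t - 1 by omega)
    (show t - 1 ≤ Fintype.card (Fin n) by rw [Fintype.card_fin]; omega)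
  obtain ⟨y0, hy0⟩ : ∃ y0, y0 ∉ Y := by
    by_contra hcon
    push Not at hcon
    have : Y = univ := by rw [eq_univ_iff_forall]; exact hcon
    rw [this, card_univ, Fintype.card_fin] at hY
    omega
  have hY' : (insert y0 Y).card = t := by
    rw [card_insert_of_notMem hy0, hY]
    omega
  set e := (insert y0 Y).orderEmbOfFin hY' with he
  have hrange : Set.range e = ((insert y0 Y : Finset (Fin n)) : Set (Fin n)) :=
    range_orderEmbOfFin _ hY'
  obtain ⟨i0, hi0⟩ : y0 ∈ Set.range e := by
    rw [hrange]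
    exact mem_coe.2 (mem_insert_self _ _)
  obtain ⟨M, hM, hm⟩ := hL.2 (fun j => e (Equiv.swap j0 i0 j))
    (fun a b hab => (Equiv.swap j0 i0).injective (e.injective hab))
  refine ⟨M, hM, ?_⟩
  intro y hy
  have hyY := hXY hy
  obtain ⟨i, hi⟩ : y ∈ Set.range e := by
    rw [hrange]
    exact mem_coe.2 (mem_insert_of_mem hyY)
  have hne : Equiv.swap j0 i0 i ≠ j0 := by
    intro h'
    have h2 : i = i0 := by
      have := congrArg (Equiv.swap j0 i0) h'
      rwa [Equiv.swap_apply_self, Equiv.swap_apply_left] at this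
    apply hy0
    rw [← hi0, ← h2, hi]
    exact hyY
  refine mem_image.2 ⟨Fin.castLE h (Equiv.swap j0 i0 i), ?_, ?_⟩
  · rw [mem_erase]
    exact ⟨fun h' => hne (Fin.castLE_injective h h'), mem_image_of_mem _ (mem_univ _)⟩
  · rw [hm]
    show e (Equiv.swap j0 i0 (Equiv.swap j0 i0 i)) = y
    rw [Equiv.swap_apply_self, hi]

/-- The weight of the positions of the counters at the start. -/
theorem IsNet.kap_ge {t n : ℕ} {h : t ≤ n} {L : List (Fin n × Fin n)} (hL : IsNet h L)
    {p : Fin n} (hp : p ∈ univ.image (Fin.castLE h)) :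
    t ≤ kap (univ.image (Fin.castLE h)) L p := by
  by_contra hcon
  push Not at hcon
  obtain ⟨X, hc, hF⟩ := exists_forces L _ p hp
  obtain ⟨j0, -, rfl⟩ := mem_image.1 hp
  obtain ⟨M, hM, hs⟩ := hL.avoid (X := X) (by omega) j0
  exact notMem_erase _ _ (hF _ (erase_subset _ _) M hM hs)

/-- **The lower bound.** -/
theorem lower {t n : ℕ} (ht : 1 ≤ t) {h : t ≤ n} {L : List (Fin n × Fin n)} (hL : IsNet h L) :
    (2 - (1 / 2 : ℝ) ^ (t / 2)) * n - t ≤ L.length := by
  have hRP := hL.rp
  have hpot := potential (m := t / 2) (by omega) L (univ.image (Fin.castLE h)) hL.1 hRP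
  have hlive : live (univ.image (Fin.castLE h)) L = univ := by
    rw [eq_univ_iff_forall]
    intro p
    obtain ⟨O, hO, M, hM, hs⟩ := hRP {p} (by rw [card_singleton]; exact ht)
    exact image_subset_live hO hM (hs (mem_singleton_self p))
  have hcard : ((univ.image (Fin.castLE h) : Finset (Fin n)).card : ℝ) = t := by
    rw [card_image_of_injective _ (Fin.castLE_injective h)]
    simp
  rw [hlive, hcard] at hpot
  have hsum : ∑ p ∈ (univ.image (Fin.castLE h) : Finset (Fin n)),
      gp (t / 2) (kap (univ.image (Fin.castLE h)) L p) = 0 := by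
    apply sum_eq_zero
    intro p hp
    apply gp_zero
    have := hL.kap_ge hp
    omega
  rw [card_univ, Fintype.card_fin, gp_one, hsum] at hpot
  linarith [hpot]

end ReachNet
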