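import Pool.Agent.Lib.MP_720f8f_co.Lower

/-!
# The lower bound for networks of star transpositions

`cst t F` is the least size (at least `1`, at most `t + 1`) of a set `X` of final positions with
the property `F`. The properties are of the form: whenever all of `X` is occupied at the end, the
occupied sets before and after the present step satisfy `P`.
-/

set_option autoImplicit false

open Finset

namespace ReachNet

variable {α : Type} [DecidableEq α]

/-- The least size of a set with the property `F`, truncated to the interval `[1, t + 1]`. -/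
noncomputable def cst (t : ℕ) (F : Finset α → Prop) : ℕ :=
  sInf {k | k = t + 1 ∨ (1 ≤ k ∧ ∃ X : Finset α, X.card ≤ k ∧ F X)}

theorem cst_le_top (t : ℕ) (F : Finset α → Prop) : cst t F ≤ t + 1 :=
  Nat.sInf_le (Or.inl rfl)

theorem cst_mem (t : ℕ) (F : Finset α → Prop) :
    cst t F = t + 1 ∨ (1 ≤ cst t F ∧ ∃ X : Finset α, X.card ≤ cst t F ∧ F X) :=
  Nat.sInf_mem (s := {k | k = t + 1 ∨ (1 ≤ k ∧ ∃ X : Finset α, X.card ≤ k ∧ F X)})
    ⟨t + 1, Or.inl rfl⟩

theorem one_le_cst (t : ℕ) (F : Finset α → Prop) : 1 ≤ cst t F := by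
  rcases cst_mem t F with h | h
  · omega
  · exact h.1

theorem cst_le (t : ℕ) (F : Finset α → Prop) {X : Finset α} {k : ℕ} (hk : 1 ≤ k)
    (hX : X.card ≤ k) (hF : F X) : cst t F ≤ k :=
  Nat.sInf_le (Or.inr ⟨hk, X, hX, hF⟩)

theorem cst_mono (t : ℕ) {F F1 : Finset α → Prop} (h : ∀ X, F1 X → F X) :
    cst t F ≤ cst t F1 := by
  rcases cst_mem t F1 with h1 | ⟨h1, X, hX, hF⟩
  · rw [h1]
    exact cst_le_top t F
  · exact cst_le t F h1 hX (h X hF)

theorem cst_add (t : ℕ) {F F1 F2 : Finset α → Prop} (h : ∀ X Y, F1 X → F2 Y → F (X ∪ Y)) :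
    cst t F ≤ cst t F1 + cst t F2 := by
  rcases cst_mem t F1 with h1 | ⟨h1, X, hX, hF⟩
  · have := cst_le_top t F
    omega
  · rcases cst_mem t F2 with h2 | ⟨h2, Y, hY, hG⟩
    · have := cst_le_top t F
      omega
    · exact cst_le t F (by omega) ((card_union_le _ _).trans (add_le_add hX hY)) (h X Y hF hG)

theorem lt_cst_add (t : ℕ) {F1 F2 : Finset α → Prop}
    (h : ∀ X Y, F1 X → F2 Y → ¬ (X ∪ Y).card ≤ t) :
    t < cst t F1 + cst t F2 := by
  by_contra hcon
  have e1 := one_le_cst t F1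
  have e2 := one_le_cst t F2
  rcases cst_mem t F1 with h1 | ⟨h1, X, hX, hF⟩
  · omega
  · rcases cst_mem t F2 with h2 | ⟨h2, Y, hY, hG⟩
    · omega
    · exact h X Y hF hG ((card_union_le _ _).trans (by omega))

/-- `O'` is a possible occupied set after the transposition `T`. -/
def Pr (T : α × α) (O O' : Finset α) : Prop := O' = O ∨ O' = O.image (Equiv.swap T.1 T.2)

/-- The possible occupied sets after the transposition `T`. -/
def nx (𝒪 : Set (Finset α)) (T : α × α) : Set (Finset α) := {O' | ∃ O ∈ 𝒪, Pr T O O'}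

/-- `X` forces the property `P` of the present occupied set. -/
def Fc (𝒪 : Set (Finset α)) (L : List (α × α)) (P : Finset α → Prop) (X : Finset α) : Prop :=
  ∀ O ∈ 𝒪, ∀ M : List (α × α), M.Sublist L → X ⊆ O.image (move M) → P O

/-- `X` forces the property `P` of the occupied sets before and after `T`. -/
def Fc2 (𝒪 : Set (Finset α)) (T : α × α) (L : List (α × α)) (P : Finset α → Finset α → Prop)
    (X : Finset α) : Prop :=
  ∀ O ∈ 𝒪, ∀ O', Pr T O O' → ∀ M : List (α × α), M.Sublist L → X ⊆ O'.image (move M) → P O O'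

theorem fc_before (𝒪 : Set (Finset α)) (T : α × α) (L : List (α × α)) (P : Finset α → Prop)
    (X : Finset α) : Fc 𝒪 (T :: L) P X ↔ Fc2 𝒪 T L (fun O _ => P O) X := by
  constructor
  · intro h O hO O' hO' M hM hX
    rcases hO' with rfl | rfl
    · exact h O' hO M (hM.cons T) hX
    · refine h O hO (T :: M) (hM.cons_cons T) ?_
      rw [image_image] at hX
      exact hX
  · intro h O hO M hM hX
    obtain ⟨O', M', h1, -, h3, h4⟩ := sub_cons (Subset.refl O) hM
    rw [h3] at hX
    exact h O hO O' h4 M' h1 hX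

theorem fc_after (𝒪 : Set (Finset α)) (T : α × α) (L : List (α × α)) (P : Finset α → Prop)
    (X : Finset α) : Fc (nx 𝒪 T) L P X ↔ Fc2 𝒪 T L (fun _ O' => P O') X := by
  constructor
  · intro h O hO O' hO' M hM hX
    exact h O' ⟨O, hO, hO'⟩ M hM hX
  · rintro h O' ⟨O, hO, hO'⟩ M hM hX
    exact h O hO O' hO' M hM hX

/-- The cost of a property of the present occupied set. -/
noncomputable def cc (t : ℕ) (𝒪 : Set (Finset α)) (L : List (α × α)) (P : Finset α → Prop) : ℕ :=
  cst t (Fc 𝒪 L P)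

theorem cc_before (t : ℕ) (𝒪 : Set (Finset α)) (T : α × α) (L : List (α × α))
    (P : Finset α → Prop) :
    cc t 𝒪 (T :: L) P = cst t (Fc2 𝒪 T L (fun O _ => P O)) := by
  unfold cc
  congr 1
  funext X
  exact propext (fc_before 𝒪 T L P X)

theorem cc_after (t : ℕ) (𝒪 : Set (Finset α)) (T : α × α) (L : List (α × α))
    (P : Finset α → Prop) :
    cc t (nx 𝒪 T) L P = cst t (Fc2 𝒪 T L (fun _ O' => P O')) := by
  unfold cc
  congr 1
  funext X
  exact propext (fc_after 𝒪 T L P X)

/-- Every set of at most `t` positions can be occupied at the end. -/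
def RPS (t : ℕ) (𝒪 : Set (Finset α)) (L : List (α × α)) : Prop :=
  ∀ X : Finset α, X.card ≤ t → ∃ O ∈ 𝒪, ∃ M : List (α × α), M.Sublist L ∧ X ⊆ O.image (move M)

theorem RPS.pair {t : ℕ} {𝒪 : Set (Finset α)} {T : α × α} {L : List (α × α)}
    (h : RPS t 𝒪 (T :: L)) (X : Finset α) (hX : X.card ≤ t) :
    ∃ O ∈ 𝒪, ∃ O', Pr T O O' ∧ ∃ M : List (α × α), M.Sublist L ∧ X ⊆ O'.image (move M) := by
  obtain ⟨O, hO, M, hM, hs⟩ := h X hX
  obtain ⟨O', M', h1, -, h3, h4⟩ := sub_cons (Subset.refl O) hM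
  exact ⟨O, hO, O', h4, M', h1, h3 ▸ hs⟩

theorem RPS.tail {t : ℕ} {𝒪 : Set (Finset α)} {T : α × α} {L : List (α × α)}
    (h : RPS t 𝒪 (T :: L)) : RPS t (nx 𝒪 T) L := by
  intro X hX
  obtain ⟨O, hO, O', hP, M, hM, hs⟩ := h.pair X hX
  exact ⟨O', ⟨O, hO, hP⟩, M, hM, hs⟩

theorem fc2_add {t : ℕ} {𝒪 : Set (Finset α)} {T : α × α} {L : List (α × α)}
    {P Q S : Finset α → Finset α → Prop}
    (h : ∀ O ∈ 𝒪, ∀ O', Pr T O O' → P O O' → Q O O' → S O O') :
    cst t (Fc2 𝒪 T L S) ≤ cst t (Fc2 𝒪 T L P) + cst t (Fc2 𝒪 T L Q) := by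
  apply cst_add
  intro X Y hX hY O hO O' hP M hM hs
  exact h O hO O' hP (hX O hO O' hP M hM (union_subset_left hs))
    (hY O hO O' hP M hM (union_subset_right hs))

theorem fc2_mono {t : ℕ} {𝒪 : Set (Finset α)} {T : α × α} {L : List (α × α)}
    {P S : Finset α → Finset α → Prop}
    (h : ∀ O ∈ 𝒪, ∀ O', Pr T O O' → P O O' → S O O') :
    cst t (Fc2 𝒪 T L S) ≤ cst t (Fc2 𝒪 T L P) := by
  apply cst_mono
  intro X hX O hO O' hP M hM hs
  exact h O hO O' hP (hX O hO O' hP M hM hs)

theorem fc2_lt {t : ℕ} {𝒪 : Set (Finset α)} {T : α × α} {L : List (α × α)}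
    {P Q : Finset α → Finset α → Prop} (hR : RPS t 𝒪 (T :: L))
    (h : ∀ O ∈ 𝒪, ∀ O', Pr T O O' → P O O' → Q O O' → False) :
    t < cst t (Fc2 𝒪 T L P) + cst t (Fc2 𝒪 T L Q) := by
  apply lt_cst_add
  intro X Y hX hY hc
  obtain ⟨O, hO, O', hP, M, hM, hs⟩ := hR.pair _ hc
  exact h O hO O' hP (hX O hO O' hP M hM (union_subset_left hs))
    (hY O hO O' hP M hM (union_subset_right hs))

/-! ### The weight function -/

/-- `dlt t` is `3 ^ (-m)` for `t = 2 m + 1` and `3 ^ (1 - m) / 2` for `t = 2 m`. -/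
noncomputable def dlt (t : ℕ) : ℝ := (if t % 2 = 1 then 1 else 3 / 2) * (1 / 3) ^ (t / 2)

/-- The weight of the cost `k`. -/
noncomputable def wt (t k : ℕ) : ℝ := max (3 * (1 / 3) ^ k - dlt t) 0

theorem pow_le_dlt (t : ℕ) : ((1 : ℝ) / 3) ^ (t / 2) ≤ dlt t := by
  have h : (0 : ℝ) ≤ (1 / 3) ^ (t / 2) := by positivity
  unfold dlt
  split_ifs <;> linarith

theorem dlt_pos (t : ℕ) : 0 < dlt t :=
  lt_of_lt_of_le (by positivity) (pow_le_dlt t)

theorem dlt_le_one {t : ℕ} (ht : 1 ≤ t) : dlt t ≤ 1 := by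
  unfold dlt
  split_ifs with h
  · have : ((1 : ℝ) / 3) ^ (t / 2) ≤ 1 := pow_le_one₀ (by norm_num) (by norm_num)
    linarith
  · have h2 : 1 ≤ t / 2 := by omega
    have : ((1 : ℝ) / 3) ^ (t / 2) ≤ (1 / 3) ^ 1 :=
      pow_le_pow_of_le_one (by norm_num) (by norm_num) h2
    linarith

theorem wt_nonneg (t k : ℕ) : 0 ≤ wt t k := le_max_right _ _

theorem wt_anti (t : ℕ) {i j : ℕ} (h : i ≤ j) : wt t j ≤ wt t i := by
  unfold wt
  apply max_le_max _ le_rfl
  have : ((1 : ℝ) / 3) ^ j ≤ (1 / 3) ^ i := pow_le_pow_of_le_one (by norm_num) (by norm_num) h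
  linarith

theorem wt_one {t : ℕ} (ht : 1 ≤ t) : wt t 1 = 1 - dlt t := by
  unfold wt
  have := dlt_le_one ht
  rw [max_eq_left (by linarith)]
  ring

theorem wt_two (t : ℕ) : wt t 2 ≤ 1 / 3 := by
  unfold wt
  have := dlt_pos t
  apply max_le
  · linarith
  · norm_num

theorem wt_zero (t k : ℕ) (h : t / 2 + 1 ≤ k) : wt t k = 0 := by
  unfold wt
  apply max_eq_right
  have h1 : ((1 : ℝ) / 3) ^ k ≤ (1 / 3) ^ (t / 2 + 1) :=
    pow_le_pow_of_le_one (by norm_num) (by norm_num) h
  have h2 : ((1 : ℝ) / 3) ^ (t / 2 + 1) = (1 / 3) ^ (t / 2) * (1 / 3) := pow_succ _ _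
  have := pow_le_dlt t
  linarith

theorem wt_succ (t k : ℕ) : wt t k ≤ 3 * wt t (k + 1) + 2 * dlt t := by
  have h0 := dlt_pos t
  have h1 : 3 * ((1 : ℝ) / 3) ^ (k + 1) - dlt t ≤ wt t (k + 1) := le_max_left _ _
  have h2 := wt_nonneg t (k + 1)
  have h3 : ((1 : ℝ) / 3) ^ (k + 1) = (1 / 3) ^ k * (1 / 3) := pow_succ _ _
  unfold wt at h2 ⊢
  unfold wt at h1
  apply max_le
  · linarith
  · linarith

theorem wt_half {t : ℕ} (ht : t % 2 = 0) : wt t (t / 2) = dlt t := by
  have h : 3 * ((1 : ℝ) / 3) ^ (t / 2) - dlt t = dlt t := by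
    unfold dlt
    rw [if_neg (by omega)]
    ring
  unfold wt
  rw [h]
  exact max_eq_left (dlt_pos t).le

theorem full_aux {t : ℕ} {u v : ℕ} (huv : u ≤ v) (h : t ≤ u + v) :
    wt t u / 2 + wt t v / 2 ≤ dlt t + wt t (u + 1) + wt t (v + 1) / 2 + wt t (u + 1) / 2 := by
  have h1 := wt_succ t u
  have h2 := wt_nonneg t (v + 1)
  have h3 := wt_nonneg t (u + 1)
  by_cases hv : t / 2 + 1 ≤ v
  · rw [wt_zero t v hv]
    linarith
  · have hu : u = t / 2 := by omega
    have hv' : v = t / 2 := by omega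
    have ht : t % 2 = 0 := by omega
    have := wt_half ht
    rw [hu] at h3 ⊢
    rw [hv'] at h2 ⊢
    linarith

/-- The inequality for a full step. -/
theorem full_ineq {t : ℕ} (ht : 1 ≤ t) {D k Ub D' l Uo : ℕ} (hD' : 1 ≤ D') (hl : 1 ≤ l)
    (hUb : 1 ≤ Ub) (h1 : D ≤ D' + l) (h3 : k ≤ l + Ub) (h4 : k ≤ D' + l)
    (h5 : Uo ≤ Ub + l) (h6 : t < D' + Uo) :
    wt t l + (wt t D' - wt t Uo) / 2 ≤ wt t k + (wt t D - wt t Ub) / 2 + 1 := by
  have hd0 := dlt_pos t
  have hd1 := dlt_le_one ht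
  have e1 := wt_one ht
  have e2 := wt_two t
  by_cases hl1 : l = 1
  · subst hl1
    have a1 : wt t (D' + 1) ≤ wt t D := wt_anti t h1
    have a2 : wt t (Ub + 1) ≤ wt t Uo := wt_anti t h5
    have hs : t ≤ D' + Ub := by omega
    rcases le_total D' Ub with hle | hle
    · have a3 : wt t (D' + 1) ≤ wt t k := wt_anti t h4
      have := full_aux hle hs
      linarith
    · have a3 : wt t (Ub + 1) ≤ wt t k := wt_anti t (by omega)
      have := full_aux hle (by omega : t ≤ Ub + D')
      linarith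
  · have hl2 : 2 ≤ l := by omega
    have b1 : wt t l ≤ wt t 2 := wt_anti t hl2
    have b2 := wt_nonneg t k
    have b3 := wt_nonneg t D
    have b4 := wt_nonneg t Uo
    have b5 : wt t D' ≤ wt t 1 := wt_anti t hD'
    have b6 : wt t Ub ≤ wt t 1 := wt_anti t hUb
    by_cases hc : D' = 1 ∧ Ub = 1
    · obtain ⟨rfl, rfl⟩ := hc
      rw [wt_zero t l (by omega)]
      linarith
    · by_cases hc1 : D' = 1
      · have hU : 2 ≤ Ub := by omega
        have b7 : wt t Ub ≤ wt t 2 := wt_anti t hU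
        linarith
      · have hU : 2 ≤ D' := by omega
        have b7 : wt t D' ≤ wt t 2 := wt_anti t hU
        linarith

/-- The inequality for a splitter. -/
theorem split_ineq {t : ℕ} {D Ub D' l Uo : ℕ} (h1 : D ≤ D') (h2 : D ≤ l) (h3 : Uo ≤ Ub)
    (h4 : Uo ≤ l) (h5 : t < D' + l) (h6 : t < Ub + l) :
    wt t l + (wt t D' - wt t Uo) / 2 ≤ (wt t D - wt t Ub) / 2 := by
  have a1 := wt_anti t h1
  have a2 := wt_anti t h2
  have a3 := wt_anti t h3
  have a4 := wt_anti t h4
  by_cases hl : t / 2 + 1 ≤ l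
  · rw [wt_zero t l hl]
    linarith
  · rw [wt_zero t D' (by omega), wt_zero t Ub (by omega)]
    linarith

/-! ### The potential -/

/-- The potential: `D` is the set of the live leaves, `z` the centre. -/
noncomputable def Phi (t : ℕ) (z : α) (𝒪 : Set (Finset α)) (D : Finset α) (L : List (α × α)) :
    ℝ :=
  ∑ p ∈ D, wt t (cc t 𝒪 L (fun O => p ∈ O)) +
    (wt t (cc t 𝒪 L (fun O => z ∈ O)) - wt t (cc t 𝒪 L (fun O => z ∉ O))) / 2

theorem potentialS [Fintype α] {t : ℕ} (ht : 1 ≤ t) (z : α) (L : List (α × α)) :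
    ∀ (𝒪 : Set (Finset α)) (D : Finset α), (∀ T ∈ L, T.1 = z ∧ T.1 ≠ T.2) → z ∉ D →
    (∀ O ∈ 𝒪, O ⊆ insert z D) → RPS t 𝒪 L →
    (1 + wt t 1) * ((Fintype.card α : ℝ) - 1) + wt t 1 / 2 ≤
      L.length + D.card + Phi t z 𝒪 D L := by
  induction L with
  | nil =>
    intro 𝒪 D _ hz hO hR
    have hall : ∀ p : α, p ∈ insert z D := by
      intro p
      obtain ⟨O, hO1, M, hM, hs⟩ := hR {p} (by rw [card_singleton]; exact ht)
      rw [List.sublist_nil] at hM
      subst hM
      obtain ⟨x, hx, hx'⟩ := mem_image.1 (singleton_subset_iff.1 hs)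
      exact hO O hO1 (hx' ▸ hx)
    have hcard : (Fintype.card α : ℝ) - 1 = D.card := by
      have h1 : insert z D = univ := by
        rw [eq_univ_iff_forall]
        exact hall
      have h2 := card_insert_of_notMem hz
      rw [h1, card_univ] at h2
      rw [h2]
      push_cast
      ring
    have hK : ∀ p : α, cc t 𝒪 [] (fun O => p ∈ O) = 1 := by
      intro p
      apply le_antisymm
      · refine cst_le t _ le_rfl (card_singleton p).le ?_
        intro O _ M hM hX
        rw [List.sublist_nil] at hM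
        subst hM
        obtain ⟨x, hx, hx'⟩ := mem_image.1 (singleton_subset_iff.1 hX)
        exact hx' ▸ hx
      · exact one_le_cst _ _
    have hlt : t < cc t 𝒪 [] (fun O => z ∈ O) + cc t 𝒪 [] (fun O => z ∉ O) := by
      apply lt_cst_add
      intro X Y hX hY hc
      obtain ⟨O, hO1, M, hM, hs⟩ := hR _ hc
      exact hY O hO1 M hM (union_subset_right hs) (hX O hO1 M hM (union_subset_left hs))
    rw [hK z] at hlt
    have hU : wt t (cc t 𝒪 [] (fun O => z ∉ O)) = 0 := wt_zero t _ (by omega)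
    unfold Phi
    rw [hU]
    simp only [hK, sum_const, nsmul_eq_mul, List.length_nil, Nat.cast_zero, zero_add]
    rw [hcard]
    linarith
  | cons T L ih =>
    intro 𝒪 D hne hz hO hR
    obtain ⟨hT1, hT2⟩ := hne T List.mem_cons_self
    obtain ⟨z', a⟩ := T
    simp only at hT1 hT2
    subst hT1
    have haz : a ≠ z' := hT2.symm
    -- the next state
    have hz' : z' ∉ insert a D := by
      rw [mem_insert]
      rintro (h | h)
      · exact hT2 h
      · exact hz h
    have hO' : ∀ O ∈ nx 𝒪 (z', a), O ⊆ insert z' (insert a D) := by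
      rintro O' ⟨O, hO1, rfl | rfl⟩
      · exact (hO _ hO1).trans (insert_subset_insert _ (subset_insert _ _))
      · intro y hy
        obtain ⟨x, hx, rfl⟩ := mem_image.1 hy
        have hxD := hO O hO1 hx
        simp only [mem_insert] at hxD ⊢
        by_cases h1 : x = z'
        · subst h1
          rw [Equiv.swap_apply_left]
          exact Or.inr (Or.inl rfl)
        · by_cases h2 : x = a
          · subst h2
            rw [Equiv.swap_apply_right]
            exact Or.inl rfl
          · rw [Equiv.swap_apply_of_ne_of_ne h1 h2]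
            rcases hxD with h | h
            · exact absurd h h1
            · exact Or.inr (Or.inr h)
    have hIH := ih (nx 𝒪 (z', a)) (insert a D) (fun T' hT' => hne T' (List.mem_cons_of_mem _ hT'))
      hz' hO' hR.tail
    rw [List.length_cons]
    push_cast
    -- other leaves
    have hother : ∀ p, p ≠ z' → p ≠ a → wt t (cc t (nx 𝒪 (z', a)) L (fun O => p ∈ O)) ≤
        wt t (cc t 𝒪 ((z', a) :: L) (fun O => p ∈ O)) := by
      intro p h1 h2
      apply wt_anti
      rw [cc_before, cc_after]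
      apply fc2_mono
      intro O _ O' hP hp
      exact mem_of_swap_of_ne hP h1 h2 hp
    have hsum : ∑ p ∈ D.erase a, wt t (cc t (nx 𝒪 (z', a)) L (fun O => p ∈ O)) ≤
        ∑ p ∈ D.erase a, wt t (cc t 𝒪 ((z', a) :: L) (fun O => p ∈ O)) := by
      apply sum_le_sum
      intro p hp
      exact hother p (fun h => hz (h ▸ mem_of_mem_erase hp)) (ne_of_mem_erase hp)
    set D0 := cc t 𝒪 ((z', a) :: L) (fun O => z' ∈ O) with hD0
    set k0 := cc t 𝒪 ((z', a) :: L) (fun O => a ∈ O) with hk0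
    set U0 := cc t 𝒪 ((z', a) :: L) (fun O => z' ∉ O) with hU0
    set D1 := cc t (nx 𝒪 (z', a)) L (fun O => z' ∈ O) with hD1
    set l1 := cc t (nx 𝒪 (z', a)) L (fun O => a ∈ O) with hl1
    set U1 := cc t (nx 𝒪 (z', a)) L (fun O => z' ∉ O) with hU1
    have e1 : Phi t z' 𝒪 D ((z', a) :: L) =
        ∑ p ∈ D, wt t (cc t 𝒪 ((z', a) :: L) (fun O => p ∈ O)) + (wt t D0 - wt t U0) / 2 := rfl
    have e2 : Phi t z' (nx 𝒪 (z', a)) (insert a D) L =
        ∑ p ∈ insert a D, wt t (cc t (nx 𝒪 (z', a)) L (fun O => p ∈ O)) +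
          (wt t D1 - wt t U1) / 2 := rfl
    have e3 : ∑ p ∈ insert a D, wt t (cc t (nx 𝒪 (z', a)) L (fun O => p ∈ O)) =
        wt t l1 + ∑ p ∈ D.erase a, wt t (cc t (nx 𝒪 (z', a)) L (fun O => p ∈ O)) := by
      have : insert a D = insert a (D.erase a) := by
        ext x
        simp only [mem_insert, mem_erase]
        tauto
      rw [this, sum_insert (notMem_erase a D)]
    -- membership facts
    have hand : ∀ O O' : Finset α, Pr (z', a) O O' → z' ∈ O' → a ∈ O' → z' ∈ O ∧ a ∈ O :=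
      fun O O' hP h1 h2 => mem_and_of_swap (T := (z', a)) hP ⟨h1, h2⟩
    have hor : ∀ O O' : Finset α, Pr (z', a) O O' → z' ∈ O' ∨ a ∈ O' → z' ∈ O ∨ a ∈ O :=
      fun O O' hP h1 => mem_or_of_swap (T := (z', a)) hP h1
    by_cases haD : a ∈ D
    · -- a full step
      have hins : insert a D = D := insert_eq_self.2 haD
      have e4 : ∑ p ∈ D, wt t (cc t 𝒪 ((z', a) :: L) (fun O => p ∈ O)) =
          wt t k0 + ∑ p ∈ D.erase a, wt t (cc t 𝒪 ((z', a) :: L) (fun O => p ∈ O)) :=
        (add_sum_erase _ (fun p => wt t (cc t 𝒪 ((z', a) :: L) (fun O => p ∈ O))) haD).symm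
      have f1 : D0 ≤ D1 + l1 := by
        rw [hD0, hD1, hl1, cc_before, cc_after, cc_after]
        apply fc2_add
        intro O _ O' hP h1 h2
        exact (hand O O' hP h1 h2).1
      have f2 : k0 ≤ D1 + l1 := by
        rw [hk0, hD1, hl1, cc_before, cc_after, cc_after]
        apply fc2_add
        intro O _ O' hP h1 h2
        exact (hand O O' hP h1 h2).2
      have f3 : k0 ≤ l1 + U0 := by
        rw [hk0, hl1, hU0, cc_before, cc_after, cc_before]
        apply fc2_add
        intro O _ O' hP h1 h2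
        exact (hor O O' hP (Or.inr h1)).resolve_left h2
      have f4 : U1 ≤ U0 + l1 := by
        rw [hU1, hl1, hU0, cc_before, cc_after, cc_after]
        apply fc2_add
        intro O _ O' hP h1 h2 h3
        exact h1 (hand O O' hP h3 h2).1
      have f5 : t < D1 + U1 := by
        rw [hD1, hU1, cc_after, cc_after]
        apply fc2_lt hR
        intro O _ O' _ h1 h2
        exact h2 h1
      have g1 : 1 ≤ D1 := one_le_cst _ _
      have g2 : 1 ≤ l1 := one_le_cst _ _
      have g3 : 1 ≤ U0 := one_le_cst _ _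
      have hfull := full_ineq ht g1 g2 g3 f1 f3 f2 f4 f5
      have hcard : ((insert a D).card : ℝ) = D.card := by rw [hins]
      rw [e2, e3, hcard] at hIH
      rw [e1, e4]
      linarith
    · -- a splitter
      have hdead : ∀ O ∈ 𝒪, a ∉ O := by
        intro O hO1 h
        have := hO O hO1 h
        rw [mem_insert] at this
        rcases this with h | h
        · exact haz h
        · exact haD h
      have herase : D.erase a = D := erase_eq_of_notMem haD
      have f1 : D0 ≤ D1 := by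
        rw [hD0, hD1, cc_before, cc_after]
        apply fc2_mono
        intro O hO1 O' hP h1
        exact (hor O O' hP (Or.inl h1)).resolve_right (hdead O hO1)
      have f2 : D0 ≤ l1 := by
        rw [hD0, hl1, cc_before, cc_after]
        apply fc2_mono
        intro O hO1 O' hP h1
        exact (hor O O' hP (Or.inr h1)).resolve_right (hdead O hO1)
      have f3 : U1 ≤ U0 := by
        rw [hU1, hU0, cc_before, cc_after]
        apply fc2_mono
        intro O hO1 O' hP h1 h2
        rcases hor O O' hP (Or.inl h2) with h | h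
        · exact h1 h
        · exact hdead O hO1 h
      have f4 : U1 ≤ l1 := by
        rw [hU1, hl1, cc_after, cc_after]
        apply fc2_mono
        intro O hO1 O' hP h1 h2
        exact hdead O hO1 (hand O O' hP h2 h1).2
      have f5 : t < D1 + l1 := by
        rw [hD1, hl1, cc_after, cc_after]
        apply fc2_lt hR
        intro O hO1 O' hP h1 h2
        exact hdead O hO1 (hand O O' hP h1 h2).2
      have f6 : t < U0 + l1 := by
        rw [hU0, hl1, cc_after, cc_before]
        apply fc2_lt hR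
        intro O hO1 O' hP h1 h2
        rcases hor O O' hP (Or.inr h2) with h | h
        · exact h1 h
        · exact hdead O hO1 h
      have hsp := split_ineq f1 f2 f3 f4 f5 f6
      have hcard : ((insert a D).card : ℝ) = D.card + 1 := by
        rw [card_insert_of_notMem haD]
        push_cast
        ring
      rw [e2, e3, hcard, herase] at hIH
      rw [herase] at hsum
      rw [e1]
      linarith

/-- `L` consists of star transpositions. -/
def IsStar {n : ℕ} (L : List (Fin n × Fin n)) : Prop := ∀ T ∈ L, T.1.val = 0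

/-- **The lower bound for star transpositions.** -/
theorem lowerS {t n : ℕ} (ht : 1 ≤ t) {h : t ≤ n} {L : List (Fin n × Fin n)} (hL : IsNet h L)
    (hS : IsStar L) :
    (2 - dlt t) * n - t - (1 - dlt t) / 2 ≤ L.length := by
  have hn : 0 < n := by omega
  let z : Fin n := ⟨0, hn⟩
  let I : Finset (Fin n) := univ.image (Fin.castLE h)
  have hzI : z ∈ I := by
    refine mem_image.2 ⟨⟨0, by omega⟩, mem_univ _, ?_⟩
    rfl
  have hIcard : I.card = t := by
    rw [card_image_of_injective _ (Fin.castLE_injective h)]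
    simp
  have hR : RPS t {O | O ⊆ I} L := by
    intro X hX
    obtain ⟨O, hO, M, hM, hs⟩ := hL.rp X hX
    exact ⟨O, hO, M, hM, hs⟩
  have hpot := potentialS ht z L {O | O ⊆ I} (I.erase z)
    (fun T hT => ⟨Fin.ext (hS T hT), hL.1 T hT⟩) (notMem_erase z I)
    (fun O hO => by
      rw [insert_erase hzI]
      exact hO) hR
  have hcard : ((I.erase z).card : ℝ) = t - 1 := by
    rw [card_erase_of_mem hzI, hIcard, Nat.cast_sub ht]
    push_cast
    ring
  have hK : ∀ p ∈ I, wt t (cc t {O | O ⊆ I} L (fun O => p ∈ O)) = 0 := by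
    intro p hp
    apply wt_zero
    rcases cst_mem t (Fc {O | O ⊆ I} L (fun O => p ∈ O)) with h1 | ⟨-, X, hX, hF⟩
    · show t / 2 + 1 ≤ cst t (Fc {O | O ⊆ I} L (fun O => p ∈ O))
      omega
    · by_contra hcon
      have hXt : X.card < t := by
        have : cst t (Fc {O | O ⊆ I} L (fun O => p ∈ O)) < t / 2 + 1 := not_le.1 hcon
        omega
      obtain ⟨j0, -, rfl⟩ := mem_image.1 hp
      obtain ⟨M, hM, hs⟩ := hL.avoid hXt j0
      exact notMem_erase _ _ (hF _ (erase_subset _ _) M hM hs)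
  have hPhi : Phi t z {O | O ⊆ I} (I.erase z) L ≤ 0 := by
    unfold Phi
    rw [hK z hzI, sum_eq_zero (fun p hp => hK p (mem_of_mem_erase hp))]
    have h3 := wt_nonneg t (cc t {O | O ⊆ I} L (fun O => z ∉ O))
    linarith
  rw [hcard, wt_one ht, Fintype.card_fin] at hpot
  linarith

end ReachNet
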