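import Mathlib
import Pool.Agent.Lib.MP_720f8f_co.Defs

section

/-!
# Sparse hypergraphs of large degree (greedy construction)

`h i` (`i < N`) are the edges; every `F` with `1 ≤ |F| ≤ t` edges covers at least
`(r - 1) |F| + 1` vertices.
-/

set_option autoImplicit false

open Finset

namespace ReachNet

variable {V : Type} [DecidableEq V]

/-- the sparsity condition -/
def Sparse (r t N : ℕ) (h : ℕ → Finset V) : Prop :=
  ∀ F : Finset ℕ, F ⊆ range N → F.Nonempty → F.card ≤ t →
    (r - 1) * F.card + 1 ≤ (F.biUnion h).card

/-- the neighbourhood of a vertex -/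
def nb (N : ℕ) (h : ℕ → Finset V) (v : V) : Finset V :=
  insert v (((range N).filter (fun i => v ∈ h i)).biUnion h)

/-- balls -/
def ball (N : ℕ) (h : ℕ → Finset V) : ℕ → V → Finset V
  | 0, v => {v}
  | j + 1, v => (ball N h j v).biUnion (nb N h)

theorem self_mem_nb (N : ℕ) (h : ℕ → Finset V) (v : V) : v ∈ nb N h v := mem_insert_self _ _

theorem ball_subset_succ (N : ℕ) (h : ℕ → Finset V) (j : ℕ) (v : V) :
    ball N h j v ⊆ ball N h (j + 1) v := by
  intro x hx
  exact mem_biUnion.2 ⟨x, hx, self_mem_nb N h x⟩

theorem ball_mono (N : ℕ) (h : ℕ → Finset V) {i j : ℕ} (hij : i ≤ j) (v : V) :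
    ball N h i v ⊆ ball N h j v := by
  induction hij with
  | refl => exact Subset.rfl
  | step _ ih => exact ih.trans (ball_subset_succ N h _ v)

theorem self_mem_ball (N : ℕ) (h : ℕ → Finset V) (j : ℕ) (v : V) : v ∈ ball N h j v :=
  ball_mono N h (Nat.zero_le j) v (mem_singleton_self v)

theorem card_nb_le {r D N : ℕ} {h : ℕ → Finset V} (hr : ∀ i < N, (h i).card = r)
    (hD : ∀ v, ((range N).filter (fun i => v ∈ h i)).card ≤ D) (v : V) :
    (nb N h v).card ≤ 1 + D * r := by
  unfold nb
  refine (card_insert_le _ _).trans ?_
  rw [add_comm]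
  apply Nat.add_le_add_left
  refine (card_biUnion_le_card_mul _ _ r ?_).trans (Nat.mul_le_mul_right _ (hD v))
  intro i hi
  exact (hr i (mem_range.1 (mem_filter.1 hi).1)).le

theorem card_ball_le {r D N : ℕ} {h : ℕ → Finset V} (hr : ∀ i < N, (h i).card = r)
    (hD : ∀ v, ((range N).filter (fun i => v ∈ h i)).card ≤ D) (j : ℕ) (v : V) :
    (ball N h j v).card ≤ (1 + D * r) ^ j := by
  induction j with
  | zero => exact le_of_eq (card_singleton v)
  | succ j ih =>
    unfold ball
    refine (card_biUnion_le_card_mul _ _ (1 + D * r) (fun x _ => card_nb_le hr hD x)).trans ?_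
    rw [pow_succ]
    exact Nat.mul_le_mul_right _ ih

/-- pairwise far vertices -/
theorem exists_far {r D N : ℕ} {h : ℕ → Finset V} (hr : ∀ i < N, (h i).card = r)
    (hD : ∀ v, ((range N).filter (fun i => v ∈ h i)).card ≤ D) (t : ℕ) (U : Finset V) (k : ℕ)
    (hU : k * (1 + D * r) ^ t ≤ U.card) :
    ∃ e : Finset V, e ⊆ U ∧ e.card = k ∧
      ∀ u ∈ e, ∀ u' ∈ e, u ≠ u' → ¬ (u' ∈ ball N h t u ∧ u ∈ ball N h t u') := by
  induction k with
  | zero =>
    exact ⟨∅, empty_subset _, card_empty, fun u hu => absurd hu (notMem_empty u)⟩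
  | succ k ih =>
    have hle : k * (1 + D * r) ^ t ≤ U.card :=
      (Nat.mul_le_mul_right _ (Nat.le_succ k)).trans hU
    obtain ⟨e, he, hc, hp⟩ := ih hle
    have hcard : (e.biUnion (ball N h t)).card ≤ k * (1 + D * r) ^ t := by
      rw [← hc]
      exact card_biUnion_le_card_mul _ _ _ (fun x _ => card_ball_le hr hD t x)
    have hlt : (e.biUnion (ball N h t)).card < U.card := by
      refine lt_of_le_of_lt hcard (lt_of_lt_of_le ?_ hU)
      rw [Nat.succ_mul]
      exact Nat.lt_add_of_pos_right (pow_pos (by omega) t)
    obtain ⟨u, huU, hu⟩ : ∃ u ∈ U, u ∉ e.biUnion (ball N h t) := by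
      by_contra hcon
      push Not at hcon
      have := card_le_card (show U ⊆ e.biUnion (ball N h t) from fun x hx => hcon x hx)
      omega
    have hue : u ∉ e := fun h' => hu (mem_biUnion.2 ⟨u, h', self_mem_ball N h t u⟩)
    have hfar : ∀ x ∈ e, u ∉ ball N h t x := fun x hx h' => hu (mem_biUnion.2 ⟨x, hx, h'⟩)
    refine ⟨insert u e, ?_, ?_, ?_⟩
    · exact insert_subset huU he
    · rw [card_insert_of_notMem hue, hc]
    · intro x hx y hy hxy
      rcases mem_insert.1 hx with hx | hx
      · rcases mem_insert.1 hy with hy | hy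
        · exact absurd (hx.trans hy.symm) hxy
        · rw [hx]
          exact fun h' => hfar y hy h'.2
      · rcases mem_insert.1 hy with hy | hy
        · rw [hy]
          exact fun h' => hfar x hx h'.1
        · exact hp x hx y hy hxy

/-- connected sets of edges are contained in balls -/
theorem conn_subset_ball {N : ℕ} {h : ℕ → Finset V} {F : Finset ℕ} (hF : F ⊆ range N)
    (hc : ∀ F1 ⊆ F, F1.Nonempty → F1 ≠ F → ¬ Disjoint (F1.biUnion h) ((F \ F1).biUnion h))
    {v : V} (hv : v ∈ F.biUnion h) : F.biUnion h ⊆ ball N h F.card v := by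
  have claim : ∀ j : ℕ, j + 1 ≤ F.card → ∃ F1 ⊆ F, F1.card = j + 1 ∧
      F1.biUnion h ⊆ ball N h (j + 1) v := by
    intro j
    induction j with
    | zero =>
      intro _
      obtain ⟨i, hi, hvi⟩ := mem_biUnion.1 hv
      refine ⟨{i}, singleton_subset_iff.2 hi, card_singleton i, ?_⟩
      rw [singleton_biUnion]
      intro x hx
      unfold ball
      refine mem_biUnion.2 ⟨v, mem_singleton_self v, ?_⟩
      unfold nb
      refine mem_insert_of_mem (mem_biUnion.2 ⟨i, mem_filter.2 ⟨hF hi, hvi⟩, hx⟩)
    | succ j ih =>
      intro hj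
      obtain ⟨F1, h1, h2, h3⟩ := ih (by omega)
      have hne : F1 ≠ F := by
        rintro rfl
        omega
      have hnd := hc F1 h1 (card_pos.1 (by omega)) hne
      rw [not_disjoint_iff] at hnd
      obtain ⟨x, hx1, hx2⟩ := hnd
      obtain ⟨i, hi, hxi⟩ := mem_biUnion.1 hx2
      obtain ⟨hiF, hi1⟩ := mem_sdiff.1 hi
      refine ⟨insert i F1, insert_subset hiF h1, ?_, ?_⟩
      · rw [card_insert_of_notMem hi1, h2]
      · intro y hy
        rw [biUnion_insert, mem_union] at hy
        rcases hy with hy | hy
        · show y ∈ (ball N h (j + 1) v).biUnion (nb N h)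
          refine mem_biUnion.2 ⟨x, h3 hx1, ?_⟩
          unfold nb
          exact mem_insert_of_mem (mem_biUnion.2 ⟨i, mem_filter.2 ⟨hF hiF, hxi⟩, hy⟩)
        · exact ball_subset_succ N h (j + 1) v (h3 hy)
  have hpos : 0 < F.card := by
    obtain ⟨i, hi, -⟩ := mem_biUnion.1 hv
    exact card_pos.2 ⟨i, hi⟩
  obtain ⟨F1, h1, h2, h3⟩ := claim (F.card - 1) (by omega)
  have heq : F1 = F := eq_of_subset_of_card_le h1 (by omega)
  have h4 : F.card - 1 + 1 = F.card := by omega
  rw [heq, h4] at h3
  exact h3

/-- the new edge `e` is compatible with every small set of edges -/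
theorem new_edge {r t N : ℕ} {h : ℕ → Finset V} (hS : Sparse r t N h) {e : Finset V}
    (he : ∀ u ∈ e, ∀ u' ∈ e, u ≠ u' → ¬ (u' ∈ ball N h t u ∧ u ∈ ball N h t u')) :
    ∀ k : ℕ, ∀ F : Finset ℕ, F.card = k → F ⊆ range N → F.card ≤ t →
      (r - 1) * F.card + (e ∩ F.biUnion h).card ≤ (F.biUnion h).card := by
  intro k
  induction k using Nat.strong_induction_on with
  | _ k ih =>
    intro F hk hF ht
    by_cases hne : F.Nonempty
    · by_cases hc : ∀ F1 ⊆ F, F1.Nonempty → F1 ≠ F →
          ¬ Disjoint (F1.biUnion h) ((F \ F1).biUnion h)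
      · have h1 : (e ∩ F.biUnion h).card ≤ 1 := by
          rw [card_le_one]
          intro a ha b hb
          by_contra hab
          rw [mem_inter] at ha hb
          refine he a ha.1 b hb.1 hab ⟨?_, ?_⟩
          · exact ball_mono N h ht a (conn_subset_ball hF hc ha.2 hb.2)
          · exact ball_mono N h ht b (conn_subset_ball hF hc hb.2 ha.2)
        have h2 := hS F hF hne ht
        omega
      · push Not at hc
        obtain ⟨F1, h1, h2, h3, h4⟩ := hc
        have hsum : F1.card + (F \ F1).card = F.card := by
          rw [add_comm]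
          exact card_sdiff_add_card_eq_card h1
        have hp1 : 0 < F1.card := card_pos.2 h2
        have hlt : F1.card < F.card := card_lt_card (Finset.ssubset_iff_subset_ne.2 ⟨h1, h3⟩)
        have i1 := ih F1.card (by omega) F1 rfl (h1.trans hF) (by omega)
        have i2 := ih (F \ F1).card (by omega) (F \ F1) rfl (sdiff_subset.trans hF) (by omega)
        have hun : F.biUnion h = F1.biUnion h ∪ (F \ F1).biUnion h := by
          rw [← union_biUnion, union_sdiff_of_subset h1]
        have hcu : (F.biUnion h).card = (F1.biUnion h).card + ((F \ F1).biUnion h).card := by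
          rw [hun, card_union_of_disjoint h4]
        have hce : (e ∩ F.biUnion h).card ≤
            (e ∩ F1.biUnion h).card + (e ∩ (F \ F1).biUnion h).card := by
          rw [hun, inter_union_distrib_left]
          exact card_union_le _ _
        have hmul : (r - 1) * F.card = (r - 1) * F1.card + (r - 1) * (F \ F1).card := by
          rw [← hsum, mul_add]
        omega
    · rw [not_nonempty_iff_eq_empty] at hne
      subst hne
      simp

/-- **The greedy construction.** -/
theorem exists_hyper [Fintype V] (r t D : ℕ) (hr : 1 ≤ r) (N : ℕ)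
    (hN : N * r + r * (1 + D * r) ^ t * D ≤ Fintype.card V * D) :
    ∃ h : ℕ → Finset V, (∀ i < N, (h i).card = r) ∧
      (∀ v, ((range N).filter (fun i => v ∈ h i)).card ≤ D) ∧ Sparse r t N h := by
  induction N with
  | zero =>
    refine ⟨fun _ => ∅, fun i hi => absurd hi (Nat.not_lt_zero i), fun v => by simp, ?_⟩
    intro F hF hne _
    rw [range_zero, subset_empty] at hF
    rw [hF] at hne
    exact absurd hne (by simp)
  | succ N ih =>
    have hN' : N * r + r * (1 + D * r) ^ t * D ≤ Fintype.card V * D := by
      refine le_trans (Nat.add_le_add_right ?_ _) hN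
      exact Nat.mul_le_mul_right _ (Nat.le_succ N)
    obtain ⟨h, h1, h2, h3⟩ := ih hN'
    -- unsaturated vertices
    set U : Finset V := univ.filter (fun v => ((range N).filter (fun i => v ∈ h i)).card < D)
      with hU
    have hdeg : ∑ v : V, ((range N).filter (fun i => v ∈ h i)).card = N * r := by
      have e1 : ∀ v : V, ((range N).filter (fun i => v ∈ h i)).card =
          ∑ i ∈ range N, if v ∈ h i then 1 else 0 := by
        intro v
        rw [card_filter]
      simp only [e1]
      rw [sum_comm]
      have e2 : ∀ i ∈ range N, (∑ v : V, if v ∈ h i then 1 else 0) = r := by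
        intro i hi
        rw [← card_filter, filter_mem_eq_inter, univ_inter]
        exact h1 i (mem_range.1 hi)
      rw [sum_congr rfl e2, sum_const, card_range, smul_eq_mul]
    have hsat : (Fintype.card V - U.card) * D ≤ N * r := by
      rw [← hdeg]
      have e3 : (univ \ U).card = Fintype.card V - U.card := by
        rw [card_sdiff_of_subset (subset_univ _), card_univ]
      rw [← e3]
      calc (univ \ U).card * D = ∑ _v ∈ univ \ U, D := by rw [sum_const, smul_eq_mul]
        _ ≤ ∑ v ∈ univ \ U, ((range N).filter (fun i => v ∈ h i)).card := by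
            apply sum_le_sum
            intro v hv
            rw [mem_sdiff, hU, mem_filter] at hv
            have := hv.2
            push Not at this
            exact this (mem_univ v)
        _ ≤ ∑ v : V, ((range N).filter (fun i => v ∈ h i)).card :=
            sum_le_sum_of_subset (subset_univ _)
    have hUc : r * (1 + D * r) ^ t ≤ U.card := by
      by_contra hcon
      push Not at hcon
      have hle : U.card ≤ Fintype.card V := card_le_univ U
      have hD : 0 < D ∨ D = 0 := by omega
      rcases hD with hD | hD
      · have k1 : U.card * D < r * (1 + D * r) ^ t * D := Nat.mul_lt_mul_of_pos_right hcon hD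
        have k2 : (Fintype.card V - U.card) * D + U.card * D = Fintype.card V * D := by
          rw [← add_mul]
          congr 1
          omega
        have k3 : (N + 1) * r = N * r + r := by ring
        omega
      · subst hD
        simp only [mul_zero, add_zero, nonpos_iff_eq_zero, mul_eq_zero] at hN
        omega
    obtain ⟨e, he1, he2, he3⟩ := exists_far h1 h2 t U r hUc
    set h' : ℕ → Finset V := Function.update h N e with hh'
    have hlt : ∀ i < N, h' i = h i := fun i hi => Function.update_of_ne (by omega) _ _
    have hNe : h' N = e := Function.update_self _ _ _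
    have hfil : ∀ v, (range N).filter (fun i => v ∈ h' i) =
        (range N).filter (fun i => v ∈ h i) := by
      intro v
      apply filter_congr
      intro i hi
      rw [hlt i (mem_range.1 hi)]
    refine ⟨h', ?_, ?_, ?_⟩
    · intro i hi
      by_cases hiN : i = N
      · rw [hiN, hNe, he2]
      · rw [hlt i (by omega)]
        exact h1 i (by omega)
    · intro v
      rw [range_add_one, filter_insert, hNe]
      split_ifs with hv
      · have hvU := he1 hv
        rw [hU, mem_filter] at hvU
        refine (card_insert_le _ _).trans ?_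
        rw [hfil]
        exact hvU.2
      · rw [hfil]
        exact h2 v
    · intro F hF hne hFt
      by_cases hNF : N ∈ F
      · have hsub : F.erase N ⊆ range N := by
          intro i hi
          have hi1 := ne_of_mem_erase hi
          have hi2 := mem_range.1 (hF (mem_of_mem_erase hi))
          exact mem_range.2 (by omega)
        have hcF : (F.erase N).card = F.card - 1 := card_erase_of_mem hNF
        have hpos : 0 < F.card := card_pos.2 hne
        have hnew := new_edge h3 he3 (F.erase N).card (F.erase N) rfl hsub (by omega)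
        have hbi : F.biUnion h' = e ∪ (F.erase N).biUnion h := by
          conv_lhs => rw [← insert_erase hNF]
          rw [biUnion_insert, hNe]
          congr 1
          apply biUnion_congr rfl
          intro i hi
          exact hlt i (mem_range.1 (hsub hi))
        have hcu := card_union_add_card_inter e ((F.erase N).biUnion h)
        rw [hbi]
        have hmul : (r - 1) * F.card = (r - 1) * (F.card - 1) + (r - 1) := by
          obtain ⟨c, hc⟩ : ∃ c, F.card = c + 1 := ⟨F.card - 1, by omega⟩
          rw [hc]
          simp only [Nat.add_sub_cancel]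
          ring
        rw [hcF] at hnew
        omega
      · have hsub : F ⊆ range N := by
          intro i hi
          have hi1 : i ≠ N := fun h' => hNF (h' ▸ hi)
          have hi2 := mem_range.1 (hF hi)
          exact mem_range.2 (by omega)
        have hbi : F.biUnion h' = F.biUnion h :=
          biUnion_congr rfl fun i hi => hlt i (mem_range.1 (hsub hi))
        rw [hbi]
        exact h3 F hsub hne hFt

/-- double counting -/
theorem two_card_le {h : ℕ → Finset V} (F : Finset ℕ) :
    2 * (F.biUnion h).card ≤
      ∑ i ∈ F, ((h i).card + (h i \ (F.erase i).biUnion h).card) := by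
  have e1 : ∀ i ∈ F, (h i).card + (h i \ (F.erase i).biUnion h).card =
      ∑ v ∈ F.biUnion h, ((if v ∈ h i then 1 else 0) +
        (if v ∈ h i \ (F.erase i).biUnion h then 1 else 0)) := by
    intro i hi
    rw [sum_add_distrib, ← card_filter, ← card_filter, filter_mem_eq_inter,
      filter_mem_eq_inter]
    have s1 : h i ⊆ F.biUnion h := subset_biUnion_of_mem h hi
    rw [inter_eq_right.2 s1, inter_eq_right.2 (sdiff_subset.trans s1)]
  rw [sum_congr rfl e1, sum_comm]
  calc 2 * (F.biUnion h).card = ∑ _v ∈ F.biUnion h, 2 := by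
        rw [sum_const, smul_eq_mul, mul_comm]
    _ ≤ _ := by
        apply sum_le_sum
        intro v hv
        obtain ⟨i, hi, hvi⟩ := mem_biUnion.1 hv
        by_cases hex : ∃ j ∈ F, j ≠ i ∧ v ∈ h j
        · obtain ⟨j, hj, hji, hvj⟩ := hex
          have hsub : ({i, j} : Finset ℕ) ⊆ F := by
            intro x hx
            rw [mem_insert, mem_singleton] at hx
            rcases hx with rfl | rfl
            · exact hi
            · exact hj
          refine le_trans ?_ (sum_le_sum_of_subset hsub)
          rw [sum_pair hji.symm, if_pos hvi, if_pos hvj]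
          omega
        · refine le_trans ?_ (single_le_sum (fun _ _ => Nat.zero_le _) hi)
          rw [if_pos hvi, if_pos]
          rw [mem_sdiff]
          refine ⟨hvi, ?_⟩
          rw [mem_biUnion]
          rintro ⟨j, hj, hvj⟩
          exact hex ⟨j, mem_of_mem_erase hj, ne_of_mem_erase hj, hvj⟩

/-- **Peeling**: some edge different from the root meets the others in at most one vertex. -/
theorem peel {r t N : ℕ} {h : ℕ → Finset V} (hr : ∀ i < N, (h i).card = r) (hr1 : 1 ≤ r)
    (hS : Sparse r t N h) {F : Finset ℕ} (hF : F ⊆ range N) (h2 : 2 ≤ F.card) (ht : F.card ≤ t)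
    {g : ℕ} (hg : g ∈ F) :
    ∃ i ∈ F, i ≠ g ∧ (h i ∩ (F.erase i).biUnion h).card ≤ 1 := by
  by_contra hcon
  push Not at hcon
  have hri : ∀ i ∈ F, (h i).card = r := fun i hi => hr i (mem_range.1 (hF hi))
  have hpriv : ∀ i ∈ F, i ≠ g → (h i \ (F.erase i).biUnion h).card + 2 ≤ r := by
    intro i hi hig
    have k1 := hcon i hi hig
    have k2 := card_inter_add_card_sdiff (h i) ((F.erase i).biUnion h)
    rw [hri i hi] at k2
    omega
  have hcount := two_card_le (h := h) F
  rw [← add_sum_erase F _ hg] at hcount
  have hle : ∑ i ∈ F.erase g, ((h i).card + (h i \ (F.erase i).biUnion h).card) ≤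
      (F.card - 1) * (2 * r - 2) := by
    rw [← card_erase_of_mem hg, ← smul_eq_mul, ← sum_const]
    apply sum_le_sum
    intro i hi
    have := hpriv i (mem_of_mem_erase hi) (ne_of_mem_erase hi)
    rw [hri i (mem_of_mem_erase hi)]
    omega
  have hSF := hS F hF ⟨g, hg⟩ ht
  rw [hri g hg] at hcount
  obtain ⟨c, hc⟩ : ∃ c, F.card = c + 1 := ⟨F.card - 1, by omega⟩
  obtain ⟨s, hs⟩ : ∃ s, r = s + 1 := ⟨r - 1, by omega⟩
  have hpg_le : (h g \ (F.erase g).biUnion h).card ≤ r := by
    rw [← hri g hg]
    exact card_le_card sdiff_subset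
  have hpg : (h g \ (F.erase g).biUnion h).card = r := by
    rw [hc] at hle hSF
    have e1 : (c + 1 - 1) * (2 * r - 2) = 2 * (c * s) := by
      rw [hs]
      simp only [Nat.add_sub_cancel]
      have : 2 * (s + 1) - 2 = 2 * s := by omega
      rw [this]
      ring
    have e2 : (r - 1) * (c + 1) = c * s + s := by
      rw [hs]
      simp only [Nat.add_sub_cancel]
      ring
    rw [e1] at hle
    rw [e2] at hSF
    omega
  have hdis : Disjoint (h g) ((F.erase g).biUnion h) := by
    rw [← Finset.sdiff_eq_self_iff_disjoint]
    apply eq_of_subset_of_card_le sdiff_subset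
    rw [hpg, hri g hg]
  -- now the other edges alone
  have hne' : (F.erase g).Nonempty := by
    rw [← card_pos, card_erase_of_mem hg]
    omega
  have hSF' := hS (F.erase g) ((erase_subset g F).trans hF) hne'
    ((card_le_card (erase_subset g F)).trans ht)
  have hcount' := two_card_le (h := h) (F.erase g)
  have hle' : ∑ i ∈ F.erase g, ((h i).card + (h i \ ((F.erase g).erase i).biUnion h).card) ≤
      (F.erase g).card * (2 * r - 2) := by
    rw [← smul_eq_mul, ← sum_const]
    apply sum_le_sum
    intro i hi
    have hiF := mem_of_mem_erase hi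
    have hig := ne_of_mem_erase hi
    have heq : h i \ ((F.erase g).erase i).biUnion h = h i \ (F.erase i).biUnion h := by
      ext v
      rw [mem_sdiff, mem_sdiff]
      refine and_congr_right fun hv => ?_
      rw [not_iff_not]
      constructor
      · intro hx
        obtain ⟨j, hj, hvj⟩ := mem_biUnion.1 hx
        exact mem_biUnion.2 ⟨j, mem_erase.2 ⟨ne_of_mem_erase hj,
          mem_of_mem_erase (mem_of_mem_erase hj)⟩, hvj⟩
      · intro hx
        obtain ⟨j, hj, hvj⟩ := mem_biUnion.1 hx
        refine mem_biUnion.2 ⟨j, mem_erase.2 ⟨ne_of_mem_erase hj, mem_erase.2 ⟨?_,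
          mem_of_mem_erase hj⟩⟩, hvj⟩
        rintro rfl
        exact disjoint_left.1 hdis hvj (mem_biUnion.2 ⟨i, hi, hv⟩)
    rw [heq]
    have := hpriv i hiF hig
    rw [hri i hiF]
    omega
  have e3 : (F.erase g).card * (2 * r - 2) = 2 * ((r - 1) * (F.erase g).card) := by
    have : 2 * r - 2 = 2 * (r - 1) := by omega
    rw [this]
    ring
  rw [e3] at hle'
  omega

end ReachNet
end

section

/-!
# The gadget inside a group, and universal permutation lists
-/

set_option autoImplicit false

open Finset

namespace ReachNet

/-- Positions of a group: `2 ^ m` of them. -/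
def GP : ℕ → Type
  | 0 => Unit
  | m + 1 => GP m ⊕ GP m

instance decGP : (m : ℕ) → DecidableEq (GP m)
  | 0 => inferInstanceAs (DecidableEq Unit)
  | m + 1 => by
    have := decGP m
    exact inferInstanceAs (DecidableEq (GP m ⊕ GP m))

instance finGP : (m : ℕ) → Fintype (GP m)
  | 0 => inferInstanceAs (Fintype Unit)
  | m + 1 => by
    have := finGP m
    exact inferInstanceAs (Fintype (GP m ⊕ GP m))

theorem card_GP (m : ℕ) : Fintype.card (GP m) = 2 ^ m := by
  induction m with
  | zero => rfl
  | succ m ih =>
    have : Fintype.card (GP (m + 1)) = Fintype.card (GP m ⊕ GP m) := rfl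
    rw [this, Fintype.card_sum, ih, pow_succ]
    ring

/-- The output position. -/
def gout : (m : ℕ) → GP m
  | 0 => ()
  | m + 1 => Sum.inl (gout m)

/-- left copy -/
def gl {m : ℕ} (x : GP m) : GP (m + 1) := Sum.inl x
/-- right copy -/
def gr {m : ℕ} (x : GP m) : GP (m + 1) := Sum.inr x

theorem gl_inj {m : ℕ} : Function.Injective (gl (m := m)) := Sum.inl_injective
theorem gr_inj {m : ℕ} : Function.Injective (gr (m := m)) := Sum.inr_injective
theorem gl_ne_gr {m : ℕ} (x y : GP m) : gl x ≠ gr y := Sum.inl_ne_inr

/-- The gadget. -/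
def gad : (m : ℕ) → List (GP m × GP m)
  | 0 => []
  | m + 1 => (gad m).map (Prod.map gl gl) ++ (gad m).map (Prod.map gr gr) ++
      [(gl (gout m), gr (gout m))]

theorem length_gad (m : ℕ) : (gad m).length + 1 = 2 ^ m := by
  induction m with
  | zero => rfl
  | succ m ih =>
    unfold gad
    simp only [List.length_append, List.length_map, List.length_cons, List.length_nil]
    rw [pow_succ]
    omega

theorem gad_ne (m : ℕ) : ∀ T ∈ gad m, T.1 ≠ T.2 := by
  induction m with
  | zero => intro T hT; exact absurd hT List.not_mem_nil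
  | succ m ih =>
    intro T hT
    unfold gad at hT
    simp only [List.mem_append, List.mem_map, List.mem_singleton] at hT
    rcases hT with (⟨T', hT', rfl⟩ | ⟨T', hT', rfl⟩) | rfl
    · exact fun h => ih T' hT' (gl_inj h)
    · exact fun h => ih T' hT' (gr_inj h)
    · exact gl_ne_gr _ _

/-- The positions reachable from `w`. -/
theorem gad_reach (m : ℕ) : ∀ w : GP m, ∃ R : Finset (GP m), m + 1 ≤ R.card ∧ gout m ∈ R ∧
    ∀ r ∈ R, ∃ M : List (GP m × GP m), M.Sublist (gad m) ∧ move M w = r := by
  induction m with
  | zero =>
    intro w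
    refine ⟨{()}, le_of_eq (card_singleton _).symm, mem_singleton_self _, ?_⟩
    intro r _
    exact ⟨[], List.Sublist.refl _, rfl⟩
  | succ m ih =>
    have hfix_r : ∀ (M : List (GP m × GP m)) (x : GP m),
        move (M.map (Prod.map gl gl)) (gr x) = gr x := by
      intro M x
      apply move_of_notMem
      intro T hT
      obtain ⟨T', -, rfl⟩ := List.mem_map.1 hT
      exact ⟨gl_ne_gr _ _, gl_ne_gr _ _⟩
    have hfix_l : ∀ (M : List (GP m × GP m)) (x : GP m),
        move (M.map (Prod.map gr gr)) (gl x) = gl x := by
      intro M x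
      apply move_of_notMem
      intro T hT
      obtain ⟨T', -, rfl⟩ := List.mem_map.1 hT
      exact ⟨(gl_ne_gr _ _).symm, (gl_ne_gr _ _).symm⟩
    intro w
    rcases w with w | w
    · obtain ⟨R, hc, ho, hr⟩ := ih w
      refine ⟨insert (gr (gout m)) (R.image gl), ?_, ?_, ?_⟩
      · rw [card_insert_of_notMem, card_image_of_injective _ gl_inj]
        · omega
        · intro h
          obtain ⟨x, -, hx⟩ := mem_image.1 h
          exact gl_ne_gr _ _ hx
      · exact mem_insert_of_mem (mem_image_of_mem gl ho)
      · intro r hr'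
        rcases mem_insert.1 hr' with rfl | h
        · obtain ⟨M, hM, hm⟩ := hr _ ho
          refine ⟨M.map (Prod.map gl gl) ++ [(gl (gout m), gr (gout m))], ?_, ?_⟩
          · unfold gad
            exact ((hM.map _).trans (List.sublist_append_left _ _)).append (List.Sublist.refl _)
          · rw [move_append]
            have : move (M.map (Prod.map gl gl)) (Sum.inl w : GP (m + 1)) = gl (gout m) := by
              have h2 := move_map gl_inj M w
              rw [hm] at h2
              exact h2
            rw [this, move_cons, move_nil]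
            exact Equiv.swap_apply_left _ _
        · obtain ⟨x, hx, rfl⟩ := mem_image.1 h
          obtain ⟨M, hM, hm⟩ := hr x hx
          refine ⟨M.map (Prod.map gl gl), ?_, ?_⟩
          · unfold gad
            exact ((hM.map _).trans (List.sublist_append_left _ _)).trans
              (List.sublist_append_left _ _)
          · have h2 := move_map gl_inj M w
            rw [hm] at h2
            exact h2
    · obtain ⟨R, hc, ho, hr⟩ := ih w
      refine ⟨insert (gl (gout m)) (R.image gr), ?_, ?_, ?_⟩
      · rw [card_insert_of_notMem, card_image_of_injective _ gr_inj]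
        · omega
        · intro h
          obtain ⟨x, -, hx⟩ := mem_image.1 h
          exact gl_ne_gr _ _ hx.symm
      · exact mem_insert_self _ _
      · intro r hr'
        rcases mem_insert.1 hr' with rfl | h
        · obtain ⟨M, hM, hm⟩ := hr _ ho
          refine ⟨M.map (Prod.map gr gr) ++ [(gl (gout m), gr (gout m))], ?_, ?_⟩
          · unfold gad
            exact ((hM.map _).trans (List.sublist_append_right _ _)).append (List.Sublist.refl _)
          · rw [move_append]
            have : move (M.map (Prod.map gr gr)) (Sum.inr w : GP (m + 1)) = gr (gout m) := by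
              have h2 := move_map gr_inj M w
              rw [hm] at h2
              exact h2
            rw [this, move_cons, move_nil]
            exact Equiv.swap_apply_right _ _
        · obtain ⟨x, hx, rfl⟩ := mem_image.1 h
          obtain ⟨M, hM, hm⟩ := hr x hx
          refine ⟨M.map (Prod.map gr gr), ?_, ?_⟩
          · unfold gad
            exact ((hM.map _).trans (List.sublist_append_right _ _)).trans
              (List.sublist_append_left _ _)
          · have h2 := move_map gr_inj M w
            rw [hm] at h2
            exact h2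

/-- At most `m` targets in the group: the wire `w` can be avoided. -/
theorem gad_avoid {m : ℕ} (X : Finset (GP m)) (hX : X.card ≤ m) (w : GP m) :
    ∃ M : List (GP m × GP m), M.Sublist (gad m) ∧ move M w ∉ X := by
  obtain ⟨R, hc, -, hr⟩ := gad_reach m w
  obtain ⟨r, hrR, hrX⟩ : ∃ r ∈ R, r ∉ X := by
    by_contra hcon
    push Not at hcon
    have := card_le_card (show R ⊆ X from fun r hr => hcon r hr)
    omega
  obtain ⟨M, hM, hm⟩ := hr r hrR
  exact ⟨M, hM, hm ▸ hrX⟩

/-! ### Universal permutation lists -/

/-- Every permutation of a finite type is a product of transpositions. -/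
theorem exists_word {α : Type} [Fintype α] [DecidableEq α] (π : Equiv.Perm α) :
    ∃ W : List (α × α), (∀ T ∈ W, T.1 ≠ T.2) ∧ ∀ x, move W x = π x := by
  induction π using Equiv.Perm.swap_induction_on with
  | one => exact ⟨[], fun T hT => absurd hT List.not_mem_nil, fun x => rfl⟩
  | swap_mul f x y hxy ih =>
    obtain ⟨W, hW, hw⟩ := ih
    refine ⟨W ++ [(x, y)], ?_, ?_⟩
    · intro T hT
      rw [List.mem_append, List.mem_singleton] at hT
      rcases hT with h | rfl
      · exact hW T h
      · exact hxy
    · intro z
      rw [move_append, hw]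
      rfl

/-- A list such that every permutation is realised by a subsequence. -/
theorem exists_univ_word (α : Type) [Fintype α] [DecidableEq α] :
    ∃ G : List (α × α), (∀ T ∈ G, T.1 ≠ T.2) ∧
      ∀ π : Equiv.Perm α, ∃ M : List (α × α), M.Sublist G ∧ ∀ x, move M x = π x := by
  choose W hW hw using fun π : Equiv.Perm α => exists_word π
  refine ⟨(univ : Finset (Equiv.Perm α)).toList.flatMap W, ?_, ?_⟩
  · intro T hT
    rw [List.mem_flatMap] at hT
    obtain ⟨π, -, h⟩ := hT
    exact hW π T h
  · intro π
    refine ⟨W π, ?_, hw π⟩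
    have hmem : π ∈ (univ : Finset (Equiv.Perm α)).toList := by
      rw [mem_toList]
      exact mem_univ _
    obtain ⟨s, t, hst⟩ := List.append_of_mem hmem
    rw [hst, List.flatMap_append, List.flatMap_cons]
    exact (List.sublist_append_left _ _).trans (List.sublist_append_right _ _)

end ReachNet
end

section

/-!
# Routing in the network
-/

set_option autoImplicit false

open Finset

namespace ReachNet

/-- The choice of the wires. -/
theorem choose_wires {m t N K : ℕ} {h : ℕ → Finset (Fin K)} {hub : ℕ → GP m → Fin K}
    (hinj : ∀ i < N, Function.Injective (hub i)) (hmem : ∀ i < N, ∀ w, hub i w ∈ h i)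
    (hr : ∀ i < N, (h i).card = 2 ^ m) (hS : Sparse (2 ^ m) t N h) (X : ℕ → Finset (GP m)) :
    ∀ k : ℕ, ∀ F : Finset ℕ, F.card = k → F ⊆ range N → F.card ≤ t →
      (∀ i ∈ F, ∀ j ∈ F, i ≠ j → (X i).card ≤ m ∨ (X j).card ≤ m) →
      ∃ M : ℕ → List (GP m × GP m), (∀ i, (M i).Sublist (gad m)) ∧
        ∀ i ∈ F, ∀ j ∈ F, i ≠ j → ∀ w w', move (M i) w ∈ X i → move (M j) w' ∈ X j →
          hub i w ≠ hub j w' := by
  intro k
  induction k with
  | zero =>
    intro F hF _ _ _
    rw [card_eq_zero] at hF
    subst hF
    exact ⟨fun _ => [], fun _ => List.nil_sublist _, fun i hi => absurd hi (notMem_empty i)⟩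
  | succ k ih =>
    intro F hk hF ht hbig
    by_cases hk0 : k = 0
    · subst hk0
      rw [zero_add, card_eq_one] at hk
      obtain ⟨a, rfl⟩ := hk
      refine ⟨fun _ => [], fun _ => List.nil_sublist _, ?_⟩
      intro i hi j hj hij
      rw [mem_singleton] at hi hj
      exact absurd (hi.trans hj.symm) hij
    · obtain ⟨g, hgF, hg⟩ : ∃ g ∈ F, ∀ i ∈ F, i ≠ g → (X i).card ≤ m := by
        by_cases hex : ∃ g ∈ F, ¬ (X g).card ≤ m
        · obtain ⟨g, hgF, hg⟩ := hex
          refine ⟨g, hgF, fun i hi hig => ?_⟩
          rcases hbig i hi g hgF hig with h1 | h1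
          · exact h1
          · exact absurd h1 hg
        · push Not at hex
          obtain ⟨g, hg⟩ : F.Nonempty := card_pos.1 (by omega)
          exact ⟨g, hg, fun i hi _ => hex i hi⟩
      obtain ⟨i, hiF, hig, hi1⟩ := peel hr (Nat.one_le_two_pow) hS hF (by omega) ht hgF
      have hce : (F.erase i).card = k := by
        rw [card_erase_of_mem hiF, hk]
        rfl
      obtain ⟨M, hM, hm⟩ := ih (F.erase i) hce ((erase_subset _ _).trans hF) (by omega)
        (fun a ha b hb hab => hbig a (mem_of_mem_erase ha) b (mem_of_mem_erase hb) hab)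
      obtain ⟨Mi, hMi, hav⟩ : ∃ Mi : List (GP m × GP m), Mi.Sublist (gad m) ∧
          ∀ w, hub i w ∈ (F.erase i).biUnion h → move Mi w ∉ X i := by
        by_cases hex : ∃ w, hub i w ∈ (F.erase i).biUnion h
        · obtain ⟨w0, hw0⟩ := hex
          obtain ⟨Mi, h1, h2⟩ := gad_avoid (X i) (hg i hiF hig) w0
          refine ⟨Mi, h1, fun w hw => ?_⟩
          have hiN : i < N := mem_range.1 (hF hiF)
          have : hub i w = hub i w0 := by
            rw [card_le_one] at hi1
            exact hi1 _ (mem_inter.2 ⟨hmem i hiN w, hw⟩) _ (mem_inter.2 ⟨hmem i hiN w0, hw0⟩)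
          rw [hinj i hiN this]
          exact h2
        · push Not at hex
          exact ⟨[], List.nil_sublist _, fun w hw => absurd hw (hex w)⟩
      refine ⟨Function.update M i Mi, ?_, ?_⟩
      · intro j
        by_cases hji : j = i
        · subst hji
          rw [Function.update_self]
          exact hMi
        · rw [Function.update_of_ne hji]
          exact hM j
      · intro a ha b hb hab w w' hw hw'
        have hin : ∀ b ∈ F, b ≠ i → ∀ w', hub b w' ∈ (F.erase i).biUnion h :=
          fun b hb hbi w' => mem_biUnion.2 ⟨b, mem_erase.2 ⟨hbi, hb⟩,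
            hmem b (mem_range.1 (hF hb)) w'⟩
        by_cases hai : a = i
        · subst hai
          rw [Function.update_self] at hw
          intro heq
          refine hav w ?_ hw
          rw [heq]
          exact hin b hb hab.symm w'
        · by_cases hbi : b = i
          · subst hbi
            rw [Function.update_self] at hw'
            intro heq
            refine hav w' ?_ hw'
            rw [← heq]
            exact hin a ha hab w
          · rw [Function.update_of_ne hai] at hw
            rw [Function.update_of_ne hbi] at hw'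
            exact hm a (mem_erase.2 ⟨hai, ha⟩) b (mem_erase.2 ⟨hbi, hb⟩) hab w w' hw hw'

/-- Positions of the network. -/
abbrev Pos (c N m : ℕ) : Type := Fin c ⊕ (Fin N × GP m)

section

variable {c N m K : ℕ}

/-- The list of a block. -/
noncomputable def blk (hub : Fin N × GP m → Fin K) (z : Fin c) (b : Fin K) :
    List (Pos c N m × Pos c N m) :=
  ((univ.filter (fun u => hub u = b)).toList).map (fun u => (Sum.inl z, Sum.inr u))

/-- Phase 1. -/
noncomputable def phase1 (G : List (Fin c × Fin c)) (hub : Fin N × GP m → Fin K) (z : Fin c)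
    (bs : List (Fin K)) : List (Pos c N m × Pos c N m) :=
  bs.flatMap (fun b => G.map (Prod.map Sum.inl Sum.inl) ++ blk hub z b)

/-- Universality of `G`. -/
def Universal (G : List (Fin c × Fin c)) : Prop :=
  ∀ π : Equiv.Perm (Fin c), ∃ M : List (Fin c × Fin c), M.Sublist G ∧ ∀ x, move M x = π x

/-- realising a permutation of the special positions -/
theorem Universal.reach {G : List (Fin c × Fin c)} (hG : Universal G) {ι : Type}
    (π : Equiv.Perm (Fin c)) (f : ι → Pos c N m) :
    Reach (G.map (Prod.map Sum.inl Sum.inl)) f (fun j => Sum.map π id (f j)) := by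
  obtain ⟨M, hM, hm⟩ := hG π
  refine ⟨M.map (Prod.map Sum.inl Sum.inl), hM.map _, fun j => ?_⟩
  show move _ (f j) = Sum.map π id (f j)
  rcases hf : f j with x | u
  · rw [move_map Sum.inl_injective, hm]
    rfl
  · rw [move_of_notMem]
    · rfl
    · intro T hT
      obtain ⟨T', -, rfl⟩ := List.mem_map.1 hT
      exact ⟨Sum.inl_ne_inr, Sum.inl_ne_inr⟩

theorem phase1_reach {t : ℕ} {G : List (Fin c × Fin c)} (hG : Universal G)
    (hub : Fin N × GP m → Fin K) (z : Fin c) (a : Fin t → Option (Fin N × GP m))
    (ha : ∀ j j' u u', j ≠ j' → a j = some u → a j' = some u' → hub u ≠ hub u') :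
    ∀ bs : List (Fin K), bs.Nodup → ∀ f : Fin t → Pos c N m, Function.Injective f →
      (∀ j, a j = none → ∃ x, f j = Sum.inl x) →
      (∀ j u, a j = some u → hub u ∈ bs → ∃ x, f j = Sum.inl x) →
      (∀ j u, a j = some u → hub u ∉ bs → f j = Sum.inr u) →
      ∃ g : Fin t → Pos c N m, Reach (phase1 G hub z bs) f g ∧
        (∀ j u, a j = some u → g j = Sum.inr u) ∧ (∀ j, a j = none → ∃ x, g j = Sum.inl x) := by
  intro bs
  induction bs with
  | nil =>
    intro _ f _ h1 _ h3
    exact ⟨f, Reach.refl _ _, fun j u hj => h3 j u hj List.not_mem_nil, h1⟩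
  | cons b bs ih =>
    intro hnd f hf h1 h2 h3
    rw [List.nodup_cons] at hnd
    have hph : phase1 G hub z (b :: bs) =
        (G.map (Prod.map Sum.inl Sum.inl) ++ blk hub z b) ++ phase1 G hub z bs := by
      unfold phase1
      rw [List.flatMap_cons]
    by_cases hex : ∃ j u, a j = some u ∧ hub u = b
    · obtain ⟨j0, u0, hj0, hu0⟩ := hex
      obtain ⟨x0, hx0⟩ := h2 j0 u0 hj0 (by rw [hu0]; exact List.mem_cons_self)
      set f1 : Fin t → Pos c N m := fun j => Sum.map (Equiv.swap x0 z) id (f j) with hf1
      have r1 : Reach (G.map (Prod.map Sum.inl Sum.inl)) f f1 := hG.reach _ f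
      have hf1inj : Function.Injective f1 := r1.injective hf
      have hf1j0 : f1 j0 = Sum.inl z := by
        show Sum.map (Equiv.swap x0 z) id (f j0) = _
        rw [hx0, Sum.map_inl, Equiv.swap_apply_left]
      set f2 : Fin t → Pos c N m := fun j => Equiv.swap (Sum.inl z) (Sum.inr u0) (f1 j) with hf2
      have r2 : Reach (blk hub z b) f1 f2 := by
        refine ⟨[(Sum.inl z, Sum.inr u0)], ?_, fun j => rfl⟩
        rw [List.singleton_sublist]
        unfold blk
        rw [List.mem_map]
        refine ⟨u0, ?_, rfl⟩
        rw [mem_toList, mem_filter]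
        exact ⟨mem_univ _, hu0⟩
      have hf2j0 : f2 j0 = Sum.inr u0 := by
        show Equiv.swap _ _ (f1 j0) = _
        rw [hf1j0, Equiv.swap_apply_left]
      have hother : ∀ j, j ≠ j0 → f2 j = f1 j := by
        intro j hj
        show Equiv.swap _ _ (f1 j) = _
        apply Equiv.swap_apply_of_ne_of_ne
        · rw [← hf1j0]
          exact fun h => hj (hf1inj h)
        · intro h
          have hfj : f j = Sum.inr u0 := by
            rcases hfj : f j with x | u
            · exfalso
              have : f1 j = Sum.inl (Equiv.swap x0 z x) := by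
                show Sum.map _ _ (f j) = _
                rw [hfj, Sum.map_inl]
              rw [this] at h
              exact Sum.inl_ne_inr h
            · have : f1 j = Sum.inr u := by
                show Sum.map _ _ (f j) = _
                rw [hfj, Sum.map_inr]
                rfl
              rw [this] at h
              exact h
          rcases haj : a j with _ | u
          · obtain ⟨x, hx⟩ := h1 j haj
            rw [hfj] at hx
            exact Sum.inr_ne_inl hx
          · by_cases hub' : hub u ∈ b :: bs
            · obtain ⟨x, hx⟩ := h2 j u haj hub'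
              rw [hfj] at hx
              exact Sum.inr_ne_inl hx
            · have := h3 j u haj hub'
              rw [hfj] at this
              have huu : u0 = u := Sum.inr_injective this
              apply hub'
              rw [← huu, hu0]
              exact List.mem_cons_self
      have hinl : ∀ j x, j ≠ j0 → f j = Sum.inl x → ∃ y, f2 j = Sum.inl y := by
        intro j x hj hx
        rw [hother j hj]
        refine ⟨Equiv.swap x0 z x, ?_⟩
        show Sum.map _ _ (f j) = _
        rw [hx, Sum.map_inl]
      obtain ⟨g, hg1, hg2, hg3⟩ := ih hnd.2 f2 (r2.injective hf1inj)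
        (by
          intro j hj
          have hjj : j ≠ j0 := by
            rintro rfl
            rw [hj0] at hj
            exact absurd hj (by simp)
          obtain ⟨x, hx⟩ := h1 j hj
          exact hinl j x hjj hx)
        (by
          intro j u hj hub'
          have hjj : j ≠ j0 := by
            rintro rfl
            rw [hj0] at hj
            have := Option.some.inj hj
            rw [← this, hu0] at hub'
            exact hnd.1 hub'
          obtain ⟨x, hx⟩ := h2 j u hj (List.mem_cons_of_mem _ hub')
          exact hinl j x hjj hx)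
        (by
          intro j u hj hub'
          by_cases hjj : j = j0
          · subst hjj
            rw [hj0] at hj
            rw [hf2j0, Option.some.inj hj]
          · have hne : hub u ≠ b := by
              rw [← hu0]
              exact ha j j0 u u0 hjj hj hj0
            have hfj := h3 j u hj (by
              rw [List.mem_cons]
              rintro (h | h)
              · exact hne h
              · exact hub' h)
            rw [hother j hjj]
            show Sum.map _ _ (f j) = _
            rw [hfj, Sum.map_inr]
            rfl)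
      refine ⟨g, ?_, hg2, hg3⟩
      rw [hph]
      exact (r1.trans r2).trans hg1
    · push Not at hex
      obtain ⟨g, hg1, hg2, hg3⟩ := ih hnd.2 f hf h1
        (fun j u hj hub' => h2 j u hj (List.mem_cons_of_mem _ hub'))
        (fun j u hj hub' => h3 j u hj (by
          rw [List.mem_cons]
          rintro (h | h)
          · exact hex j u hj h
          · exact hub' h))
      refine ⟨g, ?_, hg2, hg3⟩
      rw [hph]
      exact (Reach.refl _ _).trans hg1

/-- Phase 3: the gadgets of the groups. -/
def phase3 (M : Fin N → List (GP m × GP m)) (is : List (Fin N)) :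
    List (Pos c N m × Pos c N m) :=
  is.flatMap (fun i => (M i).map (Prod.map (fun w => Sum.inr (i, w)) (fun w => Sum.inr (i, w))))

theorem phase3_sublist {M M' : Fin N → List (GP m × GP m)} (h : ∀ i, (M i).Sublist (M' i))
    (is : List (Fin N)) : (phase3 (c := c) M is).Sublist (phase3 M' is) := by
  induction is with
  | nil => exact List.Sublist.refl _
  | cons i is ih =>
    unfold phase3
    rw [List.flatMap_cons, List.flatMap_cons]
    exact ((h i).map _).append ih

theorem phase3_inl (M : Fin N → List (GP m × GP m)) (is : List (Fin N)) (x : Fin c) :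
    move (phase3 M is) (Sum.inl x) = Sum.inl x := by
  apply move_of_notMem
  intro T hT
  unfold phase3 at hT
  rw [List.mem_flatMap] at hT
  obtain ⟨i, -, hT⟩ := hT
  obtain ⟨T', -, rfl⟩ := List.mem_map.1 hT
  exact ⟨Sum.inr_ne_inl, Sum.inr_ne_inl⟩

theorem phase3_inr_notMem (M : Fin N → List (GP m × GP m)) (is : List (Fin N)) (i : Fin N)
    (w : GP m) (hi : i ∉ is) :
    move (phase3 (c := c) M is) (Sum.inr (i, w)) = Sum.inr (i, w) := by
  apply move_of_notMem
  intro T hT
  unfold phase3 at hT
  rw [List.mem_flatMap] at hT
  obtain ⟨i', hi', hT⟩ := hT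
  obtain ⟨T', -, rfl⟩ := List.mem_map.1 hT
  have hne : i' ≠ i := fun h => hi (h ▸ hi')
  constructor
  · intro h
    exact hne (congrArg Prod.fst (Sum.inr_injective h))
  · intro h
    exact hne (congrArg Prod.fst (Sum.inr_injective h))

theorem phase3_inr (M : Fin N → List (GP m × GP m)) (is : List (Fin N)) (hnd : is.Nodup)
    (i : Fin N) (w : GP m) (hi : i ∈ is) :
    move (phase3 (c := c) M is) (Sum.inr (i, w)) = Sum.inr (i, move (M i) w) := by
  induction is with
  | nil => exact absurd hi List.not_mem_nil
  | cons i' is ih =>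
    rw [List.nodup_cons] at hnd
    have hsplit : phase3 (c := c) M (i' :: is) =
        (M i').map (Prod.map (fun w => Sum.inr (i', w)) (fun w => Sum.inr (i', w))) ++
          phase3 M is := by
      unfold phase3
      rw [List.flatMap_cons]
    rw [hsplit, move_append]
    by_cases hii : i = i'
    · subst hii
      have hinj : Function.Injective (fun w : GP m => (Sum.inr (i, w) : Pos c N m)) := by
        intro a b hab
        exact congrArg Prod.snd (Sum.inr_injective hab)
      have h1 := move_map hinj (M i) w
      rw [h1]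
      exact phase3_inr_notMem M is i _ hnd.1
    · have h1 : move ((M i').map (Prod.map (fun w => (Sum.inr (i', w) : Pos c N m))
          (fun w => Sum.inr (i', w)))) (Sum.inr (i, w)) = Sum.inr (i, w) := by
        apply move_of_notMem
        intro T hT
        obtain ⟨T', -, rfl⟩ := List.mem_map.1 hT
        constructor
        · intro h
          exact hii (congrArg Prod.fst (Sum.inr_injective h)).symm
        · intro h
          exact hii (congrArg Prod.fst (Sum.inr_injective h)).symm
      rw [h1]
      rcases List.mem_cons.1 hi with h | h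
      · exact absurd h hii
      · exact ih hnd.2 h

/-- The whole network. -/
noncomputable def net (G : List (Fin c × Fin c)) (hub : Fin N × GP m → Fin K) (z : Fin c) :
    List (Pos c N m × Pos c N m) :=
  phase1 G hub z (List.finRange K) ++ G.map (Prod.map Sum.inl Sum.inl) ++
    phase3 (fun _ => gad m) (List.finRange N)

/-- extension of an injective partial map to a permutation -/
theorem exists_perm_extend {t : ℕ} (p : Fin t → Prop) (f g : Fin t → Fin c)
    (hf : ∀ i j, p i → p j → f i = f j → i = j) (hg : ∀ i j, p i → p j → g i = g j → i = j) :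
    ∃ π : Equiv.Perm (Fin c), ∀ i, p i → π (f i) = g i := by
  classical
  let P : Fin c → Prop := fun x => ∃ i, p i ∧ f i = x
  let Q : Fin c → Prop := fun x => ∃ i, p i ∧ g i = x
  have hP : ∀ x : {x // P x}, ∃ i, p i ∧ f i = x.1 := fun x => x.2
  have hQ : ∀ x : {x // Q x}, ∃ i, p i ∧ g i = x.1 := fun x => x.2
  choose φ hφ1 hφ2 using hP
  choose ψ hψ1 hψ2 using hQ
  let e : {x // P x} ≃ {x // Q x} :=
    { toFun := fun x => ⟨g (φ x), φ x, hφ1 x, rfl⟩
      invFun := fun x => ⟨f (ψ x), ψ x, hψ1 x, rfl⟩
      left_inv := by
        intro x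
        apply Subtype.ext
        have h1 : ψ ⟨g (φ x), φ x, hφ1 x, rfl⟩ = φ x :=
          hg _ _ (hψ1 _) (hφ1 x) (hψ2 _)
        show f (ψ ⟨g (φ x), φ x, hφ1 x, rfl⟩) = x.1
        rw [h1, hφ2]
      right_inv := by
        intro x
        apply Subtype.ext
        have h1 : φ ⟨f (ψ x), ψ x, hψ1 x, rfl⟩ = ψ x :=
          hf _ _ (hφ1 _) (hψ1 x) (hφ2 _)
        show g (φ ⟨f (ψ x), ψ x, hψ1 x, rfl⟩) = x.1
        rw [h1, hψ2] }
  refine ⟨e.extendSubtype, fun i hi => ?_⟩
  have hPi : P (f i) := ⟨i, hi, rfl⟩
  rw [Equiv.extendSubtype_apply_of_mem e (f i) hPi]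
  show g (φ ⟨f i, hPi⟩) = g i
  have h1 : φ ⟨f i, hPi⟩ = i := hf _ _ (hφ1 _) hi (hφ2 _)
  rw [h1]

/-- **Routing**: every injective target is reached. -/
theorem net_reach {t : ℕ} {G : List (Fin c × Fin c)} (hG : Universal G)
    (hub : Fin N × GP m → Fin K) (z : Fin c) (htm : t ≤ 2 * m + 1)
    (hw : ∀ X : ℕ → Finset (GP m), (∀ i j, i ≠ j → (X i).card ≤ m ∨ (X j).card ≤ m) →
      ∀ F : Finset (Fin N), F.card ≤ t →
      ∃ M : Fin N → List (GP m × GP m), (∀ i, (M i).Sublist (gad m)) ∧
        ∀ i ∈ F, ∀ j ∈ F, ∀ w w', move (M i) w ∈ X i → move (M j) w' ∈ X j →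
          hub (i, w) = hub (j, w') → i = j ∧ w = w')
    (f : Fin t → Fin c) (hf : Function.Injective f)
    (x : Fin t → Pos c N m) (hx : Function.Injective x) :
    Reach (net G hub z) (fun j => Sum.inl (f j)) x := by
  classical
  -- the targets in the groups
  let X : ℕ → Finset (GP m) := fun i => univ.filter (fun p => ∃ (hi : i < N) (j : Fin t),
    x j = Sum.inr (⟨i, hi⟩, p))
  have hXsum : ∀ i j, i ≠ j → (X i).card + (X j).card ≤ t := by
    intro i j hij
    let J : ℕ → Finset (Fin t) := fun i => univ.filter (fun j => ∃ (hi : i < N) (p : GP m),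
      x j = Sum.inr (⟨i, hi⟩, p))
    have hle : ∀ i, (X i).card ≤ (J i).card := by
      intro i
      let q : Fin t → GP m := fun j =>
        match x j with
        | Sum.inl _ => gout m
        | Sum.inr u => u.2
      have hsub : X i ⊆ (J i).image q := by
        intro p hp
        obtain ⟨-, hi, j, hj⟩ := mem_filter.1 hp
        refine mem_image.2 ⟨j, mem_filter.2 ⟨mem_univ _, hi, p, hj⟩, ?_⟩
        show (match x j with | Sum.inl _ => gout m | Sum.inr u => u.2) = p
        rw [hj]
      exact (card_le_card hsub).trans card_image_le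
    have hdis : Disjoint (J i) (J j) := by
      rw [disjoint_left]
      intro k hk hk'
      obtain ⟨-, hi, p, h1⟩ := mem_filter.1 hk
      obtain ⟨-, hj, q, h2⟩ := mem_filter.1 hk'
      rw [h1] at h2
      have := congrArg (fun u : Fin N × GP m => u.1.val) (Sum.inr_injective h2)
      exact hij this
    calc (X i).card + (X j).card ≤ (J i).card + (J j).card := add_le_add (hle i) (hle j)
      _ = (J i ∪ J j).card := (card_union_of_disjoint hdis).symm
      _ ≤ (univ : Finset (Fin t)).card := card_le_card (subset_univ _)
      _ = t := by rw [card_univ, Fintype.card_fin]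
  let F : Finset (Fin N) := (univ : Finset (Fin t)).biUnion (fun j =>
    match x j with
    | Sum.inl _ => ∅
    | Sum.inr u => {u.1})
  have hFc : F.card ≤ t := by
    refine (card_biUnion_le_card_mul _ _ 1 ?_).trans ?_
    · intro j _
      rcases x j with y | u
      · simp
      · simp
    · rw [mul_one, card_univ, Fintype.card_fin]
  have hFmem : ∀ j u, x j = Sum.inr u → u.1 ∈ F := by
    intro j u hj
    refine mem_biUnion.2 ⟨j, mem_univ _, ?_⟩
    rw [hj]
    exact mem_singleton_self _
  have hXmem : ∀ j u, x j = Sum.inr u → u.2 ∈ X u.1 := by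
    intro j u hj
    exact mem_filter.2 ⟨mem_univ _, u.1.2, j, hj⟩
  obtain ⟨M, hM, hm⟩ := hw X (fun i j hij => by have := hXsum i j hij; omega) F hFc
  -- the wires
  have hsurj : ∀ i : Fin N, ∀ p : GP m, ∃ w, move (M i) w = p := fun i p =>
    (Finite.injective_iff_surjective.1 (move_injective (M i))) p
  choose wi hwi using hsurj
  let a : Fin t → Option (Fin N × GP m) := fun j =>
    match x j with
    | Sum.inl _ => none
    | Sum.inr u => some (u.1, wi u.1 u.2)
  have ha_inl : ∀ j y, x j = Sum.inl y → a j = none := by
    intro j y hj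
    show (match x j with | Sum.inl _ => none | Sum.inr u => some (u.1, wi u.1 u.2)) = none
    rw [hj]
  have ha_inr : ∀ j u, x j = Sum.inr u → a j = some (u.1, wi u.1 u.2) := by
    intro j u hj
    show (match x j with | Sum.inl _ => none | Sum.inr u => some (u.1, wi u.1 u.2)) = _
    rw [hj]
  have ha : ∀ j j' u u', j ≠ j' → a j = some u → a j' = some u' → hub u ≠ hub u' := by
    intro j j' u u' hjj hj hj' heq
    rcases hxj : x j with y | v
    · rw [ha_inl j y hxj] at hj
      exact absurd hj (by simp)
    · rcases hxj' : x j' with y' | v'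
      · rw [ha_inl j' y' hxj'] at hj'
        exact absurd hj' (by simp)
      · rw [ha_inr j v hxj] at hj
        rw [ha_inr j' v' hxj'] at hj'
        have e1 := Option.some.inj hj
        have e2 := Option.some.inj hj'
        rw [← e1, ← e2] at heq
        have k1 : move (M v.1) (wi v.1 v.2) ∈ X v.1 := by
          rw [hwi]; exact hXmem j v hxj
        have k2 : move (M v'.1) (wi v'.1 v'.2) ∈ X v'.1 := by
          rw [hwi]; exact hXmem j' v' hxj'
        obtain ⟨h1, h2⟩ := hm v.1 (hFmem j v hxj) v'.1 (hFmem j' v' hxj') _ _ k1 k2 heq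
        apply hjj
        apply hx
        rw [hxj, hxj']
        have h3 : v.2 = v'.2 := by
          rw [← hwi v.1 v.2, ← hwi v'.1 v'.2, ← h2, ← h1]
        exact congrArg Sum.inr (Prod.ext h1 h3)
  -- phase 1
  obtain ⟨g, hg1, hg2, hg3⟩ := phase1_reach hG hub z a ha (List.finRange K)
    (List.nodup_finRange K) (fun j => Sum.inl (f j))
    (fun i j hij => hf (Sum.inl_injective hij))
    (fun j _ => ⟨f j, rfl⟩) (fun j u _ _ => ⟨f j, rfl⟩)
    (fun j u _ hn => absurd (List.mem_finRange _) hn)
  have hginj : Function.Injective g :=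
    hg1.injective (fun i j hij => hf (Sum.inl_injective hij))
  -- phase 2
  have hz : ∀ j, ∃ y : Fin c, ∀ y', g j = Sum.inl y' → y = y' := by
    intro j
    rcases hgj : g j with y | u
    · exact ⟨y, fun y' hy' => Sum.inl_injective hy'⟩
    · exact ⟨z, fun y' hy' => absurd hy' Sum.inr_ne_inl⟩
  choose gi hgi using hz
  have hz' : ∀ j, ∃ y : Fin c, ∀ y', x j = Sum.inl y' → y = y' := by
    intro j
    rcases hxj : x j with y | u
    · exact ⟨y, fun y' hy' => Sum.inl_injective hy'⟩
    · exact ⟨z, fun y' hy' => absurd hy' Sum.inr_ne_inl⟩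
  choose xi hxi using hz'
  have hnone : ∀ j, a j = none → g j = Sum.inl (gi j) ∧ x j = Sum.inl (xi j) := by
    intro j hj
    obtain ⟨y, hy⟩ := hg3 j hj
    refine ⟨by rw [hy, hgi j y hy], ?_⟩
    rcases hxj : x j with y' | u
    · rw [hxi j y' hxj]
    · rw [ha_inr j u hxj] at hj
      exact absurd hj (by simp)
  obtain ⟨π, hπ⟩ := exists_perm_extend (fun j => a j = none) gi xi
    (by
      intro i j hi hj hij
      apply hginj
      rw [(hnone i hi).1, (hnone j hj).1, hij])
    (by
      intro i j hi hj hij
      apply hx
      rw [(hnone i hi).2, (hnone j hj).2, hij])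
  have r2 := hG.reach π g
  -- phase 3
  have r3 : Reach (phase3 (fun _ => gad m) (List.finRange N))
      (fun j => Sum.map π id (g j)) x := by
    refine ⟨phase3 M (List.finRange N), phase3_sublist hM _, fun j => ?_⟩
    rcases hxj : x j with y | u
    · have hj := ha_inl j y hxj
      have h1 := (hnone j hj).1
      have h2 := (hnone j hj).2
      show move _ (Sum.map π id (g j)) = _
      rw [h1, Sum.map_inl, phase3_inl, hπ j hj, ← h2, hxj]
    · have hj := ha_inr j u hxj
      show move _ (Sum.map π id (g j)) = _
      rw [hg2 j _ hj, Sum.map_inr]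
      show move _ (Sum.inr (u.1, wi u.1 u.2)) = _
      rw [phase3_inr M _ (List.nodup_finRange N) _ _ (List.mem_finRange _), hwi]
  exact (hg1.trans r2).trans r3

end

end ReachNet
end
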