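import Pool.Agent.Lib.MP_720f8f_co.Defs
import Pool.Agent.Lib.MP_720f8f_co.Route

section

/-!
# A universal word of star transpositions, of quadratic length
-/

set_option autoImplicit false

open Finset

namespace ReachNet

/-- `(0, 1), (0, 2), ..., (0, c)` -/
def star0 (c : ℕ) : List (Fin (c + 1) × Fin (c + 1)) :=
  (List.finRange c).map (fun i => (0, i.succ))

/-- A universal word of star transpositions. -/
def sw : (c : ℕ) → List (Fin (c + 1) × Fin (c + 1))
  | 0 => []
  | c + 1 => star0 (c + 1) ++ (sw c).map (Prod.map Fin.castSucc Fin.castSucc)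

theorem length_sw (c : ℕ) : (sw c).length ≤ (c + 1) * (c + 1) := by
  induction c with
  | zero => exact Nat.zero_le _
  | succ c ih =>
    unfold sw star0
    rw [List.length_append, List.length_map, List.length_map, List.length_finRange]
    have : (c + 1 + 1) * (c + 1 + 1) = (c + 1) * (c + 1) + 2 * (c + 1) + 1 := by ring
    omega

theorem sw_star (c : ℕ) : ∀ T ∈ sw c, T.1 = 0 ∧ T.2 ≠ 0 := by
  induction c with
  | zero => exact fun T hT => absurd hT List.not_mem_nil
  | succ c ih =>
    intro T hT
    unfold sw star0 at hT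
    rw [List.mem_append, List.mem_map, List.mem_map] at hT
    rcases hT with ⟨i, -, rfl⟩ | ⟨T', hT', rfl⟩
    · exact ⟨rfl, Fin.succ_ne_zero i⟩
    · obtain ⟨h1, h2⟩ := ih T' hT'
      constructor
      · show Fin.castSucc T'.1 = 0
        rw [h1]
        rfl
      · show Fin.castSucc T'.2 ≠ 0
        intro h
        apply h2
        apply Fin.castSucc_injective
        rw [h]
        rfl

theorem exists_to_last (c : ℕ) (p : Fin (c + 2)) :
    ∃ M : List (Fin (c + 2) × Fin (c + 2)), M.Sublist (star0 (c + 1)) ∧
      move M p = Fin.last (c + 1) := by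
  have hfr : star0 (c + 1) = ((List.finRange c).map Fin.castSucc).map (fun i => (0, i.succ)) ++
      [(0, Fin.last (c + 1))] := by
    unfold star0
    rw [List.finRange_succ_last, List.map_append]
    rfl
  by_cases h1 : p = Fin.last (c + 1)
  · exact ⟨[], List.nil_sublist _, h1⟩
  · by_cases h2 : p = 0
    · refine ⟨[(0, Fin.last (c + 1))], ?_, ?_⟩
      · rw [hfr]
        exact List.sublist_append_right _ _
      · rw [move_cons, move_nil, h2]
        exact Equiv.swap_apply_left _ _
    · refine ⟨[(0, p)] ++ [(0, Fin.last (c + 1))], ?_, ?_⟩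
      · rw [hfr]
        refine List.Sublist.append ?_ (List.Sublist.refl _)
        rw [List.singleton_sublist, List.mem_map]
        obtain ⟨q, hq⟩ := Fin.exists_succ_eq.2 h2
        have hql : q ≠ Fin.last c := by
          rintro rfl
          exact h1 (hq.symm.trans (Fin.succ_last c))
        obtain ⟨r, hr⟩ := Fin.exists_castSucc_eq.2 hql
        refine ⟨q, ?_, by rw [hq]⟩
        rw [List.mem_map]
        exact ⟨r, List.mem_finRange r, hr⟩
      · rw [List.singleton_append, move_cons, move_cons, move_nil]
        show Equiv.swap _ _ (Equiv.swap 0 p p) = _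
        rw [Equiv.swap_apply_right, Equiv.swap_apply_left]

theorem sw_universal (c : ℕ) : ∀ π : Equiv.Perm (Fin (c + 1)),
    ∃ M : List (Fin (c + 1) × Fin (c + 1)), M.Sublist (sw c) ∧ ∀ x, move M x = π x := by
  induction c with
  | zero =>
    intro π
    refine ⟨[], List.nil_sublist _, fun x => ?_⟩
    exact @Subsingleton.elim (Fin 1) _ _ _
  | succ c ih =>
    intro π
    obtain ⟨M1, hM1, hm1⟩ := exists_to_last c (π.symm (Fin.last (c + 1)))
    -- the remaining permutation
    have hbij : Function.Bijective (move M1) :=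
      ⟨move_injective M1, Finite.injective_iff_surjective.1 (move_injective M1)⟩
    let e1 : Equiv.Perm (Fin (c + 2)) := Equiv.ofBijective _ hbij
    have he1 : ∀ x, e1 x = move M1 x := fun x => rfl
    let π' : Equiv.Perm (Fin (c + 2)) := e1.symm.trans π
    have hπ' : ∀ x, π' (e1 x) = π x := by
      intro x
      show π (e1.symm (e1 x)) = π x
      rw [Equiv.symm_apply_apply]
    have hlast : π' (Fin.last (c + 1)) = Fin.last (c + 1) := by
      rw [← hm1, ← he1, hπ', Equiv.apply_symm_apply, he1, hm1]
    have hne : ∀ i : Fin (c + 1), π' (Fin.castSucc i) ≠ Fin.last (c + 1) := by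
      intro i h
      rw [← hlast] at h
      exact (Fin.castSucc_lt_last i).ne (π'.injective h)
    let f : Fin (c + 1) → Fin (c + 1) := fun i => (π' (Fin.castSucc i)).castPred (hne i)
    have hf : ∀ i, Fin.castSucc (f i) = π' (Fin.castSucc i) := fun i => Fin.castSucc_castPred _ _
    have hfinj : Function.Injective f := by
      intro i j hij
      have := congrArg Fin.castSucc hij
      rw [hf, hf] at this
      exact Fin.castSucc_injective _ (π'.injective this)
    obtain ⟨M2, hM2, hm2⟩ := ih (Equiv.ofBijective f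
      ⟨hfinj, Finite.injective_iff_surjective.1 hfinj⟩)
    refine ⟨M1 ++ M2.map (Prod.map Fin.castSucc Fin.castSucc), ?_, ?_⟩
    · unfold sw
      exact hM1.append (hM2.map _)
    · intro x
      rw [move_append, ← hπ' x, he1]
      have key : ∀ y, move (M2.map (Prod.map Fin.castSucc Fin.castSucc)) y = π' y := by
        intro y
        by_cases hy : y = Fin.last (c + 1)
        · rw [hy, hlast]
          apply move_of_notMem
          intro T hT
          obtain ⟨T', -, rfl⟩ := List.mem_map.1 hT
          exact ⟨(Fin.castSucc_lt_last _).ne, (Fin.castSucc_lt_last _).ne⟩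
        · obtain ⟨i, rfl⟩ := Fin.exists_castSucc_eq.2 hy
          rw [move_map (Fin.castSucc_injective _), hm2, Equiv.ofBijective_apply, hf]
      exact key _

end ReachNet
end

section

/-!
# Simulation of the star network, block by block, backwards in time
-/

set_option autoImplicit false

open Finset

namespace ReachNet

section

variable {α : Type} [DecidableEq α]

theorem move_reverse (M : List (α × α)) (x : α) : move M (move M.reverse x) = x := by
  induction M generalizing x with
  | nil => rfl
  | cons T L ih =>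
    rw [List.reverse_cons, move_append, move_cons, move_cons, move_nil]
    show move L (Equiv.swap T.1 T.2 (Equiv.swap T.1 T.2 (move L.reverse x))) = x
    rw [Equiv.swap_apply_self, ih]

end

/-- Positions: the core and the leaves. -/
abbrev SP (c : ℕ) (Λ : Type) : Type := Fin (c + 1) ⊕ Λ

/-- The store positions `1, ..., t`. -/
def st {t c : ℕ} (h : t ≤ c) (i : Fin t) : Fin (c + 1) := ⟨i.val + 1, by have := i.2; omega⟩

theorem st_inj {t c : ℕ} (h : t ≤ c) : Function.Injective (st h) := by
  intro i j hij
  have := congrArg Fin.val hij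
  apply Fin.ext
  simpa [st] using this

theorem st_ne {t c : ℕ} (h : t ≤ c) (i : Fin t) : st h i ≠ 0 := by
  intro h'
  have := congrArg Fin.val h'
  simp [st] at this

variable {V Λ : Type} [DecidableEq V] [DecidableEq Λ]

/-- The gadget before a block. -/
def gadS {t c : ℕ} (h : t ≤ c) (Λ : Type) : List (SP c Λ × SP c Λ) :=
  (List.finRange t).map (fun i => (Sum.inl 0, Sum.inl (st h i)))

/-- The touches of a block. -/
def tch (c : ℕ) (l : List Λ) : List (SP c Λ × SP c Λ) :=
  l.map (fun x => (Sum.inl 0, Sum.inr x))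

/-- A block. -/
def blkS {t c : ℕ} (h : t ≤ c) (tl : V → List Λ) (v : V) : List (SP c Λ × SP c Λ) :=
  gadS h Λ ++ tch c (tl v)

/-- The star network. -/
def netS {t c : ℕ} (h : t ≤ c) (tl : V → List Λ) (bs : List V) : List (SP c Λ × SP c Λ) :=
  (sw c).map (Prod.map Sum.inl Sum.inl) ++ bs.flatMap (blkS h tl) ++
    (sw c).map (Prod.map Sum.inl Sum.inl)

theorem sw_reach {c : ℕ} {ι : Type} (π : Equiv.Perm (Fin (c + 1))) (f : ι → SP c Λ) :
    Reach ((sw c).map (Prod.map Sum.inl Sum.inl)) f (fun j => Sum.map π id (f j)) := by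
  obtain ⟨M, hM, hm⟩ := sw_universal c π
  refine ⟨M.map (Prod.map Sum.inl Sum.inl), hM.map _, fun j => ?_⟩
  show move _ (f j) = Sum.map π id (f j)
  rcases hf : f j with x | u
  · rw [move_map Sum.inl_injective, hm]
    rfl
  · rw [move_of_notMem]
    · rfl
    · intro T hT
      obtain ⟨T', -, rfl⟩ := List.mem_map.1 hT
      exact ⟨Sum.inl_ne_inr, Sum.inl_ne_inr⟩

/-- The gadget brings one counter from the store to the centre. -/
theorem gadS_reach {t c : ℕ} (h : t ≤ c) (f2 : Fin t → SP c Λ) (hf2 : Function.Injective f2) :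
    ∃ f1 : Fin t → SP c Λ, Reach (gadS h Λ) f1 f2 ∧ Function.Injective f1 ∧
      ∀ j, f1 j = f2 j ∧ f2 j ≠ Sum.inl 0 ∨ ∃ i, f1 j = Sum.inl (st h i) := by
  by_cases hex : ∃ j0, f2 j0 = Sum.inl 0
  · obtain ⟨j0, hj0⟩ := hex
    obtain ⟨i, hi⟩ : ∃ i, ∀ j, f2 j ≠ Sum.inl (st h i) := by
      by_contra hcon
      push Not at hcon
      choose a ha using hcon
      have hinj : Function.Injective a := by
        intro i i' hii
        have h1 := ha i
        rw [hii, ha i'] at h1
        exact (st_inj h (Sum.inl_injective h1)).symm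
      obtain ⟨i, hi⟩ := Finite.injective_iff_surjective.1 hinj j0
      have := ha i
      rw [hi, hj0] at this
      exact st_ne h i (Sum.inl_injective this).symm
    refine ⟨fun j => Equiv.swap (Sum.inl 0) (Sum.inl (st h i)) (f2 j), ?_, ?_, ?_⟩
    · refine ⟨[(Sum.inl 0, Sum.inl (st h i))], ?_, fun j => ?_⟩
      · rw [List.singleton_sublist]
        unfold gadS
        rw [List.mem_map]
        exact ⟨i, List.mem_finRange i, rfl⟩
      · rw [move_cons, move_nil]
        exact Equiv.swap_apply_self _ _ _
    · exact (Equiv.injective _).comp hf2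
    · intro j
      by_cases hj : j = j0
      · right
        refine ⟨i, ?_⟩
        show Equiv.swap _ _ (f2 j) = _
        rw [hj, hj0, Equiv.swap_apply_left]
      · left
        have hne : f2 j ≠ Sum.inl 0 := fun h' => hj (hf2 (h'.trans hj0.symm))
        exact ⟨Equiv.swap_apply_of_ne_of_ne hne (hi j), hne⟩
  · push Not at hex
    exact ⟨f2, Reach.refl _ _, hf2, fun j => Or.inl ⟨rfl, hex j⟩⟩

/-- **The simulation.** -/
theorem sim {t c : ℕ} (h : t ≤ c) (lo up : Λ → V) (ty : V → ℕ) (tl : V → List Λ)
    (hty : ∀ p, lo p ≠ up p → ty (lo p) < ty (up p))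
    (htl : ∀ v, ∀ p ∈ tl v, up p = v ∨ lo p = v)
    (X : Λ → Prop) (V0 : V → Prop) (u : Λ → Prop)
    (hX : ∀ p, X p → V0 (lo p)) (hup : ∀ p, V0 (lo p) → V0 (up p))
    (hloc : ∀ v, V0 v → ∃ M : List (SP c Λ × SP c Λ), M.Sublist (tch c (tl v)) ∧
      ∀ p, (up p = v ∨ (lo p = v ∧ ¬ u p)) →
      ∀ q, ((up q = v ∧ lo q ≠ v ∧ V0 (lo q) ∧ u q) ∨ (lo q = v ∧ X q)) →
        move M (Sum.inr p) ≠ Sum.inr q) :
    ∀ bs : List V, bs.Nodup → bs.Pairwise (fun a b => ty b ≤ ty a) →
      (∀ w, w ∉ bs → ∀ v ∈ bs, ty v ≤ ty w) →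
      ∀ g : Fin t → SP c Λ, Function.Injective g →
      (∀ j, (∃ i, g j = Sum.inl (st h i)) ∨ ∃ p, X p ∧ g j = Sum.inr p) →
      ∃ f : Fin t → SP c Λ, Function.Injective f ∧
        (∀ j, (∃ i, f j = Sum.inl (st h i)) ∨ ∃ p, (up p ∉ bs ∧
          (lo p ∈ bs → V0 (lo p) ∧ u p) ∧ (lo p ∉ bs → X p)) ∧ f j = Sum.inr p) ∧
        Reach (bs.flatMap (blkS h tl)) f g := by
  intro bs
  induction bs with
  | nil =>
    intro _ _ _ g hg hgj
    refine ⟨g, hg, fun j => ?_, Reach.refl _ _⟩
    rcases hgj j with h1 | ⟨p, h1, h2⟩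
    · exact Or.inl h1
    · exact Or.inr ⟨p, ⟨List.not_mem_nil, fun h' => absurd h' List.not_mem_nil,
        fun _ => h1⟩, h2⟩
  | cons v bs ih =>
    intro hnd hpw hout g hg hgj
    rw [List.nodup_cons] at hnd
    rw [List.pairwise_cons] at hpw
    have hout' : ∀ w, w ∉ bs → ∀ v' ∈ bs, ty v' ≤ ty w := by
      intro w hw v' hv'
      by_cases hwv : w = v
      · rw [hwv]
        exact hpw.1 v' hv'
      · exact hout w (by
          rw [List.mem_cons]
          rintro (h' | h')
          · exact hwv h'
          · exact hw h') v' (List.mem_cons_of_mem _ hv')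
    obtain ⟨f3, hf3, hf3j, hr3⟩ := ih hnd.2 hpw.2 hout' g hg hgj
    -- the block
    obtain ⟨M, hM, hMv⟩ : ∃ M : List (SP c Λ × SP c Λ), M.Sublist (tch c (tl v)) ∧
        (V0 v → ∀ p, (up p = v ∨ (lo p = v ∧ ¬ u p)) →
        ∀ q, ((up q = v ∧ lo q ≠ v ∧ V0 (lo q) ∧ u q) ∨ (lo q = v ∧ X q)) →
          move M (Sum.inr p) ≠ Sum.inr q) := by
      by_cases hv : V0 v
      · obtain ⟨M, h1, h2⟩ := hloc v hv
        exact ⟨M, h1, fun _ => h2⟩
      · exact ⟨[], List.nil_sublist _, fun h' => absurd h' hv⟩
    have htouch : ∀ T ∈ M, ∃ p ∈ tl v, T = (Sum.inl 0, Sum.inr p) := by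
      intro T hT
      have := hM.subset hT
      unfold tch at this
      obtain ⟨p, hp, rfl⟩ := List.mem_map.1 this
      exact ⟨p, hp, rfl⟩
    have hcore : ∀ k : Fin (c + 1), k ≠ 0 → move M (Sum.inl k) = Sum.inl k := by
      intro k hk
      apply move_of_notMem
      intro T hT
      obtain ⟨p, -, rfl⟩ := htouch T hT
      exact ⟨fun h' => hk (Sum.inl_injective h').symm, Sum.inr_ne_inl⟩
    have hleaf : ∀ q, ¬ (up q = v ∨ lo q = v) → move M (Sum.inr q) = Sum.inr q := by
      intro q hq
      apply move_of_notMem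
      intro T hT
      obtain ⟨p, hp, rfl⟩ := htouch T hT
      refine ⟨Sum.inl_ne_inr, fun h' => hq ?_⟩
      rw [← Sum.inr_injective h']
      exact htl v p hp
    have hleaf2 : ∀ q, q ∉ tl v → move M (Sum.inr q) = Sum.inr q := by
      intro q hq
      apply move_of_notMem
      intro T hT
      obtain ⟨p, hp, rfl⟩ := htouch T hT
      refine ⟨Sum.inl_ne_inr, fun h' => hq ?_⟩
      rw [← Sum.inr_injective h']
      exact hp
    let f2 : Fin t → SP c Λ := fun j => move M.reverse (f3 j)
    have hf2 : Function.Injective f2 := (move_injective _).comp hf3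
    have hf2m : ∀ j, move M (f2 j) = f3 j := fun j => move_reverse M (f3 j)
    have r2 : Reach (tch c (tl v)) f2 f3 := ⟨M, hM, hf2m⟩
    -- where the counters are
    have hf2j : ∀ j, (∃ i, f2 j = Sum.inl (st h i)) ∨ f2 j = Sum.inl 0 ∨
        ∃ p, (up p ∉ v :: bs ∧ (lo p ∈ v :: bs → V0 (lo p) ∧ u p) ∧
          (lo p ∉ v :: bs → X p)) ∧ f2 j = Sum.inr p := by
      intro j
      rcases hf3j j with ⟨i, hi⟩ | ⟨q, ⟨hq1, hq2, hq3⟩, hq⟩
      · left
        refine ⟨i, move_injective M ?_⟩
        rw [hf2m, hi, hcore _ (st_ne h i)]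
      · right
        by_cases hqv : up q = v ∨ lo q = v
        · -- demanded at `v`
          have hdem : V0 v ∧ ((up q = v ∧ lo q ≠ v ∧ V0 (lo q) ∧ u q) ∨ (lo q = v ∧ X q)) := by
            by_cases hlq : lo q = v
            · have hx := hq3 (by rw [hlq]; exact hnd.1)
              exact ⟨hlq ▸ hX q hx, Or.inr ⟨hlq, hx⟩⟩
            · have huq := hqv.resolve_right hlq
              have hlt := hty q (fun h' => hlq (h'.trans huq))
              have hmem : lo q ∈ bs := by
                by_contra hno
                have := hout (lo q) (by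
                  rw [List.mem_cons]
                  rintro (h' | h')
                  · exact hlq h'
                  · exact hno h') v List.mem_cons_self
                rw [huq] at hlt
                omega
              obtain ⟨k1, k2⟩ := hq2 hmem
              exact ⟨huq ▸ hup q k1, Or.inl ⟨huq, hlq, k1, k2⟩⟩
          obtain ⟨hv0, hdem⟩ := hdem
          rcases hfj : f2 j with k | p
          · left
            by_cases hk : k = 0
            · rw [hk]
            · exfalso
              have h1 := hf2m j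
              rw [hfj, hcore k hk, hq] at h1
              exact Sum.inl_ne_inr h1
          · right
            refine ⟨p, ?_, rfl⟩
            have h1 := hf2m j
            rw [hfj, hq] at h1
            have hnb : ¬ (up p = v ∨ (lo p = v ∧ ¬ u p)) := fun hb => hMv hv0 p hb q hdem h1
            have hpv : up p = v ∨ lo p = v := by
              by_contra hno
              rw [hleaf p hno] at h1
              have := Sum.inr_injective h1
              subst this
              exact hno hqv
            push Not at hnb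
            have hlp := hpv.resolve_left hnb.1
            have hup' : u p := hnb.2 hlp
            refine ⟨?_, ?_, ?_⟩
            · rw [List.mem_cons]
              rintro (h' | h')
              · exact hnb.1 h'
              · have h2 := hpw.1 _ h'
                have h3 := hty p (fun h'' => hnb.1 (h''.symm.trans hlp))
                rw [hlp] at h3
                omega
            · intro _
              rw [hlp]
              exact ⟨hv0, hup'⟩
            · intro h'
              exact absurd (by rw [hlp]; exact List.mem_cons_self) h'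
        · right
          refine ⟨q, ?_, ?_⟩
          · push Not at hqv
            refine ⟨?_, ?_, ?_⟩
            · rw [List.mem_cons]
              rintro (h' | h')
              · exact hqv.1 h'
              · exact hq1 h'
            · intro h'
              exact hq2 ((List.mem_cons.1 h').resolve_left hqv.2)
            · intro h'
              exact hq3 (fun h'' => h' (List.mem_cons_of_mem _ h''))
          · apply move_injective M
            rw [hf2m, hq, hleaf q hqv]
    obtain ⟨f1, r1, hf1, hf1j⟩ := gadS_reach h f2 hf2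
    refine ⟨f1, hf1, ?_, ?_⟩
    · intro j
      rcases hf1j j with ⟨h1, h2⟩ | ⟨i, hi⟩
      · rw [h1]
        rcases hf2j j with h3 | h3 | h3
        · exact Or.inl h3
        · exact absurd h3 h2
        · exact Or.inr h3
      · exact Or.inl ⟨i, hi⟩
    · rw [List.flatMap_cons]
      unfold blkS
      exact (r1.trans r2).trans hr3

/-- **The star network reaches every target.** -/
theorem netS_reach {t c : ℕ} (h : t ≤ c) (lo up : Λ → V) (ty : V → ℕ) (tl : V → List Λ)
    (hty : ∀ p, lo p ≠ up p → ty (lo p) < ty (up p))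
    (htl : ∀ v, ∀ p ∈ tl v, up p = v ∨ lo p = v)
    (hall : ∀ X : Finset Λ, X.card ≤ t → ∃ (V0 : V → Prop) (u : Λ → Prop),
      (∀ p ∈ X, V0 (lo p)) ∧ (∀ p, V0 (lo p) → V0 (up p)) ∧
      (∀ v, V0 v → ∃ M : List (SP c Λ × SP c Λ), M.Sublist (tch c (tl v)) ∧
      ∀ p, (up p = v ∨ (lo p = v ∧ ¬ u p)) →
      ∀ q, ((up q = v ∧ lo q ≠ v ∧ V0 (lo q) ∧ u q) ∨ (lo q = v ∧ q ∈ X)) →
        move M (Sum.inr p) ≠ Sum.inr q))
    (bs : List V) (hnd : bs.Nodup) (hpw : bs.Pairwise (fun a b => ty b ≤ ty a))
    (hbs : ∀ v, v ∈ bs) (x : Fin t → SP c Λ) (hx : Function.Injective x) :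
    Reach (netS h tl bs) (fun j => Sum.inl (Fin.castLE (by omega) j)) x := by
  classical
  -- the targets among the leaves
  let X : Finset Λ := (univ : Finset (Fin t)).biUnion (fun j =>
    match x j with
    | Sum.inl _ => ∅
    | Sum.inr p => {p})
  have hXc : X.card ≤ t := by
    refine (card_biUnion_le_card_mul _ _ 1 ?_).trans ?_
    · intro j _
      rcases x j with y | p
      · simp
      · simp
    · rw [mul_one, card_univ, Fintype.card_fin]
  have hXmem : ∀ j p, x j = Sum.inr p → p ∈ X := by
    intro j p hj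
    refine mem_biUnion.2 ⟨j, mem_univ _, ?_⟩
    rw [hj]
    exact mem_singleton_self _
  obtain ⟨V0, u, h1, h2, h3⟩ := hall X hXc
  -- the arrangement before the last word
  let g : Fin t → SP c Λ := fun j =>
    match x j with
    | Sum.inl _ => Sum.inl (st h j)
    | Sum.inr p => Sum.inr p
  have hg_inl : ∀ j k, x j = Sum.inl k → g j = Sum.inl (st h j) := by
    intro j k hj
    show (match x j with | Sum.inl _ => Sum.inl (st h j) | Sum.inr p => Sum.inr p) = _
    rw [hj]
  have hg_inr : ∀ j p, x j = Sum.inr p → g j = Sum.inr p := by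
    intro j p hj
    show (match x j with | Sum.inl _ => Sum.inl (st h j) | Sum.inr p => Sum.inr p) = _
    rw [hj]
  have hg : Function.Injective g := by
    intro i j hij
    rcases hi : x i with k | p
    · rcases hj : x j with k' | p'
      · rw [hg_inl i k hi, hg_inl j k' hj] at hij
        exact st_inj h (Sum.inl_injective hij)
      · rw [hg_inl i k hi, hg_inr j p' hj] at hij
        exact absurd hij Sum.inl_ne_inr
    · rcases hj : x j with k' | p'
      · rw [hg_inr i p hi, hg_inl j k' hj] at hij
        exact absurd hij Sum.inr_ne_inl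
      · rw [hg_inr i p hi, hg_inr j p' hj] at hij
        apply hx
        rw [hi, hj, hij]
  have hgj : ∀ j, (∃ i, g j = Sum.inl (st h i)) ∨ ∃ p, p ∈ X ∧ g j = Sum.inr p := by
    intro j
    rcases hj : x j with k | p
    · exact Or.inl ⟨j, hg_inl j k hj⟩
    · exact Or.inr ⟨p, hXmem j p hj, hg_inr j p hj⟩
  obtain ⟨f, hf, hfj, r2⟩ := sim h lo up ty tl hty htl (fun p => p ∈ X) V0 u h1 h2 h3 bs hnd hpw
    (fun w hw => absurd (hbs w) hw) g hg hgj
  have hfst : ∀ j, ∃ i, f j = Sum.inl (st h i) := by
    intro j
    rcases hfj j with h' | ⟨p, ⟨h', -⟩, -⟩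
    · exact h'
    · exact absurd (hbs _) h'
  choose i hi using hfst
  obtain ⟨π, hπ⟩ := exists_perm_extend (c := c + 1) (fun _ : Fin t => True)
    (Fin.castLE (by omega)) (fun j => st h (i j))
    (fun a b _ _ hab => Fin.castLE_injective _ hab)
    (fun a b _ _ hab => hf (by rw [hi, hi, hab]))
  have r1 : Reach ((sw c).map (Prod.map Sum.inl Sum.inl))
      (fun j : Fin t => (Sum.inl (Fin.castLE (by omega) j) : SP c Λ)) f := by
    have := sw_reach (Λ := Λ) π (fun j : Fin t => (Sum.inl (Fin.castLE (by omega) j) : SP c Λ))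
    convert this using 1
    funext j
    rw [hi, Sum.map_inl, hπ j trivial]
  have hz' : ∀ j, ∃ y : Fin (c + 1), ∀ y', x j = Sum.inl y' → y = y' := by
    intro j
    rcases hxj : x j with y | p
    · exact ⟨y, fun y' hy' => Sum.inl_injective hy'⟩
    · exact ⟨0, fun y' hy' => absurd hy' Sum.inr_ne_inl⟩
  choose xi hxi using hz'
  obtain ⟨π', hπ'⟩ := exists_perm_extend (c := c + 1) (fun j : Fin t => ∃ y, x j = Sum.inl y)
    (st h) xi (fun a b _ _ hab => st_inj h hab)
    (by
      rintro a b ⟨y, hy⟩ ⟨y', hy'⟩ hab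
      apply hx
      rw [hy, hy', ← hxi a y hy, ← hxi b y' hy', hab])
  have r3 : Reach ((sw c).map (Prod.map Sum.inl Sum.inl)) g x := by
    have := sw_reach (Λ := Λ) π' g
    convert this using 1
    funext j
    rcases hj : x j with y | p
    · rw [hg_inl j y hj, Sum.map_inl, hπ' j ⟨y, hj⟩, hxi j y hj]
    · rw [hg_inr j p hj, Sum.map_inr]
      rfl
  unfold netS
  exact (r1.trans r2).trans r3

end ReachNet
end
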