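import Mathlib
import Pool.Agent.Lib.MP_720f8f_co.StarSim
import Pool.Agent.Lib.MP_720f8f_co.StarLower

section

section

/-!
# Moving three tokens on three positions, and the choice of the lanes (`t = 3`)
-/

set_option autoImplicit false

namespace ReachNet

/-- The outer position of the `i`-th step. -/
def xo (i : ℕ) : Fin 3 := if i % 2 = 0 then 1 else 2

/-- The hub of the lane `l`. -/
def hp (l : ℕ) : Fin 3 := if l % 2 = 0 then 0 else xo (l / 2)

/-- The arrangement before step `i`. -/
def arr (s : ℕ → Bool) (ρ : Equiv.Perm (Fin 3)) : ℕ → Equiv.Perm (Fin 3)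
  | 0 => ρ
  | i + 1 => (if s i = true then Equiv.swap 0 (xo i) else 1) * arr s ρ i

theorem xo_cases (i : ℕ) : (xo i = 1 ∧ xo (i + 1) = 2 ∧ xo (i + 2) = 1) ∨
    (xo i = 2 ∧ xo (i + 1) = 1 ∧ xo (i + 2) = 2) := by
  unfold xo
  rcases Nat.mod_two_eq_zero_or_one i with h | h
  · left
    have h1 : (i + 1) % 2 = 1 := by omega
    have h2 : (i + 2) % 2 = 0 := by omega
    rw [h, h1, h2]
    exact ⟨rfl, rfl, rfl⟩
  · right
    have h1 : (i + 1) % 2 = 0 := by omega
    have h2 : (i + 2) % 2 = 1 := by omega
    rw [h, h1, h2]
    exact ⟨rfl, rfl, rfl⟩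

/-- Three consecutive steps realise every permutation. -/
theorem three_steps (i : ℕ) (π : Equiv.Perm (Fin 3)) : ∃ s0 s1 s2 : Bool,
    (if s2 = true then Equiv.swap 0 (xo (i + 2)) else 1) *
      ((if s1 = true then Equiv.swap 0 (xo (i + 1)) else 1) *
        (if s0 = true then Equiv.swap 0 (xo i) else 1)) = π := by
  rcases xo_cases i with ⟨h0, h1, h2⟩ | ⟨h0, h1, h2⟩
  · rw [h0, h1, h2]
    revert π
    decide
  · rw [h0, h1, h2]
    revert π
    decide

/-- changing `s` later does not matter -/
theorem arr_congr {s s' : ℕ → Bool} {ρ : Equiv.Perm (Fin 3)} {i : ℕ}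
    (h : ∀ j < i, s j = s' j) : arr s ρ i = arr s' ρ i := by
  induction i with
  | zero => rfl
  | succ i ih =>
    unfold arr
    rw [ih (fun j hj => h j (by omega)), h i (by omega)]

/-- constant arrangements -/
theorem arr_const {s : ℕ → Bool} {ρ : Equiv.Perm (Fin 3)} {i k : ℕ} (hik : i ≤ k)
    (h : ∀ j, i ≤ j → j < k → s j = false) : arr s ρ k = arr s ρ i := by
  induction k, hik using Nat.le_induction with
  | base => rfl
  | succ k hk ih =>
    show (if s k = true then _ else 1) * arr s ρ k = _
    rw [h k hk (by omega), if_neg (by simp), one_mul]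
    exact ih (fun j h1 h2 => h j h1 (by omega))

/-- From the arrangement at time `i` to any arrangement at time `i + 3`. -/
theorem arr_flex (s : ℕ → Bool) (ρ π : Equiv.Perm (Fin 3)) (i : ℕ) :
    ∃ s' : ℕ → Bool, (∀ j < i, s' j = s j) ∧ arr s' ρ (i + 3) = π := by
  obtain ⟨s0, s1, s2, hs⟩ := three_steps i (π * (arr s ρ i)⁻¹)
  set s' : ℕ → Bool := fun j => if j = i then s0 else if j = i + 1 then s1 else
    if j = i + 2 then s2 else s j with hs'
  have e0 : s' i = s0 := if_pos rfl
  have e1 : s' (i + 1) = s1 := by
    show (if i + 1 = i then s0 else _) = _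
    rw [if_neg (by omega), if_pos rfl]
  have e2 : s' (i + 2) = s2 := by
    show (if i + 2 = i then s0 else _) = _
    rw [if_neg (by omega), if_neg (by omega), if_pos rfl]
  have e3 : ∀ j < i, s' j = s j := by
    intro j hj
    show (if j = i then s0 else _) = _
    rw [if_neg (by omega), if_neg (by omega), if_neg (by omega)]
  refine ⟨s', e3, ?_⟩
  show (if s' (i + 2) = true then Equiv.swap 0 (xo (i + 2)) else 1) *
    ((if s' (i + 1) = true then Equiv.swap 0 (xo (i + 1)) else 1) *
      ((if s' i = true then Equiv.swap 0 (xo i) else 1) * arr s' ρ i)) = π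
  rw [e0, e1, e2, arr_congr e3]
  calc _ = ((if s2 = true then Equiv.swap 0 (xo (i + 2)) else 1) *
      ((if s1 = true then Equiv.swap 0 (xo (i + 1)) else 1) *
        (if s0 = true then Equiv.swap 0 (xo i) else 1))) * arr s ρ i := by group
    _ = π := by rw [hs]; group

/-- an arrangement with one prescribed token -/
theorem exists_perm_one (a p : Fin 3) : ∃ ρ : Equiv.Perm (Fin 3), ρ a = p :=
  ⟨Equiv.swap a p, Equiv.swap_apply_left a p⟩

/-- an arrangement with two prescribed tokens -/
theorem exists_perm_two (a b p q : Fin 3) (hab : a ≠ b) (hpq : p ≠ q) :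
    ∃ ρ : Equiv.Perm (Fin 3), ρ a = p ∧ ρ b = q := by
  revert a b p q
  decide

theorem hp_step (l : ℕ) : hp l = 0 ∨ hp l = xo (l / 2) := by
  unfold hp
  split_ifs
  · exact Or.inl rfl
  · exact Or.inr rfl

theorem xo_ne (i : ℕ) : xo i ≠ 0 := by
  unfold xo
  split_ifs <;> decide

/-- **Two exits**: from time `i0` on, with a prescribed arrangement at time `i0`. -/
theorem two_exits {A B : ℕ} (hAB : A < B) (a b : Fin 3) (hab : a ≠ b) :
    ∃ π : Equiv.Perm (Fin 3), ∀ (s : ℕ → Bool) (ρ : Equiv.Perm (Fin 3)) (i0 : ℕ), i0 ≤ A / 2 →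
      arr s ρ i0 = π → ∃ s' : ℕ → Bool, (∀ j < i0, s' j = s j) ∧
        arr s' ρ (A / 2 + 1) a = hp A ∧ arr s' ρ (B / 2 + 1) b = hp B := by
  by_cases hne : hp A = hp B
  · -- the same hub: one swap in the unit of `B`
    have hunit : A / 2 < B / 2 := by
      by_contra hcon
      have h1 : A / 2 = B / 2 := by omega
      have h2 : A % 2 = 0 ∧ B % 2 = 1 := by omega
      unfold hp at hne
      rw [if_pos h2.1, if_neg (by omega)] at hne
      exact xo_ne _ hne.symm
    obtain ⟨r, hr, hsw⟩ : ∃ r, r ≠ hp B ∧ Equiv.swap (0 : Fin 3) (xo (B / 2)) r = hp B := by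
      rcases hp_step B with h | h
      · exact ⟨xo (B / 2), by rw [h]; exact xo_ne _, by rw [h, Equiv.swap_apply_right]⟩
      · exact ⟨0, by rw [h]; exact (xo_ne _).symm, by rw [h, Equiv.swap_apply_left]⟩
    obtain ⟨π, hπa, hπb⟩ := exists_perm_two a b (hp A) r hab (by rw [hne]; exact hr.symm)
    refine ⟨π, ?_⟩
    intro s ρ i0 hi0 hπ
    set s' : ℕ → Bool := fun j => if j < i0 then s j else if j = B / 2 then true else false
      with hs'
    have e0 : ∀ j < i0, s' j = s j := fun j hj => if_pos hj
    have e1 : ∀ j, i0 ≤ j → j < B / 2 → s' j = false := by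
      intro j h1 h2
      show (if j < i0 then s j else _) = _
      rw [if_neg (by omega), if_neg (by omega)]
    have e2 : s' (B / 2) = true := by
      show (if B / 2 < i0 then s (B / 2) else _) = _
      rw [if_neg (by omega), if_pos rfl]
    have h0 : arr s' ρ i0 = π := by rw [arr_congr e0]; exact hπ
    refine ⟨s', e0, ?_, ?_⟩
    · rw [arr_const (i := i0) (by omega) (fun j h1 h2 => e1 j h1 (by omega)), h0, hπa]
    · show ((if s' (B / 2) = true then Equiv.swap 0 (xo (B / 2)) else 1) *
        arr s' ρ (B / 2)) b = _
      rw [e2, if_pos rfl, arr_const (i := i0) (by omega) (fun j h1 h2 => e1 j h1 h2), h0,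
        Equiv.Perm.mul_apply, hπb, hsw]
  · -- different hubs: no swap
    obtain ⟨π, hπa, hπb⟩ := exists_perm_two a b (hp A) (hp B) hab hne
    refine ⟨π, ?_⟩
    intro s ρ i0 hi0 hπ
    set s' : ℕ → Bool := fun j => if j < i0 then s j else false with hs'
    have e0 : ∀ j < i0, s' j = s j := fun j hj => if_pos hj
    have e1 : ∀ j, i0 ≤ j → s' j = false := fun j h1 => if_neg (by omega)
    have h0 : arr s' ρ i0 = π := by rw [arr_congr e0]; exact hπ
    refine ⟨s', e0, ?_, ?_⟩
    · rw [arr_const (i := i0) (by omega) (fun j h1 _ => e1 j h1), h0, hπa]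
    · rw [arr_const (i := i0) (by omega) (fun j h1 _ => e1 j h1), h0, hπb]

/-- **One exit.** -/
theorem one_exit (A : ℕ) (a : Fin 3) :
    ∃ π : Equiv.Perm (Fin 3), ∀ (s : ℕ → Bool) (ρ : Equiv.Perm (Fin 3)) (i0 : ℕ), i0 ≤ A / 2 →
      arr s ρ i0 = π → ∃ s' : ℕ → Bool, (∀ j < i0, s' j = s j) ∧
        arr s' ρ (A / 2 + 1) a = hp A := by
  obtain ⟨π, hπ1⟩ := exists_perm_one a (hp A)
  refine ⟨π, ?_⟩
  intro s ρ i0 hi0 hπ
  set s' : ℕ → Bool := fun j => if j < i0 then s j else false with hs'
  have e0 : ∀ j < i0, s' j = s j := fun j hj => if_pos hj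
  have e1 : ∀ j, i0 ≤ j → s' j = false := fun j h1 => if_neg (by omega)
  have h0 : arr s' ρ i0 = π := by rw [arr_congr e0]; exact hπ
  refine ⟨s', e0, ?_⟩
  rw [arr_const (i := i0) (by omega) (fun j h1 _ => e1 j h1), h0, hπ1]

/-- `u` and `v` are far apart -/
def Far (u v : ℕ) : Prop := u + 9 ≤ v ∨ v + 9 ≤ u

/-- one of the three lanes is far from the other two -/
def Good3 (x y z : ℕ) : Prop :=
  (Far x y ∧ Far x z) ∨ (Far y x ∧ Far y z) ∨ (Far z x ∧ Far z y)

/-- **Three exits**, in the given order. -/
theorem three_exits_sorted {A B C : ℕ} (hAB : A < B) (hBC : B < C)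
    (hgood : A + 9 ≤ B ∨ B + 9 ≤ C) (a b c : Fin 3) (hab : a ≠ b) (hbc : b ≠ c) :
    ∃ (s : ℕ → Bool) (ρ : Equiv.Perm (Fin 3)), arr s ρ (A / 2 + 1) a = hp A ∧
      arr s ρ (B / 2 + 1) b = hp B ∧ arr s ρ (C / 2 + 1) c = hp C := by
  rcases hgood with hg | hg
  · -- one exit, then two exits
    obtain ⟨π1, h1⟩ := one_exit A a
    obtain ⟨π2, h2⟩ := two_exits hBC b c hbc
    obtain ⟨s1, -, hs1⟩ := h1 (fun _ => false) π1 0 (Nat.zero_le _) rfl
    obtain ⟨s2, hs2, hs2'⟩ := arr_flex s1 π1 π2 (A / 2 + 1)
    obtain ⟨s3, hs3, hs3b, hs3c⟩ := h2 s2 π1 (A / 2 + 1 + 3) (by omega) hs2'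
    refine ⟨s3, π1, ?_, hs3b, hs3c⟩
    rw [arr_congr (s' := s1) (fun j hj => by rw [hs3 j (by omega), hs2 j hj])]
    exact hs1
  · -- two exits, then one exit
    obtain ⟨π1, h1⟩ := two_exits hAB a b hab
    obtain ⟨π2, h2⟩ := one_exit C c
    obtain ⟨s1, -, hs1a, hs1b⟩ := h1 (fun _ => false) π1 0 (Nat.zero_le _) rfl
    obtain ⟨s2, hs2, hs2'⟩ := arr_flex s1 π1 π2 (B / 2 + 1)
    obtain ⟨s3, hs3, hs3c⟩ := h2 s2 π1 (B / 2 + 1 + 3) (by omega) hs2'
    have hA2 : A / 2 ≤ B / 2 := by omega
    refine ⟨s3, π1, ?_, ?_, hs3c⟩
    · rw [arr_congr (s' := s1) (fun j hj => by rw [hs3 j (by omega), hs2 j (by omega)])]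
      exact hs1a
    · rw [arr_congr (s' := s1) (fun j hj => by rw [hs3 j (by omega), hs2 j hj])]
      exact hs1b

theorem fin3_cases : ∀ a b c j : Fin 3, a ≠ b → b ≠ c → a ≠ c → j = a ∨ j = b ∨ j = c := by
  decide

theorem fin3_inj {l : Fin 3 → ℕ} (h01 : l 0 ≠ l 1) (h02 : l 0 ≠ l 2) (h12 : l 1 ≠ l 2) :
    Function.Injective l := by
  intro i j hij
  rcases fin3_cases 0 1 2 i (by decide) (by decide) (by decide) with rfl | rfl | rfl
  · rcases fin3_cases 0 1 2 j (by decide) (by decide) (by decide) with rfl | rfl | rfl
    · rfl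
    · exact absurd hij h01
    · exact absurd hij h02
  · rcases fin3_cases 0 1 2 j (by decide) (by decide) (by decide) with rfl | rfl | rfl
    · exact absurd hij.symm h01
    · rfl
    · exact absurd hij h12
  · rcases fin3_cases 0 1 2 j (by decide) (by decide) (by decide) with rfl | rfl | rfl
    · exact absurd hij.symm h02
    · exact absurd hij.symm h12
    · rfl

/-- **Three exits.** -/
theorem three_exits (l : Fin 3 → ℕ) (hl : Function.Injective l)
    (hgood : Good3 (l 0) (l 1) (l 2)) :
    ∃ (s : ℕ → Bool) (ρ : Equiv.Perm (Fin 3)), ∀ j, arr s ρ (l j / 2 + 1) j = hp (l j) := by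
  have h01 : l 0 ≠ l 1 := fun h => by simpa using hl h
  have h02 : l 0 ≠ l 2 := fun h => by simpa using hl h
  have h12 : l 1 ≠ l 2 := fun h => by simpa using hl h
  unfold Good3 Far at hgood
  have key : ∀ a b c : Fin 3, a ≠ b → b ≠ c → a ≠ c → l a < l b → l b < l c →
      (l a + 9 ≤ l b ∨ l b + 9 ≤ l c) →
      ∃ (s : ℕ → Bool) (ρ : Equiv.Perm (Fin 3)), ∀ j, arr s ρ (l j / 2 + 1) j = hp (l j) := by
    intro a b c hab hbc hac h1 h2 h3
    obtain ⟨s, ρ, e1, e2, e3⟩ := three_exits_sorted h1 h2 h3 a b c hab hbc
    refine ⟨s, ρ, fun j => ?_⟩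
    rcases fin3_cases a b c j hab hbc hac with rfl | rfl | rfl
    · exact e1
    · exact e2
    · exact e3
  rcases lt_or_gt_of_ne h01 with h | h
  · rcases lt_or_gt_of_ne h12 with h' | h'
    · exact key 0 1 2 (by decide) (by decide) (by decide) h h' (by omega)
    · rcases lt_or_gt_of_ne h02 with h'' | h''
      · exact key 0 2 1 (by decide) (by decide) (by decide) h'' h' (by omega)
      · exact key 2 0 1 (by decide) (by decide) (by decide) h'' h (by omega)
  · rcases lt_or_gt_of_ne h02 with h' | h'
    · exact key 1 0 2 (by decide) (by decide) (by decide) h h' (by omega)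
    · rcases lt_or_gt_of_ne h12 with h'' | h''
      · exact key 1 2 0 (by decide) (by decide) (by decide) h'' h' (by omega)
      · exact key 2 1 0 (by decide) (by decide) (by decide) h'' h (by omega)

/-! ### The choice of the ends -/

theorem good_of_gap {x y : ℕ} (z : ℕ) (h : x + 17 ≤ y ∨ y + 17 ≤ x) : Good3 x y z := by
  unfold Good3 Far
  omega

/-- The choice of the ends for three pairs. -/
theorem choose_ends (p1 p2 p3 : Bool → ℕ) (h1 : p1 false + 25 ≤ p1 true)
    (h2 : p2 false + 25 ≤ p2 true) (h3 : p3 false + 25 ≤ p3 true)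
    (h31 : ¬ (p3 false = p1 false ∧ p3 true = p1 true))
    (h32 : ¬ (p3 false = p2 false ∧ p3 true = p2 true)) :
    ∃ t1 t2 t3 : Bool, p1 t1 ≠ p2 t2 ∧ p1 t1 ≠ p3 t3 ∧ p2 t2 ≠ p3 t3 ∧
      Good3 (p1 t1) (p2 t2) (p3 t3) := by
  set a1 := p1 false with ha1
  set b1 := p1 true with hb1
  set a2 := p2 false with ha2
  set b2 := p2 true with hb2
  set a3 := p3 false with ha3
  set b3 := p3 true with hb3
  by_cases h12 : a1 = a2
  · -- choose `a1` and `b2`
    have hg : ∀ z, Good3 a1 b2 z := fun z => good_of_gap z (by omega)
    by_cases h : a3 = a1 ∨ a3 = b2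
    · refine ⟨false, true, true, ?_, ?_, ?_, ?_⟩
      · show a1 ≠ b2; omega
      · show a1 ≠ b3; omega
      · show b2 ≠ b3; omega
      · exact hg b3
    · push Not at h
      refine ⟨false, true, false, ?_, ?_, ?_, ?_⟩
      · show a1 ≠ b2; omega
      · show a1 ≠ a3; omega
      · show b2 ≠ a3; omega
      · exact hg a3
  · by_cases ha : a3 = a1 ∨ a3 = a2
    · by_cases hb : b3 = a1 ∨ b3 = a2
      · rcases ha with ha | ha
        · -- `a3 = a1`, `b3 = a2`
          have hb' : b3 = a2 := by omega
          refine ⟨true, false, false, ?_, ?_, ?_, ?_⟩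
          · show b1 ≠ a2; omega
          · show b1 ≠ a3; omega
          · show a2 ≠ a3; omega
          · show Good3 b1 a2 a3
            unfold Good3 Far
            omega
        · have hb' : b3 = a1 := by omega
          refine ⟨false, true, false, ?_, ?_, ?_, ?_⟩
          · show a1 ≠ b2; omega
          · show a1 ≠ a3; omega
          · show b2 ≠ a3; omega
          · show Good3 a1 b2 a3
            unfold Good3 Far
            omega
      · push Not at hb
        refine ⟨false, false, true, ?_, ?_, ?_, ?_⟩
        · show a1 ≠ a2; omega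
        · show a1 ≠ b3; omega
        · show a2 ≠ b3; omega
        · show Good3 a1 a2 b3
          unfold Good3 Far
          omega
    · push Not at ha
      by_cases hb : b3 = a1 ∨ b3 = a2
      · refine ⟨false, false, false, ?_, ?_, ?_, ?_⟩
        · show a1 ≠ a2; omega
        · show a1 ≠ a3; omega
        · show a2 ≠ a3; omega
        · show Good3 a1 a2 a3
          unfold Good3 Far
          omega
      · push Not at hb
        by_cases hg : Good3 a1 a2 a3
        · refine ⟨false, false, false, ?_, ?_, ?_, hg⟩
          · show a1 ≠ a2; omega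
          · show a1 ≠ a3; omega
          · show a2 ≠ a3; omega
        · refine ⟨false, false, true, ?_, ?_, ?_, ?_⟩
          · show a1 ≠ a2; omega
          · show a1 ≠ b3; omega
          · show a2 ≠ b3; omega
          · show Good3 a1 a2 b3
            unfold Good3 Far at hg ⊢
            omega

theorem Good3.rot {x y z : ℕ} (h : Good3 x y z) : Good3 y z x := by
  unfold Good3 Far at *
  omega

theorem Good3.swap {x y z : ℕ} (h : Good3 x y z) : Good3 x z y := by
  unfold Good3 Far at *
  omega

/-- The choice of the ends for a family. -/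
theorem choose_ends_fam (p : Fin 3 → Bool → ℕ) (h : ∀ j, p j false + 25 ≤ p j true)
    (hne : ¬ (p 0 = p 1 ∧ p 0 = p 2)) :
    ∃ τ : Fin 3 → Bool, Function.Injective (fun j => p j (τ j)) ∧
      Good3 (p 0 (τ 0)) (p 1 (τ 1)) (p 2 (τ 2)) := by
  have hext : ∀ i j, p i false = p j false → p i true = p j true → p i = p j := by
    intro i j h1 h2
    funext b
    cases b
    · exact h1
    · exact h2
  by_cases h20 : p 2 = p 0
  · -- the odd one is `1`
    have h1 : p 1 ≠ p 0 := fun h' => hne ⟨h'.symm, h20.symm⟩
    obtain ⟨t0, t2, t1, e1, e2, e3, e4⟩ := choose_ends (p 0) (p 2) (p 1) (h 0) (h 2) (h 1)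
      (fun h' => h1 (hext _ _ h'.1 h'.2))
      (fun h' => h1 ((hext _ _ h'.1 h'.2).trans h20))
    refine ⟨![t0, t1, t2], fin3_inj e2 e1 e3.symm, ?_⟩
    exact e4.swap
  · by_cases h21 : p 2 = p 1
    · -- the odd one is `0`
      have h0 : p 0 ≠ p 1 := fun h' => h20 (h21.trans h'.symm)
      obtain ⟨t1, t2, t0, e1, e2, e3, e4⟩ := choose_ends (p 1) (p 2) (p 0) (h 1) (h 2) (h 0)
        (fun h' => h0 (hext _ _ h'.1 h'.2))
        (fun h' => h0 ((hext _ _ h'.1 h'.2).trans h21))
      refine ⟨![t0, t1, t2], fin3_inj e2.symm e3.symm e1, ?_⟩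
      exact e4.rot.rot
    · obtain ⟨t0, t1, t2, e1, e2, e3, e4⟩ := choose_ends (p 0) (p 1) (p 2) (h 0) (h 1) (h 2)
        (fun h' => h20 (hext _ _ h'.1 h'.2)) (fun h' => h21 (hext _ _ h'.1 h'.2))
      exact ⟨![t0, t1, t2], fin3_inj e1 e2 e3, e4⟩

end ReachNet
end

section

/-!
# The network for `t = 3`
-/

set_option autoImplicit false

open Finset

namespace ReachNet

/-- Positions: the core and the leaves (pairs). -/
abbrev P3 (c N : ℕ) : Type := Fin (c + 1) ⊕ (Fin N × Bool)

section

variable {c N : ℕ} (hc : 3 ≤ c + 1) (ln : Fin N × Bool → ℕ)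

/-- The core positions `0, 1, 2`. -/
def io (x : Fin 3) : Fin (c + 1) := Fin.castLE hc x

theorem io_inj : Function.Injective (io hc) := Fin.castLE_injective hc

/-- The leaves of a lane. -/
noncomputable def lblk (l : ℕ) : List (P3 c N × P3 c N) :=
  ((univ.filter (fun u => ln u = l)).toList).map (fun u => (Sum.inl (io hc (hp l)), Sum.inr u))

/-- A unit: a step, and two lanes. -/
noncomputable def unit3 (i : ℕ) : List (P3 c N × P3 c N) :=
  [(Sum.inl (io hc 0), Sum.inl (io hc (xo i)))] ++
    (lblk hc ln (2 * i) ++ lblk hc ln (2 * i + 1))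

/-- The middle part of the network. -/
noncomputable def mid3 (q : ℕ) : List (P3 c N × P3 c N) :=
  (List.range q).flatMap (unit3 hc ln)

/-- The last steps. -/
def prs (c N : ℕ) : List (P3 c N × P3 c N) :=
  (List.finRange N).map (fun e => (Sum.inr (e, false), Sum.inr (e, true)))

/-- The network. -/
noncomputable def net3 (q : ℕ) : List (P3 c N × P3 c N) :=
  (sw c).map (Prod.map Sum.inl Sum.inl) ++ mid3 hc ln q ++
    (sw c).map (Prod.map Sum.inl Sum.inl) ++ prs c N

/-- The configuration with the arrangement `π` in the core when the lanes below `m` are over. -/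
def cfg (l : Fin 3 → ℕ) (w : Fin 3 → P3 c N) (π : Equiv.Perm (Fin 3)) (m : ℕ) (j : Fin 3) :
    P3 c N := if l j < m then w j else Sum.inl (io hc (π j))

variable {hc ln}

theorem stepA {l : Fin 3 → ℕ} {w : Fin 3 → P3 c N} {m : ℕ}
    (hw : ∀ j, l j < m → ∃ u, w j = Sum.inr u ∧ ln u = l j) (π : Equiv.Perm (Fin 3))
    (b : Bool) (x : Fin 3) :
    Reach [((Sum.inl (io hc 0), Sum.inl (io hc x)) : P3 c N × P3 c N)] (cfg hc l w π m)
      (cfg hc l w ((if b = true then Equiv.swap 0 x else 1) * π) m) := by
  cases b
  · rw [if_neg (by simp), one_mul]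
    exact Reach.refl _ _
  · rw [if_pos rfl]
    refine ⟨_, List.Sublist.refl _, fun j => ?_⟩
    rw [move_cons, move_nil]
    unfold cfg
    by_cases hj : l j < m
    · rw [if_pos hj, if_pos hj]
      obtain ⟨u, hu, -⟩ := hw j hj
      rw [hu]
      exact Equiv.swap_apply_of_ne_of_ne Sum.inr_ne_inl Sum.inr_ne_inl
    · rw [if_neg hj, if_neg hj]
      have hinj : Function.Injective (fun y : Fin 3 => (Sum.inl (io hc y) : P3 c N)) :=
        fun a b hab => io_inj hc (Sum.inl_injective hab)
      exact hinj.swap_apply 0 x (π j)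

theorem stepB {l : Fin 3 → ℕ} (hl : Function.Injective l) {w : Fin 3 → P3 c N} {m : ℕ}
    (hw : ∀ j, l j ≤ m → ∃ u, w j = Sum.inr u ∧ ln u = l j) (π : Equiv.Perm (Fin 3))
    (hπ : ∀ j, l j = m → π j = hp m) :
    Reach (lblk hc ln m) (cfg hc l w π m) (cfg hc l w π (m + 1)) := by
  by_cases hex : ∃ j0, l j0 = m
  · obtain ⟨j0, hj0⟩ := hex
    obtain ⟨u0, hu0, hlu0⟩ := hw j0 hj0.le
    refine ⟨[(Sum.inl (io hc (hp m)), Sum.inr u0)], ?_, fun j => ?_⟩
    · rw [List.singleton_sublist]
      unfold lblk
      rw [List.mem_map]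
      refine ⟨u0, ?_, rfl⟩
      rw [mem_toList, mem_filter]
      exact ⟨mem_univ _, hlu0.trans hj0⟩
    · rw [move_cons, move_nil]
      unfold cfg
      by_cases hj : j = j0
      · subst hj
        rw [if_neg (by omega), if_pos (by omega), hπ j hj0, hu0]
        exact Equiv.swap_apply_left _ _
      · have hne : l j ≠ m := fun h => hj (hl (h.trans hj0.symm))
        by_cases hlt : l j < m
        · rw [if_pos hlt, if_pos (by omega)]
          obtain ⟨u, hu, hlu⟩ := hw j hlt.le
          rw [hu]
          apply Equiv.swap_apply_of_ne_of_ne Sum.inr_ne_inl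
          intro h
          rw [Sum.inr_injective h, hlu0, hj0] at hlu
          exact hne hlu.symm
        · rw [if_neg hlt, if_neg (by omega)]
          apply Equiv.swap_apply_of_ne_of_ne _ Sum.inl_ne_inr
          intro h
          have h1 := io_inj hc (Sum.inl_injective h)
          rw [← hπ j0 hj0] at h1
          exact hj (π.injective h1)
  · push Not at hex
    have : cfg hc l w π (m + 1) = cfg hc l w π m := by
      funext j
      unfold cfg
      have := hex j
      by_cases hlt : l j < m
      · rw [if_pos hlt, if_pos (by omega)]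
      · rw [if_neg hlt, if_neg (by omega)]
    rw [this]
    exact Reach.refl _ _

theorem mid_reach {l : Fin 3 → ℕ} (hl : Function.Injective l) {w : Fin 3 → P3 c N} {q : ℕ}
    (hw : ∀ j, l j < 2 * q → ∃ u, w j = Sum.inr u ∧ ln u = l j)
    (s : ℕ → Bool) (ρ : Equiv.Perm (Fin 3)) (hs : ∀ j, arr s ρ (l j / 2 + 1) j = hp (l j)) :
    Reach (mid3 hc ln q) (cfg hc l w ρ 0) (cfg hc l w (arr s ρ q) (2 * q)) := by
  have key : ∀ i ≤ q, Reach ((List.range i).flatMap (unit3 hc ln)) (cfg hc l w ρ 0)
      (cfg hc l w (arr s ρ i) (2 * i)) := by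
    intro i
    induction i with
    | zero =>
      intro _
      exact Reach.refl _ _
    | succ i ih =>
      intro hi
      rw [List.range_succ, List.flatMap_append, List.flatMap_singleton]
      refine (ih (by omega)).trans ?_
      unfold unit3
      have rA := stepA (hc := hc) (ln := ln) (l := l) (w := w) (m := 2 * i)
        (fun j hj => hw j (by omega)) (arr s ρ i) (s i) (xo i)
      have rB1 := stepB (hc := hc) (ln := ln) hl (w := w) (m := 2 * i)
        (fun j hj => hw j (by omega)) (arr s ρ (i + 1)) (by
          intro j hj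
          have := hs j
          rw [hj] at this
          have h2 : 2 * i / 2 + 1 = i + 1 := by omega
          rw [h2] at this
          exact this)
      have rB2 := stepB (hc := hc) (ln := ln) hl (w := w) (m := 2 * i + 1)
        (fun j hj => hw j (by omega)) (arr s ρ (i + 1)) (by
          intro j hj
          have := hs j
          rw [hj] at this
          have h2 : (2 * i + 1) / 2 + 1 = i + 1 := by omega
          rw [h2] at this
          exact this)
      exact rA.trans (rB1.trans rB2)
  exact key q le_rfl

/-- The last steps. -/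
theorem prs_move (S : Finset (Fin N)) : ∀ es : List (Fin N), es.Nodup → ∀ (e : Fin N) (b : Bool),
    move (((es.filter (fun e => e ∈ S)).map
      (fun e => ((Sum.inr (e, false), Sum.inr (e, true)) : P3 c N × P3 c N)))) (Sum.inr (e, b)) =
      Sum.inr (e, if e ∈ S ∧ e ∈ es then !b else b) := by
  intro es
  induction es with
  | nil =>
    intro _ e b
    rw [if_neg (fun h => absurd h.2 List.not_mem_nil)]
    rfl
  | cons a es ih =>
    intro hnd e b
    rw [List.nodup_cons] at hnd
    by_cases haS : a ∈ S
    · rw [List.filter_cons_of_pos (by simpa using haS), List.map_cons, move_cons]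
      show move _ (Equiv.swap (Sum.inr (a, false)) (Sum.inr (a, true)) (Sum.inr (e, b))) = _
      by_cases hea : e = a
      · subst hea
        have h1 : Equiv.swap (Sum.inr (e, false) : P3 c N) (Sum.inr (e, true))
            (Sum.inr (e, b)) = Sum.inr (e, !b) := by
          cases b
          · exact Equiv.swap_apply_left _ _
          · exact Equiv.swap_apply_right _ _
        rw [h1, ih hnd.2, if_neg (fun h => hnd.1 h.2),
          if_pos ⟨haS, List.mem_cons_self⟩]
      · have h1 : Equiv.swap (Sum.inr (a, false) : P3 c N) (Sum.inr (a, true))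
            (Sum.inr (e, b)) = Sum.inr (e, b) := by
          apply Equiv.swap_apply_of_ne_of_ne
          · exact fun h => hea (congrArg Prod.fst (Sum.inr_injective h))
          · exact fun h => hea (congrArg Prod.fst (Sum.inr_injective h))
        rw [h1, ih hnd.2]
        congr 2
        have : (e ∈ S ∧ e ∈ a :: es) ↔ (e ∈ S ∧ e ∈ es) := by
          rw [List.mem_cons]
          tauto
        simp only [this]
    · rw [List.filter_cons_of_neg (by simpa using haS), ih hnd.2]
      congr 2
      have : (e ∈ S ∧ e ∈ a :: es) ↔ (e ∈ S ∧ e ∈ es) := by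
        rw [List.mem_cons]
        constructor
        · rintro ⟨h1, h2⟩
          refine ⟨h1, h2.resolve_left ?_⟩
          rintro rfl
          exact haS h1
        · rintro ⟨h1, h2⟩
          exact ⟨h1, Or.inr h2⟩
      simp only [this]

/-- **The network reaches every target.** -/
theorem net3_reach (q : ℕ) (hln : ∀ u, ln u < 2 * q)
    (hgap : ∀ e, ln (e, false) + 25 ≤ ln (e, true))
    (hinj : ∀ e e', ln (e, false) = ln (e', false) → ln (e, true) = ln (e', true) → e = e')
    (x : Fin 3 → P3 c N) (hx : Function.Injective x) :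
    Reach (net3 hc ln q) (fun j => Sum.inl (io hc j)) x := by
  classical
  -- the ends
  let p : Fin 3 → Bool → ℕ := fun j b =>
    match x j with
    | Sum.inl _ => 2 * q + 200 * j.val + (if b = true then 100 else 0)
    | Sum.inr u => ln (u.1, b)
  have hp_inl : ∀ j y, x j = Sum.inl y → ∀ b,
      p j b = 2 * q + 200 * j.val + (if b = true then 100 else 0) := by
    intro j y hj b
    show (match x j with
      | Sum.inl _ => 2 * q + 200 * j.val + (if b = true then 100 else 0)
      | Sum.inr u => ln (u.1, b)) = _
    rw [hj]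
  have hp_inr : ∀ j u, x j = Sum.inr u → ∀ b, p j b = ln (u.1, b) := by
    intro j u hj b
    show (match x j with
      | Sum.inl _ => 2 * q + 200 * j.val + (if b = true then 100 else 0)
      | Sum.inr u => ln (u.1, b)) = _
    rw [hj]
  have hpgap : ∀ j, p j false + 25 ≤ p j true := by
    intro j
    rcases hj : x j with y | u
    · rw [hp_inl j y hj, hp_inl j y hj, if_neg (by simp), if_pos rfl]
      omega
    · rw [hp_inr j u hj, hp_inr j u hj]
      exact hgap u.1
  -- equal pairs come from the same edge
  have hsame : ∀ i j, i ≠ j → p i = p j → ∃ u v, x i = Sum.inr u ∧ x j = Sum.inr v ∧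
      u.1 = v.1 := by
    intro i j hij hpp
    rcases hi : x i with y | u
    · exfalso
      have h1 := congrFun hpp false
      rw [hp_inl i y hi, if_neg (by simp)] at h1
      rcases hj : x j with y' | v
      · rw [hp_inl j y' hj, if_neg (by simp)] at h1
        apply hij
        apply Fin.ext
        omega
      · rw [hp_inr j v hj] at h1
        have := hln (v.1, false)
        omega
    · rcases hj : x j with y' | v
      · exfalso
        have h1 := congrFun hpp false
        rw [hp_inl j y' hj, if_neg (by simp), hp_inr i u hi] at h1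
        have := hln (u.1, false)
        omega
      · refine ⟨u, v, rfl, rfl, ?_⟩
        apply hinj
        · have h1 := congrFun hpp false
          rwa [hp_inr i u hi, hp_inr j v hj] at h1
        · have h1 := congrFun hpp true
          rwa [hp_inr i u hi, hp_inr j v hj] at h1
  have hne : ¬ (p 0 = p 1 ∧ p 0 = p 2) := by
    rintro ⟨h01, h02⟩
    obtain ⟨u0, u1, hu0, hu1, he01⟩ := hsame 0 1 (by decide) h01
    obtain ⟨u0', u2, hu0', hu2, he02⟩ := hsame 0 2 (by decide) h02
    have hu00 : u0' = u0 := Sum.inr_injective (hu0'.symm.trans hu0)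
    rw [hu00] at he02
    have n01 : u0.2 ≠ u1.2 := by
      intro h
      have := hx (hu0.trans ((congrArg Sum.inr (Prod.ext he01 h)).trans hu1.symm))
      exact absurd this (by decide)
    have n02 : u0.2 ≠ u2.2 := by
      intro h
      have := hx (hu0.trans ((congrArg Sum.inr (Prod.ext he02 h)).trans hu2.symm))
      exact absurd this (by decide)
    have n12 : u1.2 ≠ u2.2 := by
      intro h
      have := hx (hu1.trans ((congrArg Sum.inr (Prod.ext (he01.symm.trans he02) h)).trans
        hu2.symm))
      exact absurd this (by decide)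
    cases h0 : u0.2 <;> cases h1 : u1.2 <;> cases h2 : u2.2 <;> simp_all
  obtain ⟨τ, hτ, hτg⟩ := choose_ends_fam p hpgap hne
  set l : Fin 3 → ℕ := fun j => p j (τ j) with hl
  obtain ⟨s, ρ, hs⟩ := three_exits l hτ hτg
  let w : Fin 3 → P3 c N := fun j =>
    match x j with
    | Sum.inl y => Sum.inl y
    | Sum.inr u => Sum.inr (u.1, τ j)
  have hw_inr : ∀ j u, x j = Sum.inr u → w j = Sum.inr (u.1, τ j) := by
    intro j u hj
    show (match x j with
      | Sum.inl y => Sum.inl y
      | Sum.inr u => Sum.inr (u.1, τ j)) = _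
    rw [hj]
  have hl_inl : ∀ j y, x j = Sum.inl y → 2 * q ≤ l j := by
    intro j y hj
    show 2 * q ≤ p j (τ j)
    rw [hp_inl j y hj]
    omega
  have hl_inr : ∀ j u, x j = Sum.inr u → l j = ln (u.1, τ j) := fun j u hj => hp_inr j u hj _
  have hw : ∀ j, l j < 2 * q → ∃ u, w j = Sum.inr u ∧ ln u = l j := by
    intro j hj
    rcases hxj : x j with y | u
    · have := hl_inl j y hxj
      omega
    · exact ⟨(u.1, τ j), hw_inr j u hxj, (hl_inr j u hxj).symm⟩
  have r2 := mid_reach (hc := hc) hτ hw s ρ hs
  set π := arr s ρ q with hπ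
  -- the first word
  obtain ⟨κ, hκ⟩ := exists_perm_extend (c := c + 1) (fun _ : Fin 3 => True) (io hc)
    (fun j => io hc (ρ j)) (fun a b _ _ hab => io_inj hc hab)
    (fun a b _ _ hab => ρ.injective (io_inj hc hab))
  have r1 : Reach ((sw c).map (Prod.map Sum.inl Sum.inl))
      (fun j : Fin 3 => (Sum.inl (io hc j) : P3 c N)) (cfg hc l w ρ 0) := by
    have := sw_reach (Λ := Fin N × Bool) κ (fun j : Fin 3 => (Sum.inl (io hc j) : P3 c N))
    convert this using 1
    funext j
    unfold cfg
    rw [if_neg (by omega), Sum.map_inl, hκ j trivial]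
  -- the last word
  have hz' : ∀ j, ∃ y : Fin (c + 1), ∀ y', x j = Sum.inl y' → y = y' := by
    intro j
    rcases hxj : x j with y | u
    · exact ⟨y, fun y' hy' => Sum.inl_injective hy'⟩
    · exact ⟨0, fun y' hy' => absurd hy' Sum.inr_ne_inl⟩
  choose xi hxi using hz'
  obtain ⟨κ', hκ'⟩ := exists_perm_extend (c := c + 1) (fun j : Fin 3 => ∃ y, x j = Sum.inl y)
    (fun j => io hc (π j)) xi (fun a b _ _ hab => π.injective (io_inj hc hab))
    (by
      rintro a b ⟨y, hy⟩ ⟨y', hy'⟩ hab
      apply hx
      rw [hy, hy', ← hxi a y hy, ← hxi b y' hy', hab])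
  have r3 : Reach ((sw c).map (Prod.map Sum.inl Sum.inl)) (cfg hc l w π (2 * q)) w := by
    have := sw_reach (Λ := Fin N × Bool) κ' (cfg hc l w π (2 * q))
    convert this using 1
    funext j
    unfold cfg
    rcases hxj : x j with y | u
    · have h1 := hl_inl j y hxj
      rw [if_neg (by omega), Sum.map_inl, hκ' j ⟨y, hxj⟩, hxi j y hxj]
      show (match x j with
        | Sum.inl y => Sum.inl y
        | Sum.inr u => Sum.inr (u.1, τ j)) = _
      rw [hxj]
    · have h1 : l j < 2 * q := by
        rw [hl_inr j u hxj]
        exact hln _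
      rw [if_pos h1, hw_inr j u hxj, Sum.map_inr]
      rfl
  -- the last steps
  let S : Finset (Fin N) := univ.filter (fun e => ∃ (j : Fin 3) (b : Bool),
    x j = Sum.inr (e, b) ∧ τ j ≠ b)
  have r4 : Reach (prs c N) w x := by
    refine ⟨((List.finRange N).filter (fun e => e ∈ S)).map
      (fun e => ((Sum.inr (e, false), Sum.inr (e, true)) : P3 c N × P3 c N)), ?_, fun j => ?_⟩
    · unfold prs
      exact List.Sublist.map _ List.filter_sublist
    · rcases hxj : x j with y | u
      · have hwj : w j = Sum.inl y := by
          show (match x j with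
            | Sum.inl y => Sum.inl y
            | Sum.inr u => Sum.inr (u.1, τ j)) = _
          rw [hxj]
        rw [hwj]
        apply move_of_notMem
        intro T hT
        obtain ⟨e, -, rfl⟩ := List.mem_map.1 hT
        exact ⟨Sum.inr_ne_inl, Sum.inr_ne_inl⟩
      · obtain ⟨e, b⟩ := u
        rw [hw_inr j (e, b) hxj, prs_move S _ (List.nodup_finRange N)]
        by_cases hb : τ j = b
        · have hS : e ∉ S := by
            intro hS
            obtain ⟨-, j', b', hj', hb'⟩ := mem_filter.1 hS
            have hjj : j ≠ j' := by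
              rintro rfl
              have := Sum.inr_injective (hxj.symm.trans hj')
              exact hb' (hb.trans (congrArg Prod.snd this))
            have hbb : b ≠ b' := by
              rintro rfl
              exact hjj (hx (hxj.trans hj'.symm))
            have hττ : τ j = τ j' := by
              rw [hb]
              cases b <;> cases b' <;> cases h' : τ j' <;> simp_all
            apply hjj
            apply hτ
            show p j (τ j) = p j' (τ j')
            rw [hp_inr j _ hxj, hp_inr j' _ hj', hττ]
          rw [if_neg (fun h => hS h.1), hb]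
        · have hS : e ∈ S := mem_filter.2 ⟨mem_univ _, j, b, hxj, hb⟩
          rw [if_pos ⟨hS, List.mem_finRange e⟩]
          have : (!τ j) = b := by
            cases b <;> cases h' : τ j <;> simp_all
          rw [this]
  unfold net3
  exact ((r1.trans r2).trans r3).trans r4

theorem length_mid3 (q : ℕ) : (mid3 hc ln q).length =
    q + ∑ l ∈ range (2 * q), (univ.filter (fun u => ln u = l)).card := by
  unfold mid3
  induction q with
  | zero => simp
  | succ q ih =>
    rw [List.range_succ, List.flatMap_append, List.flatMap_singleton, List.length_append, ih]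
    unfold unit3 lblk
    rw [List.length_append, List.length_append, List.length_map, List.length_map,
      length_toList, length_toList]
    have : 2 * (q + 1) = 2 * q + 1 + 1 := by ring
    rw [this, sum_range_succ, sum_range_succ]
    simp only [List.length_cons, List.length_nil]
    ring

theorem length_net3 (q : ℕ) (hln : ∀ u, ln u < 2 * q) : (net3 hc ln q).length =
    2 * (sw c).length + q + 3 * N := by
  unfold net3 prs
  rw [List.length_append, List.length_append, List.length_append, List.length_map,
    List.length_map, List.length_finRange, length_mid3]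
  have h := card_eq_sum_card_fiberwise (f := ln) (s := (univ : Finset (Fin N × Bool)))
    (t := range (2 * q)) (fun u _ => mem_coe.2 (mem_range.2 (hln u)))
  rw [← h, card_univ, Fintype.card_prod, Fintype.card_fin, Fintype.card_bool]
  ring

theorem net3_ne (q : ℕ) : ∀ T ∈ net3 hc ln q, T.1 ≠ T.2 := by
  intro T hT
  have hsw : ∀ T ∈ (sw c).map (Prod.map Sum.inl Sum.inl), (T : P3 c N × P3 c N).1 ≠ T.2 := by
    intro T hT
    obtain ⟨T', hT', rfl⟩ := List.mem_map.1 hT
    obtain ⟨h1, h2⟩ := sw_star c T' hT'
    intro h
    have h3 := Sum.inl_injective h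
    rw [h1] at h3
    exact h2 h3.symm
  unfold net3 at hT
  rw [List.mem_append, List.mem_append, List.mem_append] at hT
  rcases hT with ((hT | hT) | hT) | hT
  · exact hsw T hT
  · unfold mid3 at hT
    rw [List.mem_flatMap] at hT
    obtain ⟨i, -, hT⟩ := hT
    unfold unit3 lblk at hT
    rw [List.mem_append, List.mem_singleton, List.mem_append] at hT
    rcases hT with rfl | hT | hT
    · intro h
      exact xo_ne i (io_inj hc (Sum.inl_injective h)).symm
    · obtain ⟨u, -, rfl⟩ := List.mem_map.1 hT
      exact Sum.inl_ne_inr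
    · obtain ⟨u, -, rfl⟩ := List.mem_map.1 hT
      exact Sum.inl_ne_inr
  · exact hsw T hT
  · unfold prs at hT
    obtain ⟨e, -, rfl⟩ := List.mem_map.1 hT
    intro h
    have h2 := congrArg Prod.snd (Sum.inr_injective h)
    exact Bool.false_ne_true h2

end

/-- The lanes. -/
theorem exists_lanes (N q : ℕ) (hN : 2 * N ≤ (2 * q - 24) * (2 * q - 24 - 1)) :
    ∃ ln : Fin N × Bool → ℕ, (∀ u, ln u < 2 * q) ∧
      (∀ e, ln (e, false) + 25 ≤ ln (e, true)) ∧
      (∀ e e', ln (e, false) = ln (e', false) → ln (e, true) = ln (e', true) → e = e') := by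
  set K := 2 * q - 24 with hK
  have hcard : Fintype.card (Fin N) ≤ Fintype.card ((b : Fin K) × Fin b.val) := by
    rw [Fintype.card_fin, Fintype.card_sigma]
    simp only [Fintype.card_fin]
    rw [Fin.sum_univ_eq_sum_range (fun i => i) K]
    have := Finset.sum_range_id_mul_two K
    omega
  obtain ⟨φ⟩ := Function.Embedding.nonempty_of_card_le hcard
  refine ⟨fun u => if u.2 = true then (φ u.1).1.val + 24 else (φ u.1).2.val, ?_, ?_, ?_⟩
  · intro u
    have h1 := (φ u.1).1.2
    have h2 := (φ u.1).2.2
    show (if u.2 = true then (φ u.1).1.val + 24 else (φ u.1).2.val) < 2 * q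
    split_ifs <;> omega
  · intro e
    have h2 := (φ e).2.2
    show (if false = true then (φ e).1.val + 24 else (φ e).2.val) + 25 ≤
      (if true = true then (φ e).1.val + 24 else (φ e).2.val)
    rw [if_neg (by simp), if_pos rfl]
    omega
  · intro e e' h1 h2
    apply φ.injective
    simp only [if_true, Nat.add_right_cancel_iff] at h2
    simp only [Bool.false_eq_true, if_false] at h1
    rcases h : φ e with ⟨b, a⟩
    rcases h' : φ e' with ⟨b', a'⟩
    rw [h, h'] at h1 h2
    have hb : b = b' := Fin.ext h2
    subst hb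
    have ha : a = a' := Fin.ext h1
    rw [ha]

/-- **The upper bound for `t = 3`**, with the parameter `q`. -/
theorem exists_net3 {n : ℕ} (h : 3 ≤ n) (q : ℕ)
    (hq : n ≤ (2 * q - 24) * (2 * q - 24 - 1)) :
    ∃ L : List (Fin n × Fin n), IsNet h L ∧ 2 * L.length ≤ 3 * n + 2 * q + 15 := by
  obtain ⟨N, c, hcn, hc, hcase⟩ : ∃ N c : ℕ, c + 1 + 2 * N = n ∧ 3 ≤ c + 1 ∧
      (c = 2 ∨ c = 3) := by
    refine ⟨(n - 3) / 2, 2 + (n - 3) % 2, by omega, by omega, by omega⟩
  obtain ⟨ln, h1, h2, h3⟩ := exists_lanes N q (by omega)
  have hcard : Fintype.card (Fin N × Bool) = 2 * N := by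
    rw [Fintype.card_prod, Fintype.card_fin, Fintype.card_bool, mul_comm]
  let e1 : Fin N × Bool ≃ Fin (2 * N) := Fintype.equivFinOfCardEq hcard
  let e : P3 c N ≃ Fin n :=
    ((Equiv.sumCongr (Equiv.refl (Fin (c + 1))) e1).trans finSumFinEquiv).trans (finCongr hcn)
  have he : ∀ j : Fin 3, e (Sum.inl (io hc j)) = Fin.castLE h j := by
    intro j
    apply Fin.ext
    simp [e, io]
  refine ⟨(net3 hc ln q).map (Prod.map e e), ⟨?_, ?_⟩, ?_⟩
  · intro T hT
    obtain ⟨T', hT', rfl⟩ := List.mem_map.1 hT
    exact fun h' => net3_ne q T' hT' (e.injective h')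
  · intro x hx
    obtain ⟨M, hM, hm⟩ := net3_reach (hc := hc) q h1 h2 h3 (fun j => e.symm (x j))
      (e.symm.injective.comp hx)
    refine ⟨M.map (Prod.map e e), hM.map _, fun j => ?_⟩
    rw [← he j, move_map e.injective, hm j, Equiv.apply_symm_apply]
  · rw [List.length_map, length_net3 q h1]
    have hsw : (sw c).length = 3 ∧ c = 2 ∨ (sw c).length = 6 ∧ c = 3 := by
      rcases hcase with rfl | rfl
      · exact Or.inl ⟨rfl, rfl⟩
      · exact Or.inr ⟨rfl, rfl⟩
    omega

end ReachNet
end
end

section

/-!
# The lower bound for `t = 3` with the second order term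

The live positions carry labels. A splitter copies the label, a full step gives two fresh labels.
At every time every label is carried by at most one occupied position. A step between `a` and `b`
after which both have weight `1` (such a step is called final) has labels of weight `2`, and
different final steps have different pairs of labels.
-/

set_option autoImplicit false

open Finset

namespace ReachNet

variable {α : Type} [DecidableEq α]

/-- The invariants. -/
structure Inv (L : List (α × α)) (𝒪 : Set (Finset α)) (D : Finset α) (lab : α → ℕ)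
    (𝓔 : Finset (Finset ℕ)) (𝓤 : Finset ℕ) (N0 : ℕ) : Prop where
  sub : ∀ O ∈ 𝒪, O ⊆ D
  rp : RPS 3 𝒪 L
  one : ∀ O ∈ 𝒪, ∀ p ∈ O, ∀ q ∈ O, lab p = lab q → p = q
  cert : ∀ e ∈ 𝓔, ∃ X : Finset α, X.card ≤ 2 ∧ Fc 𝒪 L (fun O => ∀ p ∈ O, lab p ∉ e) X
  two : ∀ p ∈ D, kap D L p = 2 → lab p ∈ 𝓤
  bd : ∀ p ∈ D, lab p < N0
  ubd : ∀ a ∈ 𝓤, a < N0
  ee : 𝓔 ⊆ 𝓤.powersetCard 2

/-- The number of live positions of weight one. -/
def c1 (D : Finset α) (L : List (α × α)) : ℕ := (D.filter (fun p => kap D L p = 1)).card

/-- lifting a run -/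
theorem lift_run {𝒪 : Set (Finset α)} {T : α × α} {L M' : List (α × α)} {O O' X : Finset α}
    (hP : Pr T O O') (hM : M'.Sublist L) (hX : X ⊆ O'.image (move M')) :
    ∃ M : List (α × α), M.Sublist (T :: L) ∧ X ⊆ O.image (move M) := by
  rcases hP with rfl | rfl
  · exact ⟨M', hM.cons T, hX⟩
  · refine ⟨T :: M', hM.cons_cons T, ?_⟩
    rw [image_image] at hX
    exact hX

theorem c1_full {D D' : Finset α} {k k' : α → ℕ} {a b : α} (hab : a ≠ b) (ha : a ∈ D)
    (hb : b ∈ D) (hD : D' = D) (hk : ∀ p ∈ D, p ≠ a → p ≠ b → k p = k' p) :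
    (D'.filter (fun p => k' p = 1)).card + (if k a = 1 then 1 else 0) +
      (if k b = 1 then 1 else 0) =
    (D.filter (fun p => k p = 1)).card + (if k' a = 1 then 1 else 0) +
      (if k' b = 1 then 1 else 0) := by
  subst hD
  have hb' : b ∈ D'.erase a := mem_erase.2 ⟨hab.symm, hb⟩
  have key : ∀ f : α → ℕ, (D'.filter (fun p => f p = 1)).card =
      (if f a = 1 then 1 else 0) + ((if f b = 1 then 1 else 0) +
        ∑ p ∈ (D'.erase a).erase b, if f p = 1 then 1 else 0) := by
    intro f
    rw [card_filter, ← add_sum_erase _ _ ha, ← add_sum_erase _ _ hb']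
  have hsum : ∑ p ∈ (D'.erase a).erase b, (if k p = 1 then 1 else 0) =
      ∑ p ∈ (D'.erase a).erase b, if k' p = 1 then 1 else 0 := by
    apply sum_congr rfl
    intro p hp
    have h1 := mem_erase.1 hp
    have h2 := mem_erase.1 h1.2
    rw [hk p h2.2 h2.1 h1.1]
  rw [key k, key k', hsum]
  ring

theorem main3 (L : List (α × α)) : ∀ (𝒪 : Set (Finset α)) (D : Finset α) (lab : α → ℕ)
    (𝓔 : Finset (Finset ℕ)) (𝓤 : Finset ℕ) (N0 : ℕ), (∀ T ∈ L, T.1 ≠ T.2) →
    Inv L 𝒪 D lab 𝓔 𝓤 N0 →
    ∃ n11 n1s nss u : ℕ, (live D L).card + n11 + n1s + nss ≤ L.length + D.card ∧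
      (live D L).card ≤ c1 D L + 2 * n11 + n1s ∧ u ≤ n1s + 2 * nss ∧
      n11 + 𝓔.card ≤ (𝓤.card + u).choose 2 := by
  induction L with
  | nil =>
    intro 𝒪 D lab 𝓔 𝓤 N0 _ hI
    refine ⟨0, 0, 0, 0, by simp [live], ?_, le_rfl, ?_⟩
    · have : c1 D ([] : List (α × α)) = D.card := by
        unfold c1
        congr 1
        apply filter_true_of_mem
        intro p _
        rfl
      rw [this]
      exact le_refl _
    · have := card_le_card hI.ee
      rw [card_powersetCard] at this
      simpa using this
  | cons T L ih =>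
    intro 𝒪 D lab 𝓔 𝓤 N0 hne hI
    have hT : T.1 ≠ T.2 := hne T List.mem_cons_self
    have hne' : ∀ T' ∈ L, T'.1 ≠ T'.2 := fun T' hT' => hne T' (List.mem_cons_of_mem _ hT')
    have hlive : live D (T :: L) = live (stp D T) L := rfl
    have hRP : RP 3 D (T :: L) := by
      intro X hX
      obtain ⟨O, hO, M, hM, hs⟩ := hI.rp X hX
      exact ⟨O, hI.sub O hO, M, hM, hs⟩
    -- occupied sets stay inside
    have hsub' : ∀ O' ∈ nx 𝒪 T, O' ⊆ stp D T := by
      rintro O' ⟨O, hO, rfl | rfl⟩
      · exact (hI.sub _ hO).trans (subset_stp D T)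
      · exact image_swap_subset T (hI.sub O hO)
    by_cases hand : T.1 ∈ D ∧ T.2 ∈ D
    · -- a full step
      have hst : stp D T = D := by
        unfold stp
        rw [if_pos (Or.inl hand.1), insert_eq_self.2 (mem_insert_of_mem hand.1),
          insert_eq_self.2 hand.2]
      have hk1 : kap D (T :: L) T.1 = kap (stp D T) L T.1 + kap (stp D T) L T.2 := by
        conv_lhs => unfold kap
        rw [if_pos hand, if_pos (Or.inl rfl)]
      have hk2 : kap D (T :: L) T.2 = kap (stp D T) L T.1 + kap (stp D T) L T.2 := by
        conv_lhs => unfold kap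
        rw [if_pos hand, if_pos (Or.inr rfl)]
      have hk : ∀ p, p ≠ T.1 → p ≠ T.2 → kap D (T :: L) p = kap (stp D T) L p := by
        intro p h1 h2
        conv_lhs => unfold kap
        rw [if_pos hand, if_neg (by rintro (h | h); exacts [h1 h, h2 h])]
      rw [hst] at hk1 hk2 hk
      set ka := kap D L T.1 with hka
      set kb := kap D L T.2 with hkb
      have hka1 : 1 ≤ ka := one_le_kap D L T.1
      have hkb1 : 1 ≤ kb := one_le_kap D L T.2
      -- fresh labels
      set lab' : α → ℕ := fun p => if p = T.1 then N0 else if p = T.2 then N0 + 1 else lab p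
        with hlab'
      have l1 : lab' T.1 = N0 := if_pos rfl
      have l2 : lab' T.2 = N0 + 1 := by
        show (if T.2 = T.1 then N0 else if T.2 = T.2 then N0 + 1 else lab T.2) = _
        rw [if_neg hT.symm, if_pos rfl]
      have l3 : ∀ p, p ≠ T.1 → p ≠ T.2 → lab' p = lab p := by
        intro p h1 h2
        show (if p = T.1 then N0 else if p = T.2 then N0 + 1 else lab p) = _
        rw [if_neg h1, if_neg h2]
      have hsubD : ∀ O' ∈ nx 𝒪 T, O' ⊆ D := fun O' hO' => hst ▸ hsub' O' hO'
      have hone' : ∀ O' ∈ nx 𝒪 T, ∀ p ∈ O', ∀ q ∈ O', lab' p = lab' q → p = q := by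
        rintro O' ⟨O, hO, hP⟩ p hp q hq hpq
        have hmemO : ∀ x ∈ O', x ≠ T.1 → x ≠ T.2 → x ∈ O ∧ lab x < N0 := by
          intro x hx h1 h2
          have := mem_of_swap_of_ne hP h1 h2 hx
          exact ⟨this, hI.bd x (hI.sub O hO this)⟩
        by_cases hp1 : p = T.1
        · rw [hp1, l1] at hpq
          by_cases hq1 : q = T.1
          · rw [hp1, hq1]
          · by_cases hq2 : q = T.2
            · rw [hq2, l2] at hpq
              omega
            · rw [l3 q hq1 hq2] at hpq
              have := (hmemO q hq hq1 hq2).2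
              omega
        · by_cases hp2 : p = T.2
          · rw [hp2, l2] at hpq
            by_cases hq1 : q = T.1
            · rw [hq1, l1] at hpq
              omega
            · by_cases hq2 : q = T.2
              · rw [hp2, hq2]
              · rw [l3 q hq1 hq2] at hpq
                have := (hmemO q hq hq1 hq2).2
                omega
          · have hpO := hmemO p hp hp1 hp2
            rw [l3 p hp1 hp2] at hpq
            by_cases hq1 : q = T.1
            · rw [hq1, l1] at hpq
              omega
            · by_cases hq2 : q = T.2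
              · rw [hq2, l2] at hpq
                omega
              · rw [l3 q hq1 hq2] at hpq
                exact hI.one O hO p hpO.1 q (hmemO q hq hq1 hq2).1 hpq
      have hcert' : ∀ e ∈ 𝓔, ∃ X : Finset α, X.card ≤ 2 ∧
          Fc (nx 𝒪 T) L (fun O => ∀ p ∈ O, lab' p ∉ e) X := by
        intro e he
        obtain ⟨X, hX, hF⟩ := hI.cert e he
        refine ⟨X, hX, ?_⟩
        have heU := hI.ee he
        rw [mem_powersetCard] at heU
        rintro O' ⟨O, hO, hP⟩ M' hM' hs p hp hpe
        obtain ⟨M, hM, hs'⟩ := lift_run (𝒪 := 𝒪) hP hM' hs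
        have hF' := hF O hO M hM hs'
        have hlt := hI.ubd _ (heU.1 hpe)
        by_cases hp1 : p = T.1
        · rw [hp1, l1] at hlt
          omega
        · by_cases hp2 : p = T.2
          · rw [hp2, l2] at hlt
            omega
          · rw [l3 p hp1 hp2] at hpe
            exact hF' p (mem_of_swap_of_ne hP hp1 hp2 hp) hpe
      have hc1 : c1 D L = c1 D (T :: L) + (if ka = 1 then 1 else 0) +
          (if kb = 1 then 1 else 0) := by
        have := c1_full (k := kap D (T :: L)) (k' := kap D L) hT hand.1 hand.2 rfl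
          (fun p _ h1 h2 => hk p h1 h2)
        have e1 : ¬ kap D (T :: L) T.1 = 1 := by
          rw [hk1]
          omega
        have e2 : ¬ kap D (T :: L) T.2 = 1 := by
          rw [hk2]
          omega
        rw [if_neg e1, if_neg e2, ← hka, ← hkb] at this
        unfold c1
        omega
      -- the new useful labels
      set A : Finset ℕ := if ka = 2 then {N0} else ∅ with hA
      set B : Finset ℕ := if kb = 2 then {N0 + 1} else ∅ with hB
      have hAc : A.card = if ka = 2 then 1 else 0 := by
        rw [hA]
        split_ifs <;> simp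
      have hBc : B.card = if kb = 2 then 1 else 0 := by
        rw [hB]
        split_ifs <;> simp
      have hUc : (𝓤 ∪ A ∪ B).card ≤ 𝓤.card + (if ka = 2 then 1 else 0) +
          (if kb = 2 then 1 else 0) := by
        rw [← hAc, ← hBc]
        exact (card_union_le _ _).trans (Nat.add_le_add_right (card_union_le _ _) _)
      have hAmem : ∀ x ∈ A, x = N0 := by
        intro x hx
        rw [hA] at hx
        split_ifs at hx
        · exact mem_singleton.1 hx
        · exact absurd hx (notMem_empty x)
      have hBmem : ∀ x ∈ B, x = N0 + 1 := by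
        intro x hx
        rw [hB] at hx
        split_ifs at hx
        · exact mem_singleton.1 hx
        · exact absurd hx (notMem_empty x)
      have hbd' : ∀ p ∈ D, lab' p < N0 + 2 := by
        intro p hp
        by_cases hp1 : p = T.1
        · rw [hp1, l1]; omega
        · by_cases hp2 : p = T.2
          · rw [hp2, l2]; omega
          · rw [l3 p hp1 hp2]
            have := hI.bd p hp
            omega
      have hubd' : ∀ x ∈ 𝓤 ∪ A ∪ B, x < N0 + 2 := by
        intro x hx
        rw [mem_union, mem_union] at hx
        rcases hx with (hx | hx) | hx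
        · have := hI.ubd x hx
          omega
        · rw [hAmem x hx]; omega
        · rw [hBmem x hx]; omega
      have htwo' : ∀ p ∈ D, kap D L p = 2 → lab' p ∈ 𝓤 ∪ A ∪ B := by
        intro p hp hkp
        rw [mem_union, mem_union]
        by_cases hp1 : p = T.1
        · left; right
          rw [hp1] at hkp
          rw [hp1, l1, hA, if_pos hkp]
          exact mem_singleton_self _
        · by_cases hp2 : p = T.2
          · right
            rw [hp2] at hkp
            rw [hp2, l2, hB, if_pos hkp]
            exact mem_singleton_self _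
          · left; left
            rw [l3 p hp1 hp2]
            apply hI.two p hp
            rw [hk p hp1 hp2]
            exact hkp
      have hrp' : RPS 3 (nx 𝒪 T) L := hI.rp.tail
      by_cases hfin : ka = 1 ∧ kb = 1
      · -- a final step
        have hm1 : T.1 ∈ stp D T := by rw [hst]; exact hand.1
        have hm2 : T.2 ∈ stp D T := by rw [hst]; exact hand.2
        obtain ⟨X1, hc1', hf1⟩ := exists_forces L (stp D T) T.1 hm1
        obtain ⟨X2, hc2', hf2⟩ := exists_forces L (stp D T) T.2 hm2
        rw [hst, ← hka, hfin.1] at hc1'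
        rw [hst, ← hkb, hfin.2] at hc2'
        have hX12 : (X1 ∪ X2).card ≤ 2 := (card_union_le _ _).trans (by omega)
        -- `X1` forces one end
        have hF1 : ∀ O ∈ 𝒪, ∀ O', Pr T O O' → ∀ M' : List (α × α), M'.Sublist L →
            X1 ⊆ O'.image (move M') → T.1 ∈ O' := by
          intro O hO O' hP M' hM' hs
          exact hf1 O' (hsub' O' ⟨O, hO, hP⟩) M' hM' hs
        have hF2 : ∀ O ∈ 𝒪, ∀ O', Pr T O O' → ∀ M' : List (α × α), M'.Sublist L →
            X2 ⊆ O'.image (move M') → T.2 ∈ O' := by
          intro O hO O' hP M' hM' hs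
          exact hf2 O' (hsub' O' ⟨O, hO, hP⟩) M' hM' hs
        have hlab1 : lab T.1 ∈ 𝓤 := hI.two _ hand.1 (by rw [hk1, hfin.1, hfin.2])
        have hlab2 : lab T.2 ∈ 𝓤 := hI.two _ hand.2 (by rw [hk2, hfin.1, hfin.2])
        have hlabne : lab T.1 ≠ lab T.2 := by
          intro heq
          obtain ⟨O, hO, O', hP, M', hM', hs⟩ := hI.rp.pair (X1 ∪ X2) (by omega)
          have h1 := hF1 O hO O' hP M' hM' (union_subset_left hs)
          have h2 := hF2 O hO O' hP M' hM' (union_subset_right hs)
          have h3 := mem_and_of_swap hP ⟨h1, h2⟩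
          exact hT (hI.one O hO _ h3.1 _ h3.2 heq)
        set e0 : Finset ℕ := {lab T.1, lab T.2} with he0
        have he0U : e0 ∈ 𝓤.powersetCard 2 := by
          rw [mem_powersetCard]
          refine ⟨?_, card_pair hlabne⟩
          intro x hx
          rw [he0, mem_insert, mem_singleton] at hx
          rcases hx with rfl | rfl
          · exact hlab1
          · exact hlab2
        have he0E : e0 ∉ 𝓔 := by
          intro hmem
          obtain ⟨X, hX, hF⟩ := hI.cert e0 hmem
          obtain ⟨O, hO, O', hP, M', hM', hs⟩ := hI.rp.pair (X ∪ X1)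
            ((card_union_le _ _).trans (by omega))
          obtain ⟨M, hM, hs'⟩ := lift_run (𝒪 := 𝒪) hP hM' (union_subset_left hs)
          have hno := hF O hO M hM hs'
          have h1 := hF1 O hO O' hP M' hM' (union_subset_right hs)
          rcases mem_or_of_swap hP (Or.inl h1) with h | h
          · exact hno _ h (by rw [he0]; exact mem_insert_self _ _)
          · exact hno _ h (by rw [he0]; exact mem_insert_of_mem (mem_singleton_self _))
        have hcert0 : Fc (nx 𝒪 T) L (fun O => ∀ p ∈ O, lab' p ∉ e0) (X1 ∪ X2) := by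
          rintro O' ⟨O, hO, hP⟩ M' hM' hs p hp hpe
          have h1 := hF1 O hO O' hP M' hM' (union_subset_left hs)
          have h2 := hF2 O hO O' hP M' hM' (union_subset_right hs)
          have h3 := mem_and_of_swap hP ⟨h1, h2⟩
          have hb1 := hI.bd _ hand.1
          have hb2 := hI.bd _ hand.2
          rw [he0, mem_insert, mem_singleton] at hpe
          by_cases hp1 : p = T.1
          · rw [hp1, l1] at hpe
            omega
          · by_cases hp2 : p = T.2
            · rw [hp2, l2] at hpe
              omega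
            · rw [l3 p hp1 hp2] at hpe
              have hpO := mem_of_swap_of_ne hP hp1 hp2 hp
              rcases hpe with h | h
              · exact hp1 (hI.one O hO p hpO _ h3.1 h)
              · exact hp2 (hI.one O hO p hpO _ h3.2 h)
        obtain ⟨n11, n1s, nss, u, i1, i2, i3, i4⟩ := ih (nx 𝒪 T) D lab' (insert e0 𝓔)
          (𝓤 ∪ A ∪ B) (N0 + 2) hne'
          { sub := hsubD
            rp := hrp'
            one := hone'
            cert := by
              intro e he
              rcases mem_insert.1 he with rfl | he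
              · exact ⟨X1 ∪ X2, hX12, hcert0⟩
              · exact hcert' e he
            two := htwo'
            bd := hbd'
            ubd := hubd'
            ee := by
              intro e he
              have hU : 𝓤 ⊆ 𝓤 ∪ A ∪ B :=
                (subset_union_left).trans subset_union_left
              rcases mem_insert.1 he with rfl | he
              · exact powersetCard_mono hU he0U
              · exact powersetCard_mono hU (hI.ee he) }
        rw [card_insert_of_notMem he0E] at i4
        rw [hfin.1, hfin.2] at hc1 hUc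
        simp only [if_true, OfNat.one_ne_ofNat, if_false, add_zero] at hc1 hUc
        refine ⟨n11 + 1, n1s, nss, u, ?_, ?_, i3, ?_⟩
        · rw [hlive, hst, List.length_cons]
          omega
        · rw [hlive, hst]
          omega
        · have := Nat.choose_le_choose 2 (Nat.add_le_add_right hUc u)
          omega
      · -- not a final step
        obtain ⟨n11, n1s, nss, u, i1, i2, i3, i4⟩ := ih (nx 𝒪 T) D lab' 𝓔
          (𝓤 ∪ A ∪ B) (N0 + 2) hne'
          { sub := hsubD
            rp := hrp'
            one := hone'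
            cert := hcert'
            two := htwo'
            bd := hbd'
            ubd := hubd'
            ee := by
              intro e he
              have hU : 𝓤 ⊆ 𝓤 ∪ A ∪ B :=
                (subset_union_left).trans subset_union_left
              exact powersetCard_mono hU (hI.ee he) }
        by_cases h1 : ka = 1 ∨ kb = 1
        · have hsum : (if ka = 1 then 1 else 0) + (if kb = 1 then 1 else 0) = 1 := by
            rcases h1 with h1 | h1
            · rw [if_pos h1, if_neg (fun h => hfin ⟨h1, h⟩)]
            · rw [if_neg (fun h => hfin ⟨h, h1⟩), if_pos h1]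
          have hsum2 : (if ka = 2 then 1 else 0) + (if kb = 2 then 1 else 0) ≤ 1 := by
            rcases h1 with h1 | h1
            · rw [h1]
              split_ifs <;> omega
            · rw [h1]
              split_ifs <;> omega
          refine ⟨n11, n1s + 1, nss, u + 1, ?_, ?_, by omega, ?_⟩
          · rw [hlive, hst, List.length_cons]
            omega
          · rw [hlive, hst]
            omega
          · refine i4.trans (Nat.choose_le_choose 2 ?_)
            omega
        · push Not at h1
          have hc1' : c1 D L = c1 D (T :: L) := by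
            rw [hc1, if_neg h1.1, if_neg h1.2, add_zero, add_zero]
          have hsum2 : (if ka = 2 then 1 else 0) + (if kb = 2 then 1 else 0) ≤ 2 := by
            split_ifs <;> omega
          refine ⟨n11, n1s, nss + 1, u + 2, ?_, ?_, by omega, ?_⟩
          · rw [hlive, hst, List.length_cons]
            omega
          · rw [hlive, hst]
            omega
          · refine i4.trans (Nat.choose_le_choose 2 ?_)
            omega
    · by_cases hor : T.1 ∈ D ∨ T.2 ∈ D
      · -- a splitter
        have hsp := hRP.splitter hor hand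
        obtain ⟨a, b, ha, hb, hab, hset, hka, hor'⟩ : ∃ a b : α, a ∈ D ∧ b ∉ D ∧ a ≠ b ∧
            stp D T = insert b D ∧
            kap D (T :: L) a = min (kap (stp D T) L T.1) (kap (stp D T) L T.2) ∧
            ((a = T.1 ∧ b = T.2) ∨ (a = T.2 ∧ b = T.1)) := by
          have hst : stp D T = insert T.1 (insert T.2 D) := by
            unfold stp
            rw [if_pos hor]
          rcases hor with h | h
          · have h' : T.2 ∉ D := fun h' => hand ⟨h, h'⟩
            refine ⟨T.1, T.2, h, h', hT, ?_, ?_, Or.inl ⟨rfl, rfl⟩⟩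
            · rw [hst]
              exact insert_eq_self.2 (mem_insert_of_mem h)
            · conv_lhs => unfold kap
              rw [if_neg hand, if_pos (Or.inl h), if_pos (Or.inl rfl)]
          · have h' : T.1 ∉ D := fun h' => hand ⟨h', h⟩
            refine ⟨T.2, T.1, h, h', hT.symm, ?_, ?_, Or.inr ⟨rfl, rfl⟩⟩
            · rw [hst, insert_eq_self.2 h]
            · conv_lhs => unfold kap
              rw [if_neg hand, if_pos (Or.inr h), if_pos (Or.inr rfl)]
        have hk : ∀ p, p ≠ a → p ≠ b → kap D (T :: L) p = kap (stp D T) L p := by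
          intro p h1 h2
          have h3 : ¬ (p = T.1 ∨ p = T.2) := by
            rcases hor' with ⟨e1, e2⟩ | ⟨e1, e2⟩
            · rw [← e1, ← e2]
              rintro (h | h)
              exacts [h1 h, h2 h]
            · rw [← e1, ← e2]
              rintro (h | h)
              exacts [h2 h, h1 h]
          conv_lhs => unfold kap
          rw [if_neg hand, if_pos hor, if_neg h3]
        have hka' : kap D (T :: L) a = min (kap (stp D T) L a) (kap (stp D T) L b) := by
          rcases hor' with ⟨e1, e2⟩ | ⟨e1, e2⟩
          · rw [hka, e1, e2]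
          · rw [hka, e1, e2, min_comm]
        have hsp' : 3 < kap (stp D T) L a + kap (stp D T) L b := by
          rcases hor' with ⟨e1, e2⟩ | ⟨e1, e2⟩
          · rw [e1, e2]; exact hsp
          · rw [e1, e2]; omega
        set ka := kap (stp D T) L a with hkaD
        set kb := kap (stp D T) L b with hkbD
        have hka1 : 1 ≤ ka := one_le_kap _ L a
        have hkb1 : 1 ≤ kb := one_le_kap _ L b
        set lab' : α → ℕ := fun p => if p = b then lab a else lab p with hlab'
        have l1 : lab' b = lab a := if_pos rfl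
        have l2 : ∀ p, p ≠ b → lab' p = lab p := fun p hp => if_neg hp
        -- the positions before the step
        have hpre : ∀ O ∈ 𝒪, ∀ O', Pr T O O' → ∃ φ : α → α, Function.Injective φ ∧
            ∀ p ∈ O', φ p ∈ O ∧ lab' p = lab (φ p) := by
          intro O hO O' hP
          have hbO : b ∉ O := fun h => hb (hI.sub O hO h)
          rcases hP with rfl | rfl
          · refine ⟨id, Function.injective_id, fun p hp => ⟨hp, ?_⟩⟩
            exact l2 p (fun h => hbO (h ▸ hp))
          · refine ⟨Equiv.swap T.1 T.2, Equiv.injective _, fun p hp => ?_⟩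
            obtain ⟨x, hx, rfl⟩ := mem_image.1 hp
            rw [Equiv.swap_apply_self]
            refine ⟨hx, ?_⟩
            have hswap : Equiv.swap T.1 T.2 = Equiv.swap a b := by
              rcases hor' with ⟨e1, e2⟩ | ⟨e1, e2⟩
              · rw [e1, e2]
              · rw [e1, e2, Equiv.swap_comm]
            rw [hswap]
            by_cases hxa : x = a
            · rw [hxa, Equiv.swap_apply_left, l1]
            · have hxb : x ≠ b := fun h => hbO (h ▸ hx)
              rw [Equiv.swap_apply_of_ne_of_ne hxa hxb, l2 x hxb]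
        have hI' : Inv L (nx 𝒪 T) (stp D T) lab' 𝓔 𝓤 N0 :=
          { sub := hsub'
            rp := hI.rp.tail
            one := by
              rintro O' ⟨O, hO, hP⟩ p hp q hq hpq
              obtain ⟨φ, hφ, hφ'⟩ := hpre O hO O' hP
              have h1 := hφ' p hp
              have h2 := hφ' q hq
              rw [h1.2, h2.2] at hpq
              exact hφ (hI.one O hO _ h1.1 _ h2.1 hpq)
            cert := by
              intro e he
              obtain ⟨X, hX, hF⟩ := hI.cert e he
              refine ⟨X, hX, ?_⟩
              rintro O' ⟨O, hO, hP⟩ M' hM' hs p hp hpe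
              obtain ⟨M, hM, hs'⟩ := lift_run (𝒪 := 𝒪) hP hM' hs
              obtain ⟨φ, -, hφ'⟩ := hpre O hO O' hP
              have h1 := hφ' p hp
              rw [h1.2] at hpe
              exact hF O hO M hM hs' _ h1.1 hpe
            two := by
              intro p hp hkp
              rw [hset, mem_insert] at hp
              by_cases hpb : p = b
              · rw [hpb] at hkp ⊢
                rw [l1]
                apply hI.two a ha
                rw [hka']
                have : kb = 2 := hkp
                omega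
              · rw [l2 p hpb]
                have hpD := hp.resolve_left hpb
                apply hI.two p hpD
                by_cases hpa : p = a
                · rw [hpa] at hkp ⊢
                  rw [hka']
                  have : ka = 2 := hkp
                  omega
                · rw [hk p hpa hpb]
                  exact hkp
            bd := by
              intro p hp
              rw [hset, mem_insert] at hp
              by_cases hpb : p = b
              · rw [hpb, l1]
                exact hI.bd a ha
              · rw [l2 p hpb]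
                exact hI.bd p (hp.resolve_left hpb)
            ubd := hI.ubd
            ee := hI.ee }
        obtain ⟨n11, n1s, nss, u, i1, i2, i3, i4⟩ := ih (nx 𝒪 T) (stp D T) lab' 𝓔 𝓤 N0 hne' hI'
        have hcard : (stp D T).card = D.card + 1 := by
          rw [hset, card_insert_of_notMem hb]
        have hc1 : c1 (stp D T) L = c1 D (T :: L) := by
          unfold c1
          have e1 : ((stp D T).filter (fun p => kap (stp D T) L p = 1)).card =
              (if kb = 1 then 1 else 0) + ((if ka = 1 then 1 else 0) +
              ∑ p ∈ D.erase a, if kap (stp D T) L p = 1 then 1 else 0) := by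
            rw [card_filter]
            have : ∑ p ∈ stp D T, (if kap (stp D T) L p = 1 then 1 else 0) =
                ∑ p ∈ insert b D, if kap (stp D T) L p = 1 then 1 else 0 :=
              sum_congr hset fun _ _ => rfl
            rw [this, sum_insert hb, ← add_sum_erase D _ ha]
          have e2 : (D.filter (fun p => kap D (T :: L) p = 1)).card =
              (if kap D (T :: L) a = 1 then 1 else 0) +
              ∑ p ∈ D.erase a, if kap D (T :: L) p = 1 then 1 else 0 := by
            rw [card_filter, ← add_sum_erase D _ ha]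
          have e3 : ∑ p ∈ D.erase a, (if kap D (T :: L) p = 1 then 1 else 0) =
              ∑ p ∈ D.erase a, if kap (stp D T) L p = 1 then 1 else 0 := by
            apply sum_congr rfl
            intro p hp
            rw [hk p (ne_of_mem_erase hp) (fun h => hb (h ▸ mem_of_mem_erase hp))]
          rw [e1, e2, e3, hka']
          split_ifs <;> omega
        refine ⟨n11, n1s, nss, u, ?_, ?_, i3, i4⟩
        · rw [hlive, List.length_cons]
          omega
        · rw [hlive]
          omega
      · -- a dead step
        have hst : stp D T = D := by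
          unfold stp
          rw [if_neg hor]
        have hk : ∀ p, kap D (T :: L) p = kap D L p := by
          intro p
          conv_lhs => unfold kap
          rw [if_neg hand, if_neg hor, hst]
        have hnx : ∀ O' ∈ nx 𝒪 T, O' ∈ 𝒪 := by
          rintro O' ⟨O, hO, rfl | rfl⟩
          · exact hO
          · have : O.image (Equiv.swap T.1 T.2) = O := by
              have h1 : ∀ x ∈ O, Equiv.swap T.1 T.2 x = x := by
                intro x hx
                have hxD := hI.sub O hO hx
                apply Equiv.swap_apply_of_ne_of_ne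
                · exact fun h => hor (Or.inl (h ▸ hxD))
                · exact fun h => hor (Or.inr (h ▸ hxD))
              ext y
              rw [mem_image]
              constructor
              · rintro ⟨x, hx, rfl⟩
                rw [h1 x hx]
                exact hx
              · intro hy
                exact ⟨y, hy, h1 y hy⟩
            rw [this]
            exact hO
        have hI' : Inv L (nx 𝒪 T) D lab 𝓔 𝓤 N0 :=
          { sub := fun O' hO' => hI.sub O' (hnx O' hO')
            rp := hI.rp.tail
            one := fun O' hO' => hI.one O' (hnx O' hO')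
            cert := by
              intro e he
              obtain ⟨X, hX, hF⟩ := hI.cert e he
              refine ⟨X, hX, ?_⟩
              intro O' hO' M' hM' hs
              exact hF O' (hnx O' hO') M' (hM'.cons T) hs
            two := fun p hp hkp => hI.two p hp (by rw [hk]; exact hkp)
            bd := hI.bd
            ubd := hI.ubd
            ee := hI.ee }
        obtain ⟨n11, n1s, nss, u, i1, i2, i3, i4⟩ := ih (nx 𝒪 T) D lab 𝓔 𝓤 N0 hne' hI'
        have hc1 : c1 D (T :: L) = c1 D L := by
          unfold c1
          congr 1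
          apply filter_congr
          intro p _
          rw [hk]
        refine ⟨n11, n1s, nss, u, ?_, ?_, i3, i4⟩
        · rw [hlive, hst, List.length_cons]
          omega
        · rw [hlive, hst, hc1]
          exact i2

/-- **The lower bound for `t = 3`.** -/
theorem lower3 {n : ℕ} {h : 3 ≤ n} {L : List (Fin n × Fin n)} (hL : IsNet h L) :
    3 * n ≤ 2 * L.length + 6 ∧ n ≤ (2 * L.length + 6 - 3 * n) ^ 2 := by
  set D : Finset (Fin n) := univ.image (Fin.castLE h) with hD
  have hDc : D.card = 3 := by
    rw [hD, card_image_of_injective _ (Fin.castLE_injective h)]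
    simp
  have hRP : RP 3 D L := hL.rp
  set 𝒪 : Set (Finset (Fin n)) := {O | O ⊆ D} with h𝒪
  have hRPS : RPS 3 𝒪 L := by
    intro X hX
    obtain ⟨O, hO, M, hM, hs⟩ := hRP X hX
    exact ⟨O, hO, M, hM, hs⟩
  have hkap : ∀ p ∈ D, 3 ≤ kap D L p := fun p hp => hL.kap_ge hp
  have hI : Inv L 𝒪 D Fin.val ∅ ∅ n :=
    { sub := fun O hO => hO
      rp := hRPS
      one := fun O _ p _ q _ hpq => Fin.ext hpq
      cert := fun e he => absurd he (notMem_empty e)
      two := fun p hp hkp => by
        have := hkap p hp
        omega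
      bd := fun p _ => p.2
      ubd := fun a ha => absurd ha (notMem_empty a)
      ee := empty_subset _ }
  obtain ⟨n11, n1s, nss, u, i1, i2, i3, i4⟩ := main3 L 𝒪 D Fin.val ∅ ∅ n hL.1 hI
  have hlive : live D L = univ := by
    rw [eq_univ_iff_forall]
    intro p
    obtain ⟨O, hO, M, hM, hs⟩ := hRP {p} (by rw [card_singleton]; norm_num)
    exact image_subset_live hO hM (hs (mem_singleton_self p))
  rw [hlive, card_univ, Fintype.card_fin] at i1 i2
  rw [hDc] at i1
  have hd : c1 D L = 0 := by
    unfold c1
    rw [card_eq_zero, filter_eq_empty_iff]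
    intro p hp h1
    have := hkap p hp
    omega
  rw [card_empty, card_empty, add_zero, zero_add] at i4
  rw [hd] at i2
  set l := L.length
  have hch : 2 * u.choose 2 = u * (u - 1) := by
    rw [Nat.choose_two_right]
    exact Nat.mul_div_cancel' (Nat.even_mul_pred_self _).two_dvd
  have h1 : 3 * n ≤ 2 * l + 6 := by omega
  refine ⟨h1, ?_⟩
  obtain ⟨y, hy⟩ : ∃ y, y = 2 * l + 6 - 3 * n := ⟨_, rfl⟩
  rw [← hy]
  have h2 : u ≤ y := by omega
  have h3 : n1s ≤ y := by omega
  have h4 : u * (u - 1) ≤ y * (y - 1) := Nat.mul_le_mul h2 (by omega)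
  have h5 : y * (y - 1) + y = y ^ 2 := by
    rcases y with _ | y
    · rfl
    · simp only [Nat.add_sub_cancel]
      ring
  omega

end ReachNet
end
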