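import Mathlib
import Pool.Agent.Lib.MP_720f8f_co.Defs
import Pool.Agent.Lib.MP_720f8f_co.StarSim
import Pool.Agent.Lib.MP_720f8f_co.StarLower

section

/-!
# Routing in a forest, and sparse graphs
-/

set_option autoImplicit false

open Finset

namespace ReachNet

section

variable {V E : Type} [DecidableEq V] [DecidableEq E] [Fintype E] (lo up : E → V)

/-- The edges inside `F`. -/
def es (F : Finset V) : Finset E := univ.filter (fun e => lo e ∈ F ∧ up e ∈ F)

/-- The edges inside `F` at the vertex `v`. -/
def inc (F : Finset V) (v : V) : Finset E :=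
  univ.filter (fun e => (lo e ∈ F ∧ up e ∈ F) ∧ (lo e = v ∨ up e = v))

variable {lo up}

theorem mem_es {F : Finset V} {e : E} : e ∈ es lo up F ↔ lo e ∈ F ∧ up e ∈ F := by
  unfold es
  rw [mem_filter]
  exact ⟨fun h => h.2, fun h => ⟨mem_univ _, h⟩⟩

theorem mem_inc {F : Finset V} {v : V} {e : E} :
    e ∈ inc lo up F v ↔ (lo e ∈ F ∧ up e ∈ F) ∧ (lo e = v ∨ up e = v) := by
  unfold inc
  rw [mem_filter]
  exact ⟨fun h => h.2, fun h => ⟨mem_univ _, h⟩⟩

theorem es_mono {F F' : Finset V} (h : F ⊆ F') : es lo up F ⊆ es lo up F' := by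
  intro e he
  rw [mem_es] at he ⊢
  exact ⟨h he.1, h he.2⟩

theorem inc_erase {F : Finset V} {v y : V} :
    inc lo up (F.erase v) y = inc lo up F y \ inc lo up F v := by
  ext e
  rw [mem_sdiff, mem_inc, mem_inc, mem_inc, mem_erase, mem_erase]
  tauto

/-- **Routing in a forest.** -/
theorem tree_route {t : ℕ} (c : V → E → Bool → ℕ) (hne : ∀ e, lo e ≠ up e)
    (hc : ∀ e v w, (lo e = v ∧ up e = w) ∨ (up e = v ∧ lo e = w) →
      ∃ b, c v e b = 0 ∧ c w e (!b) = 0 ∧ c v e (!b) + c w e b ≤ t + 1)
    (V0 : Finset V) (hV0 : ∀ F ⊆ V0, F.Nonempty → ∃ v ∈ F, (inc lo up F v).card ≤ 1) :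
    ∀ n : ℕ, ∀ F ⊆ V0, F.card = n → ∀ x : V → ℕ, ∑ v ∈ F, x v ≤ t →
      ∃ u : E → Bool, ∀ v ∈ F, x v + ∑ e ∈ inc lo up F v, c v e (u e) ≤ t := by
  intro n
  induction n with
  | zero =>
    intro F _ hF x _
    rw [card_eq_zero] at hF
    subst hF
    exact ⟨fun _ => true, fun v hv => absurd hv (notMem_empty v)⟩
  | succ n ih =>
    intro F hFV hF x hx
    obtain ⟨v, hv, hdeg⟩ := hV0 F hFV (card_pos.1 (by omega))
    have hFe : (F.erase v).card = n := by
      rw [card_erase_of_mem hv, hF]
      rfl
    have hFeV : F.erase v ⊆ V0 := (erase_subset _ _).trans hFV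
    have hsumF : x v + ∑ y ∈ F.erase v, x y = ∑ y ∈ F, x y := add_sum_erase F x hv
    have hxv : x v ≤ t := by omega
    by_cases hemp : inc lo up F v = ∅
    · obtain ⟨u, hu⟩ := ih (F.erase v) hFeV hFe x (by omega)
      refine ⟨u, fun y hy => ?_⟩
      by_cases hyv : y = v
      · rw [hyv, hemp, sum_empty]
        omega
      · have := hu y (mem_erase.2 ⟨hyv, hy⟩)
        rw [inc_erase, hemp, sdiff_empty] at this
        exact this
    · have hcard : (inc lo up F v).card = 1 := by
        have : 0 < (inc lo up F v).card := card_pos.2 (nonempty_iff_ne_empty.2 hemp)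
        omega
      obtain ⟨e0, he0⟩ := card_eq_one.1 hcard
      have he0m : e0 ∈ inc lo up F v := by rw [he0]; exact mem_singleton_self _
      rw [mem_inc] at he0m
      -- the other end
      obtain ⟨w, hw, hwF, hwv⟩ : ∃ w, ((lo e0 = v ∧ up e0 = w) ∨ (up e0 = v ∧ lo e0 = w)) ∧
          w ∈ F ∧ w ≠ v := by
        rcases he0m.2 with h | h
        · refine ⟨up e0, Or.inl ⟨h, rfl⟩, he0m.1.2, ?_⟩
          rw [← h]
          exact (hne e0).symm
        · refine ⟨lo e0, Or.inr ⟨h, rfl⟩, he0m.1.1, ?_⟩
          rw [← h]
          exact hne e0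
      obtain ⟨b, hb1, hb2, hb3⟩ := hc e0 v w hw
      have hinc : ∀ y ∈ F, y ≠ v → (e0 ∈ inc lo up F y ↔ y = w) := by
        intro y _ hyv
        rw [mem_inc]
        constructor
        · rintro ⟨-, h⟩
          rcases hw with ⟨h1, h2⟩ | ⟨h1, h2⟩
          · rcases h with h | h
            · exact absurd (h.symm.trans h1) hyv
            · exact h.symm.trans h2
          · rcases h with h | h
            · exact h.symm.trans h2
            · exact absurd (h.symm.trans h1) hyv
        · rintro rfl
          refine ⟨he0m.1, ?_⟩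
          rcases hw with ⟨h1, h2⟩ | ⟨h1, h2⟩
          · exact Or.inr h2
          · exact Or.inl h2
      -- the sums
      have hsum : ∀ (u' : E → Bool) (b' : Bool), ∀ y ∈ F, y ≠ v →
          ∑ e ∈ inc lo up F y, c y e (Function.update u' e0 b' e) =
            (if y = w then c w e0 b' else 0) +
              ∑ e ∈ inc lo up (F.erase v) y, c y e (u' e) := by
        intro u' b' y hy hyv
        rw [← sum_inter_add_sum_sdiff (inc lo up F y) (inc lo up F v), ← inc_erase]
        congr 1
        · rw [he0]
          by_cases hyw : y = w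
          · rw [if_pos hyw, inter_singleton_of_mem ((hinc y hy hyv).2 hyw), sum_singleton,
              Function.update_self, hyw]
          · rw [if_neg hyw, inter_singleton_of_notMem (fun h => hyw ((hinc y hy hyv).1 h)),
              sum_empty]
        · apply sum_congr rfl
          intro e he
          have hee : e ≠ e0 := by
            rintro rfl
            rw [inc_erase, he0, mem_sdiff] at he
            exact he.2 (mem_singleton_self _)
          rw [Function.update_of_ne hee]
      have hsumv : ∀ (u' : E → Bool) (b' : Bool),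
          ∑ e ∈ inc lo up F v, c v e (Function.update u' e0 b' e) = c v e0 b' := by
        intro u' b'
        rw [he0, sum_singleton, Function.update_self]
      by_cases hA : x v + c v e0 (!b) ≤ t
      · obtain ⟨u, hu⟩ := ih (F.erase v) hFeV hFe x (by omega)
        refine ⟨Function.update u e0 (!b), fun y hy => ?_⟩
        by_cases hyv : y = v
        · rw [hyv, hsumv]
          exact hA
        · rw [hsum u (!b) y hy hyv, hb2]
          have := hu y (mem_erase.2 ⟨hyv, hy⟩)
          split_ifs <;> omega
      · have hle : c w e0 b ≤ x v := by omega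
        have hwe : w ∈ F.erase v := mem_erase.2 ⟨hwv, hwF⟩
        have hs2 : ∑ y ∈ F.erase v, Function.update x w (x w + c w e0 b) y =
            c w e0 b + ∑ y ∈ F.erase v, x y := by
          rw [← add_sum_erase _ _ hwe, ← add_sum_erase _ x hwe, Function.update_self]
          have : ∑ y ∈ (F.erase v).erase w, Function.update x w (x w + c w e0 b) y =
              ∑ y ∈ (F.erase v).erase w, x y := by
            apply sum_congr rfl
            intro y hy
            rw [Function.update_of_ne (ne_of_mem_erase hy)]
          rw [this]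
          ring
        obtain ⟨u, hu⟩ := ih (F.erase v) hFeV hFe (Function.update x w (x w + c w e0 b))
          (by rw [hs2]; omega)
        refine ⟨Function.update u e0 b, fun y hy => ?_⟩
        by_cases hyv : y = v
        · rw [hyv, hsumv, hb1]
          omega
        · rw [hsum u b y hy hyv]
          have := hu y (mem_erase.2 ⟨hyv, hy⟩)
          by_cases hyw : y = w
          · subst hyw
            rw [Function.update_self] at this
            rw [if_pos rfl]
            omega
          · rw [Function.update_of_ne hyw] at this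
            rw [if_neg hyw]
            omega

/-- A vertex of small degree. -/
theorem exists_small_degree (F : Finset V) (hF : (es lo up F).card + 1 ≤ F.card) :
    ∃ v ∈ F, (inc lo up F v).card ≤ 1 := by
  by_contra hcon
  push Not at hcon
  have h1 : ∀ v ∈ F, 2 ≤ (inc lo up F v).card := fun v hv => hcon v hv
  have h2 : 2 * F.card ≤ ∑ v ∈ F, (inc lo up F v).card := by
    calc 2 * F.card = ∑ _v ∈ F, 2 := by rw [sum_const, smul_eq_mul, mul_comm]
      _ ≤ _ := sum_le_sum h1
  have h3 : ∀ v ∈ F, (inc lo up F v).card ≤
      ∑ e ∈ es lo up F, ((if lo e = v then 1 else 0) + (if up e = v then 1 else 0)) := by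
    intro v _
    have : inc lo up F v = (es lo up F).filter (fun e => lo e = v ∨ up e = v) := by
      ext e
      rw [mem_inc, mem_filter, mem_es]
    rw [this, card_filter]
    apply sum_le_sum
    intro e _
    split_ifs <;> simp_all
  have h4 : ∑ v ∈ F, (inc lo up F v).card ≤ 2 * (es lo up F).card := by
    refine (sum_le_sum h3).trans ?_
    rw [sum_comm]
    calc _ ≤ ∑ _e ∈ es lo up F, 2 := by
          apply sum_le_sum
          intro e _
          rw [sum_add_distrib, sum_ite_eq, sum_ite_eq]
          split_ifs <;> omega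
      _ = 2 * (es lo up F).card := by rw [sum_const, smul_eq_mul, mul_comm]
  omega

/-- **Upward closures of few vertices are forests** in a locally sparse graph. -/
theorem forest_of_sparse {m t : ℕ} (ty : V → ℕ) (hty : ∀ e, ty (lo e) < ty (up e))
    (hm : ∀ v, ty v ≤ m)
    (hS : ∀ F : Finset V, F.Nonempty → F.card ≤ 2 * t * (m + 1) →
      (es lo up F).card + 1 ≤ F.card)
    (roots V0 : Finset V) (hr : roots.card ≤ t)
    (hV0 : ∀ x ∈ V0, x ∈ roots ∨ ∃ e, up e = x ∧ lo e ∈ V0) :
    ∀ F ⊆ V0, F.Nonempty → (es lo up F).card + 1 ≤ F.card := by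
  classical
  intro F1 hF1 hF1n
  by_contra hcon
  push Not at hcon
  -- a maximal bad set
  obtain ⟨F, hF, hmax⟩ := exists_max_image
    (V0.powerset.filter (fun F => F.Nonempty ∧ F.card ≤ (es lo up F).card)) card
    ⟨F1, mem_filter.2 ⟨mem_powerset.2 hF1, hF1n, by omega⟩⟩
  rw [mem_filter, mem_powerset] at hF
  obtain ⟨hFV, hFn, hFb⟩ := hF
  have hclosed : ∀ x, x ∈ F → x ∉ roots → ∃ e, up e = x ∧ lo e ∈ F := by
    intro x hx hxr
    obtain ⟨e, he1, he2⟩ := (hV0 x (hFV hx)).resolve_left hxr
    refine ⟨e, he1, ?_⟩
    by_contra hlo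
    have hsub : insert e (es lo up F) ⊆ es lo up (insert (lo e) F) := by
      intro e' he'
      rcases mem_insert.1 he' with rfl | he'
      · rw [mem_es]
        exact ⟨mem_insert_self _ _, mem_insert_of_mem (he1 ▸ hx)⟩
      · exact es_mono (subset_insert _ _) he'
    have hnot : e ∉ es lo up F := fun h => hlo (mem_es.1 h).1
    have hc1 := card_le_card hsub
    rw [card_insert_of_notMem hnot] at hc1
    have hc2 : (insert (lo e) F).card = F.card + 1 := card_insert_of_notMem hlo
    have := hmax (insert (lo e) F) (mem_filter.2 ⟨mem_powerset.2 (insert_subset he2 hFV),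
      insert_nonempty _ _, by omega⟩)
    omega
  choose pe hpe1 hpe2 using hclosed
  let par : V → V := fun x => if h : x ∈ F ∧ x ∉ roots then lo (pe x h.1 h.2) else x
  have par_pos : ∀ x (h1 : x ∈ F) (h2 : x ∉ roots), par x = lo (pe x h1 h2) :=
    fun x h1 h2 => dif_pos ⟨h1, h2⟩
  have par_root : ∀ x, x ∈ roots → par x = x := fun x h => dif_neg (fun h' => h'.2 h)
  have par_mem : ∀ x, x ∈ F → par x ∈ F := by
    intro x hx
    by_cases hxr : x ∈ roots
    · rw [par_root x hxr]; exact hx
    · rw [par_pos x hx hxr]; exact hpe2 x hx hxr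
  have par_ty : ∀ x, x ∈ F → x ∉ roots → ty (par x) < ty x := by
    intro x hx hxr
    rw [par_pos x hx hxr]
    have := hty (pe x hx hxr)
    rwa [hpe1 x hx hxr] at this
  have iter_mem : ∀ i x, x ∈ F → par^[i] x ∈ F := by
    intro i
    induction i with
    | zero => exact fun x hx => hx
    | succ i ih =>
      intro x hx
      rw [Function.iterate_succ_apply']
      exact par_mem _ (ih x hx)
  have iter_ty : ∀ i x, x ∈ F → par^[i] x ∈ roots ∨ ty (par^[i] x) + i ≤ ty x := by
    intro i
    induction i with
    | zero => exact fun x _ => Or.inr (le_refl _)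
    | succ i ih =>
      intro x hx
      rw [Function.iterate_succ_apply']
      by_cases hroot : par^[i] x ∈ roots
      · rw [par_root _ hroot]
        exact Or.inl hroot
      · right
        have h1 := (ih x hx).resolve_left hroot
        have h2 := par_ty _ (iter_mem i x hx) hroot
        omega
  have iter_root : ∀ x, x ∈ F → par^[m] x ∈ roots := by
    intro x hx
    by_contra hroot
    have h1 := (iter_ty m x hx).resolve_left hroot
    have h2 := par_ty _ (iter_mem m x hx) hroot
    have h3 := hm x
    omega
  -- parent edges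
  have hfr : ∀ (A : Finset V) (x : V), x ∈ A.filter (fun x => x ∉ roots) → x ∈ A ∧ x ∉ roots :=
    fun A x h => mem_filter.1 h
  let P : Finset E := (F.filter (fun x => x ∉ roots)).attach.image
    (fun x => pe x.1 (hfr F x.1 x.2).1 (hfr F x.1 x.2).2)
  have hPcard : P.card ≤ (F.filter (fun x => x ∉ roots)).card := by
    refine card_image_le.trans ?_
    rw [card_attach]
  have hsplit : (F.filter (fun x => x ∈ roots)).card + (F.filter (fun x => x ∉ roots)).card =
      F.card := card_filter_add_card_filter_not _
  set r := (F.filter (fun x => x ∈ roots)).card with hrdef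
  have hr1 : 1 ≤ r := by
    obtain ⟨x, hx⟩ := hFn
    exact card_pos.2 ⟨par^[m] x, mem_filter.2 ⟨iter_mem m x hx, iter_root x hx⟩⟩
  have hrt : r ≤ t := by
    refine le_trans (card_le_card ?_) hr
    intro x hx
    exact (mem_filter.1 hx).2
  have hdiff : r ≤ (es lo up F \ P).card := by
    have := le_card_sdiff P (es lo up F)
    omega
  obtain ⟨E1, hE1, hE1c⟩ := exists_subset_card_eq hdiff
  let D : Finset V := E1.image lo ∪ E1.image up
  have hDF : D ⊆ F := by
    intro x hx
    rcases mem_union.1 hx with hx | hx
    · obtain ⟨e, he, rfl⟩ := mem_image.1 hx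
      exact (mem_es.1 (mem_sdiff.1 (hE1 he)).1).1
    · obtain ⟨e, he, rfl⟩ := mem_image.1 hx
      exact (mem_es.1 (mem_sdiff.1 (hE1 he)).1).2
  have hDc : D.card ≤ 2 * r := by
    refine (card_union_le _ _).trans ?_
    have h1 : (E1.image lo).card ≤ E1.card := card_image_le
    have h2 : (E1.image up).card ≤ E1.card := card_image_le
    omega
  let F' : Finset V := (D ×ˢ range (m + 1)).image (fun p => par^[p.2] p.1)
  have hF'mem : ∀ x ∈ D, ∀ i ≤ m, par^[i] x ∈ F' := fun x hx i hi =>
    mem_image.2 ⟨(x, i), mem_product.2 ⟨hx, mem_range.2 (by omega)⟩, rfl⟩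
  have hDF' : D ⊆ F' := fun x hx => hF'mem x hx 0 (Nat.zero_le _)
  have hF'F : F' ⊆ F := by
    intro y hy
    obtain ⟨p, hp, rfl⟩ := mem_image.1 hy
    exact iter_mem _ _ (hDF (mem_product.1 hp).1)
  have hF'c : F'.card ≤ 2 * t * (m + 1) := by
    refine card_image_le.trans ?_
    rw [card_product, card_range]
    exact Nat.mul_le_mul_right _ (hDc.trans (Nat.mul_le_mul_left _ hrt))
  have hF'par : ∀ y ∈ F', y ∉ roots → par y ∈ F' := by
    intro y hy hyr
    obtain ⟨p, hp, rfl⟩ := mem_image.1 hy
    obtain ⟨hp1, hp2⟩ := mem_product.1 hp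
    have hi := mem_range.1 hp2
    have him : p.2 ≠ m := by
      intro h
      apply hyr
      show par^[p.2] p.1 ∈ roots
      rw [h]
      exact iter_root _ (hDF hp1)
    have h3 := hF'mem p.1 hp1 (p.2 + 1) (by omega)
    rw [Function.iterate_succ_apply'] at h3
    exact h3
  have hF'n : F'.Nonempty := by
    have : 0 < E1.card := by omega
    obtain ⟨e, he⟩ := card_pos.1 this
    exact ⟨lo e, hDF' (mem_union_left _ (mem_image_of_mem _ he))⟩
  -- count the edges in `F'`
  let P' : Finset E := (F'.filter (fun x => x ∉ roots)).attach.image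
    (fun x => pe x.1 (hF'F (hfr F' x.1 x.2).1) (hfr F' x.1 x.2).2)
  have hP'card : P'.card = (F'.filter (fun x => x ∉ roots)).card := by
    rw [card_image_of_injective, card_attach]
    intro x y hxy
    apply Subtype.ext
    have h1 := hpe1 x.1 (hF'F (hfr F' x.1 x.2).1) (hfr F' x.1 x.2).2
    have h2 := hpe1 y.1 (hF'F (hfr F' y.1 y.2).1) (hfr F' y.1 y.2).2
    rw [← h1, ← h2]
    exact congrArg up hxy
  have hP'P : P' ⊆ P := by
    intro e he
    obtain ⟨x, -, rfl⟩ := mem_image.1 he
    refine mem_image.2 ⟨⟨x.1, mem_filter.2 ⟨hF'F (hfr F' x.1 x.2).1, (hfr F' x.1 x.2).2⟩⟩,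
      mem_attach _ _, rfl⟩
  have hP'es : P' ⊆ es lo up F' := by
    intro e he
    obtain ⟨x, -, rfl⟩ := mem_image.1 he
    have hx1 := (hfr F' x.1 x.2).1
    have hx2 := (hfr F' x.1 x.2).2
    rw [mem_es]
    refine ⟨?_, ?_⟩
    · have := hF'par x.1 hx1 hx2
      rwa [par_pos x.1 (hF'F hx1) hx2] at this
    · rw [hpe1]
      exact hx1
  have hE1es : E1 ⊆ es lo up F' := by
    intro e he
    rw [mem_es]
    exact ⟨hDF' (mem_union_left _ (mem_image_of_mem _ he)),
      hDF' (mem_union_right _ (mem_image_of_mem _ he))⟩
  have hdis : Disjoint P' E1 := by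
    rw [disjoint_left]
    intro e he he'
    exact (mem_sdiff.1 (hE1 he')).2 (hP'P he)
  have hc1 : P'.card + E1.card ≤ (es lo up F').card := by
    rw [← card_union_of_disjoint hdis]
    exact card_le_card (union_subset hP'es hE1es)
  have hsplit' : (F'.filter (fun x => x ∈ roots)).card +
      (F'.filter (fun x => x ∉ roots)).card = F'.card := card_filter_add_card_filter_not _
  have hroots' : (F'.filter (fun x => x ∈ roots)).card ≤ r :=
    card_le_card (filter_subset_filter _ hF'F)
  have := hS F' hF'n hF'c
  omega

end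

end ReachNet
end

section

section

/-!
# A greedy construction of locally sparse graphs

The lower ends `lo e` of the edges are given, the upper ends are chosen one after the other.
-/

set_option autoImplicit false

open Finset

namespace ReachNet

section

variable {V E : Type} [DecidableEq V] [DecidableEq E]

/-- The edges of `A` inside `F`. -/
def esA (lo up : E → V) (A : Finset E) (F : Finset V) : Finset E :=
  A.filter (fun e => lo e ∈ F ∧ up e ∈ F)

/-- The neighbourhood of `x`. -/
def gnb (lo up : E → V) (A : Finset E) (x : V) : Finset V :=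
  insert x ((A.filter (fun e => lo e = x)).image up ∪ (A.filter (fun e => up e = x)).image lo)

/-- Balls. -/
def gball (lo up : E → V) (A : Finset E) : ℕ → V → Finset V
  | 0, v => {v}
  | j + 1, v => (gball lo up A j v).biUnion (gnb lo up A)

variable {lo up : E → V} {A : Finset E}

theorem mem_esA {F : Finset V} {e : E} :
    e ∈ esA lo up A F ↔ e ∈ A ∧ lo e ∈ F ∧ up e ∈ F := by
  unfold esA
  rw [mem_filter]

theorem gball_subset_succ (j : ℕ) (v : V) :
    gball lo up A j v ⊆ gball lo up A (j + 1) v := by
  intro x hx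
  exact mem_biUnion.2 ⟨x, hx, mem_insert_self _ _⟩

theorem gball_mono {i j : ℕ} (hij : i ≤ j) (v : V) :
    gball lo up A i v ⊆ gball lo up A j v := by
  induction hij with
  | refl => exact Subset.rfl
  | step _ ih => exact ih.trans (gball_subset_succ _ v)

theorem card_gnb_le {D M : ℕ} (hD : ∀ v, (A.filter (fun e => lo e = v)).card ≤ D)
    (hM : ∀ v, (A.filter (fun e => up e = v)).card ≤ M) (x : V) :
    (gnb lo up A x).card ≤ 1 + (D + M) := by
  unfold gnb
  refine (card_insert_le _ _).trans ?_
  rw [add_comm]
  apply Nat.add_le_add_left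
  refine (card_union_le _ _).trans (add_le_add ?_ ?_)
  · exact card_image_le.trans (hD x)
  · exact card_image_le.trans (hM x)

theorem card_gball_le {D M : ℕ} (hD : ∀ v, (A.filter (fun e => lo e = v)).card ≤ D)
    (hM : ∀ v, (A.filter (fun e => up e = v)).card ≤ M) (j : ℕ) (v : V) :
    (gball lo up A j v).card ≤ (1 + (D + M)) ^ j := by
  induction j with
  | zero => exact le_of_eq (card_singleton v)
  | succ j ih =>
    unfold gball
    refine (card_biUnion_le_card_mul _ _ (1 + (D + M)) (fun x _ => card_gnb_le hD hM x)).trans ?_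
    rw [pow_succ]
    exact Nat.mul_le_mul_right _ ih

/-- A set with many edges is contained in a ball. -/
theorem dense_subset_gball {R : ℕ}
    (hS : ∀ F : Finset V, F.Nonempty → F.card ≤ R → (esA lo up A F).card + 1 ≤ F.card)
    {F : Finset V} (hFR : F.card ≤ R) (hd : F.card ≤ (esA lo up A F).card + 1) {v : V}
    (hv : v ∈ F) : F ⊆ gball lo up A R v := by
  have claim : ∀ j : ℕ, j + 1 ≤ F.card → ∃ B ⊆ F, B.card = j + 1 ∧ B ⊆ gball lo up A j v := by
    intro j
    induction j with
    | zero =>
      intro _
      exact ⟨{v}, singleton_subset_iff.2 hv, card_singleton v, Subset.rfl⟩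
    | succ j ih =>
      intro hj
      obtain ⟨B, h1, h2, h3⟩ := ih (by omega)
      -- an edge between `B` and `F \ B`
      have hBn : B.Nonempty := card_pos.1 (by omega)
      have hcs : (F \ B).card + B.card = F.card := card_sdiff_add_card_eq_card h1
      have hFBn : (F \ B).Nonempty := card_pos.1 (by omega)
      have k1 := hS B hBn ((card_le_card h1).trans hFR)
      have k2 := hS (F \ B) hFBn ((card_le_card sdiff_subset).trans hFR)
      obtain ⟨e, he, he1, he2⟩ : ∃ e ∈ esA lo up A F, e ∉ esA lo up A B ∧
          e ∉ esA lo up A (F \ B) := by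
        by_contra hcon
        push Not at hcon
        have hsub : esA lo up A F ⊆ esA lo up A B ∪ esA lo up A (F \ B) := by
          intro e he
          rw [mem_union]
          by_cases h : e ∈ esA lo up A B
          · exact Or.inl h
          · exact Or.inr (hcon e he h)
        have h4 := (card_le_card hsub).trans (card_union_le _ _)
        omega
      rw [mem_esA] at he
      obtain ⟨heA, heF1, heF2⟩ := he
      rw [mem_esA] at he1 he2
      obtain ⟨x, y, hxB, hyF, hyB, hxy⟩ : ∃ x y, x ∈ B ∧ y ∈ F ∧ y ∉ B ∧
          y ∈ gnb lo up A x := by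
        by_cases hl : lo e ∈ B
        · have hu : up e ∉ B := fun h => he1 ⟨heA, hl, h⟩
          refine ⟨lo e, up e, hl, heF2, hu, ?_⟩
          unfold gnb
          exact mem_insert_of_mem (mem_union_left _ (mem_image.2 ⟨e, mem_filter.2 ⟨heA, rfl⟩, rfl⟩))
        · have hu : up e ∈ B := by
            by_contra hu
            exact he2 ⟨heA, mem_sdiff.2 ⟨heF1, hl⟩, mem_sdiff.2 ⟨heF2, hu⟩⟩
          refine ⟨up e, lo e, hu, heF1, hl, ?_⟩
          unfold gnb
          exact mem_insert_of_mem (mem_union_right _ (mem_image.2 ⟨e, mem_filter.2 ⟨heA, rfl⟩, rfl⟩))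
      refine ⟨insert y B, insert_subset hyF h1, ?_, ?_⟩
      · rw [card_insert_of_notMem hyB, h2]
      · intro z hz
        rcases mem_insert.1 hz with rfl | hz
        · exact mem_biUnion.2 ⟨x, h3 hxB, hxy⟩
        · exact gball_subset_succ _ _ (h3 hz)
  have hpos : 0 < F.card := card_pos.2 ⟨v, hv⟩
  obtain ⟨B, h1, h2, h3⟩ := claim (F.card - 1) (by omega)
  have heq : B = F := eq_of_subset_of_card_le h1 (by omega)
  rw [heq] at h3
  exact h3.trans (gball_mono (by omega) v)

end

/-- **The greedy construction.** -/
theorem exists_graph {V E : Type} [Fintype V] [DecidableEq V] [Fintype E] [DecidableEq E]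
    (lo : E → V) (kk : E → ℕ) (ty : V → ℕ) (D M R : ℕ) (hM : 1 ≤ M)
    (hD : ∀ v, (univ.filter (fun e => lo e = v)).card ≤ D)
    (hcap : ∀ e0 : E, (univ.filter (fun e => kk e = kk e0)).card +
      M * ((1 + (D + M)) ^ R + 1) ≤ M * (univ.filter (fun v => ty v = kk e0)).card) :
    ∃ up : E → V, (∀ e, ty (up e) = kk e) ∧
      (∀ v, (univ.filter (fun e => up e = v)).card ≤ M) ∧
      ∀ F : Finset V, F.Nonempty → F.card ≤ R → (es lo up F).card + 1 ≤ F.card := by
  suffices h : ∀ A : Finset E, ∃ up : E → V, (∀ e ∈ A, ty (up e) = kk e) ∧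
      (∀ v, (A.filter (fun e => up e = v)).card ≤ M) ∧
      ∀ F : Finset V, F.Nonempty → F.card ≤ R → (esA lo up A F).card + 1 ≤ F.card by
    obtain ⟨up, h1, h2, h3⟩ := h univ
    exact ⟨up, fun e => h1 e (mem_univ e), h2, h3⟩
  intro A
  induction A using Finset.induction_on with
  | empty =>
    refine ⟨lo, fun e he => absurd he (notMem_empty e), fun v => by simp, ?_⟩
    intro F hF _
    have : esA lo lo (∅ : Finset E) F = ∅ := filter_empty _
    rw [this, card_empty]
    have := card_pos.2 hF
    omega
  | insert e0 A he0 ih =>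
    obtain ⟨up, h1, h2, h3⟩ := ih
    have hDA : ∀ v, (A.filter (fun e => lo e = v)).card ≤ D := fun v =>
      (card_le_card (filter_subset_filter _ (subset_univ A))).trans (hD v)
    have hball := card_gball_le hDA h2 R (lo e0)
    have hc := hcap e0
    -- the saturated vertices
    set T := univ.filter (fun v => ty v = kk e0) with hT
    set Sat := T.filter (fun v => M ≤ (A.filter (fun e => up e = v)).card) with hSat
    have hSatc : M * Sat.card ≤ (univ.filter (fun e => kk e = kk e0)).card := by
      have e1 : M * Sat.card ≤ ∑ v ∈ Sat, (A.filter (fun e => up e = v)).card := by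
        rw [mul_comm, ← smul_eq_mul, ← sum_const]
        apply sum_le_sum
        intro v hv
        exact (mem_filter.1 hv).2
      have e2 : ∑ v ∈ Sat, (A.filter (fun e => up e = v)).card =
          (A.filter (fun e => up e ∈ Sat)).card := by
        have hf := card_eq_sum_card_fiberwise (f := up) (s := A.filter (fun e => up e ∈ Sat))
          (t := Sat) (fun e he => mem_coe.2 (mem_filter.1 (mem_coe.1 he)).2)
        rw [hf]
        apply sum_congr rfl
        intro v hv
        congr 1
        ext e
        rw [mem_filter, mem_filter, mem_filter]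
        constructor
        · rintro ⟨a, b⟩
          exact ⟨⟨a, b ▸ hv⟩, b⟩
        · rintro ⟨⟨a, -⟩, b⟩
          exact ⟨a, b⟩
      rw [e2] at e1
      refine e1.trans (card_le_card ?_)
      intro e he
      obtain ⟨he1, he2⟩ := mem_filter.1 he
      rw [mem_filter]
      refine ⟨mem_univ _, ?_⟩
      rw [← h1 e he1]
      exact (mem_filter.1 (mem_filter.1 he2).1).2
    have hTc : Sat.card + ((1 + (D + M)) ^ R + 1) ≤ T.card := by
      have : M * (Sat.card + ((1 + (D + M)) ^ R + 1)) ≤ M * T.card := by
        rw [mul_add]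
        exact (Nat.add_le_add_right hSatc _).trans hc
      exact Nat.le_of_mul_le_mul_left this hM
    obtain ⟨w, hwT, hwS, hwb⟩ : ∃ w ∈ T, w ∉ Sat ∧ w ∉ gball lo up A R (lo e0) := by
      by_contra hcon
      push Not at hcon
      have hsub : T ⊆ Sat ∪ gball lo up A R (lo e0) := by
        intro w hw
        rw [mem_union]
        by_cases h : w ∈ Sat
        · exact Or.inl h
        · exact Or.inr (hcon w hw h)
      have := (card_le_card hsub).trans (card_union_le _ _)
      omega
    have hwty : ty w = kk e0 := (mem_filter.1 hwT).2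
    have hwM : (A.filter (fun e => up e = w)).card < M := by
      by_contra h
      push Not at h
      exact hwS (mem_filter.2 ⟨hwT, h⟩)
    set up' := Function.update up e0 w with hup'
    have hup0 : up' e0 = w := Function.update_self _ _ _
    have hupA : ∀ e ∈ A, up' e = up e := by
      intro e he
      have hne : e ≠ e0 := by
        rintro rfl
        exact he0 he
      exact Function.update_of_ne hne _ _
    have hfil : ∀ v, A.filter (fun e => up' e = v) = A.filter (fun e => up e = v) := by
      intro v
      apply filter_congr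
      intro e he
      rw [hupA e he]
    have hfil2 : ∀ F : Finset V, A.filter (fun e => lo e ∈ F ∧ up' e ∈ F) =
        esA lo up A F := by
      intro F
      unfold esA
      apply filter_congr
      intro e he
      rw [hupA e he]
    refine ⟨up', ?_, ?_, ?_⟩
    · intro e he
      rcases mem_insert.1 he with rfl | he
      · rw [hup0, hwty]
      · rw [hupA e he]
        exact h1 e he
    · intro v
      rw [filter_insert, hup0, hfil]
      split_ifs with hv
      · rw [← hv]
        refine (card_insert_le _ _).trans ?_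
        omega
      · exact h2 v
    · intro F hF hFR
      have h3F := h3 F hF hFR
      unfold esA
      rw [filter_insert, hup0, hfil2]
      split_ifs with hin
      · rw [card_insert_of_notMem (fun h => he0 (mem_esA.1 h).1)]
        by_contra hcon
        have hd : F.card ≤ (esA lo up A F).card + 1 := by omega
        exact hwb (dense_subset_gball h3 hFR hd hin.1 hin.2)
      · exact h3F

end ReachNet
end

section

/-!
# The local lemma for a block of star transpositions

A block touches the leaves of a list `l` one after the other. `fs x` says that `x` is touched for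
the first time, `k x` is the value of `x`, `Y` is the set of the demanded leaves and `B` the set of
the unavailable ones.
-/

set_option autoImplicit false

open Finset

namespace ReachNet

section

variable {Λ : Type} (t : ℕ) (fs : Λ → Prop) [DecidablePred fs] (k : Λ → ℕ)

/-- The next bound. -/
def stepb (b : ℕ) (x : Λ) : ℕ := if fs x then min b (k x) else min (b + 1) (t + 2 - k x)

/-- The check for one leaf. -/
def chk (b : ℕ) (x : Λ) : Prop := if fs x then t + 1 ≤ b + k x else k x ≤ b + 1 ∧ k x ≤ t

/-- All checks hold. -/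
def Ok : ℕ → List Λ → Prop
  | _, [] => True
  | b, x :: l => chk t fs k b x ∧ Ok (stepb t fs k b x) l

/-- The final bound. -/
def res : ℕ → List Λ → ℕ
  | b, [] => b
  | b, x :: l => res (stepb t fs k b x) l

theorem stepb_mono {b b' : ℕ} (h : b ≤ b') (x : Λ) : stepb t fs k b x ≤ stepb t fs k b' x := by
  unfold stepb
  split_ifs <;> omega

theorem chk_mono {b b' : ℕ} (h : b ≤ b') (x : Λ) (hc : chk t fs k b x) : chk t fs k b' x := by
  unfold chk at *
  split_ifs at * <;> omega

theorem Ok_append (b : ℕ) (l l' : List Λ) :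
    Ok t fs k b (l ++ l') ↔ Ok t fs k b l ∧ Ok t fs k (res t fs k b l) l' := by
  induction l generalizing b with
  | nil => simp [Ok, res]
  | cons x l ih =>
    rw [List.cons_append]
    show chk t fs k b x ∧ Ok t fs k (stepb t fs k b x) (l ++ l') ↔
      (chk t fs k b x ∧ Ok t fs k (stepb t fs k b x) l) ∧
        Ok t fs k (res t fs k (stepb t fs k b x) l) l'
    rw [ih, and_assoc]

theorem res_append (b : ℕ) (l l' : List Λ) :
    res t fs k b (l ++ l') = res t fs k (res t fs k b l) l' := by
  induction l generalizing b with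
  | nil => rfl
  | cons x l ih =>
    rw [List.cons_append]
    exact ih _

/-- A list of second touches. -/
theorem Ok_wires (l : List Λ) : ∀ h : ℕ,
    (∀ (i : ℕ) (hi : i < l.length), ¬ fs l[i] ∧ k l[i] ≤ h + i + 1 ∧ k l[i] + (h + i) ≤ t + 1 ∧
      k l[i] ≤ t) →
    ∀ b, h ≤ b → Ok t fs k b l ∧ h + l.length ≤ res t fs k b l := by
  induction l with
  | nil => exact fun h _ b hb => ⟨trivial, hb⟩
  | cons x l ih =>
    intro h hl b hb
    obtain ⟨h1, h2, h3, h4⟩ := hl 0 (by simp)
    simp only [List.getElem_cons_zero] at h1 h2 h3 h4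
    have hs : stepb t fs k b x = min (b + 1) (t + 2 - k x) := by
      unfold stepb
      rw [if_neg h1]
    obtain ⟨k1, k2⟩ := ih (h + 1) (by
      intro i hi
      have := hl (i + 1) (by simpa using hi)
      simp only [List.getElem_cons_succ] at this
      refine ⟨this.1, by omega, by omega, this.2.2.2⟩) (stepb t fs k b x) (by rw [hs]; omega)
    refine ⟨⟨?_, k1⟩, ?_⟩
    · unfold chk
      rw [if_neg h1]
      omega
    · rw [List.length_cons]
      show _ ≤ res t fs k (stepb t fs k b x) l
      omega

/-- A segment: possibly a first touch of value `h`, and then second touches. -/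
theorem Ok_segment (o : Option Λ) (l : List Λ) (h : ℕ)
    (ho : ∀ x, o = some x → fs x ∧ k x = h)
    (hl : ∀ (i : ℕ) (hi : i < l.length), ¬ fs l[i] ∧ k l[i] ≤ h + i + 1 ∧
      k l[i] + (h + i) ≤ t + 1 ∧ k l[i] ≤ t) (hlen : l.length = t + 1 - 2 * h)
    (b : ℕ) (hb : h + (t + 1 - 2 * h) ≤ b) :
    Ok t fs k b (o.toList ++ l) ∧ h + (t + 1 - 2 * h) ≤ res t fs k b (o.toList ++ l) := by
  rw [Ok_append, res_append]
  rcases o with _ | x
  · obtain ⟨k1, k2⟩ := Ok_wires t fs k l h hl b (by omega)
    refine ⟨⟨trivial, k1⟩, ?_⟩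
    rw [hlen] at k2
    exact k2
  · obtain ⟨h1, h2⟩ := ho x rfl
    have hs : res t fs k b (some x).toList = min b (k x) := by
      show stepb t fs k b x = _
      unfold stepb
      rw [if_pos h1]
    obtain ⟨k1, k2⟩ := Ok_wires t fs k l h hl (min b (k x)) (by omega)
    rw [hs]
    refine ⟨⟨⟨?_, trivial⟩, k1⟩, ?_⟩
    · unfold chk
      rw [if_pos h1]
      omega
    · rw [hlen] at k2
      exact k2

/-- Many segments. -/
theorem Ok_flatMap {ι : Type} (s : ι → List Λ) (B : ℕ) (is : List ι)
    (h : ∀ i ∈ is, ∀ b, B ≤ b → Ok t fs k b (s i) ∧ B ≤ res t fs k b (s i)) :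
    ∀ b, B ≤ b → Ok t fs k b (is.flatMap s) := by
  induction is with
  | nil => exact fun b _ => trivial
  | cons i is ih =>
    intro b hb
    rw [List.flatMap_cons, Ok_append]
    obtain ⟨h1, h2⟩ := h i List.mem_cons_self b hb
    exact ⟨h1, ih (fun j hj => h j (List.mem_cons_of_mem _ hj)) _ h2⟩

/-- The cost of the leaf `x`. -/
noncomputable def lcost (Y B : Λ → Prop) (x : Λ) : ℕ := by
  classical
  exact (if Y x then (if fs x then k x else 1) else 0) +
    (if ¬ fs x ∧ B x then t + 1 - k x else 0)

end

variable {Λ P : Type} [DecidableEq P]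

/-- **The local lemma.** -/
theorem local_route (t : ℕ) (fs : Λ → Prop) [DecidablePred fs] (k : Λ → ℕ) (Y B : Λ → Prop)
    (hfB : ∀ x, fs x → B x) (z : P) (lf : Λ → P) (hlf : Function.Injective lf)
    (hz : ∀ x, lf x ≠ z) (l : List Λ) :
    l.Nodup → ∀ (b acc : ℕ) (gd : Prop), Ok t fs k b l → (¬ gd → b ≤ acc) →
      acc + (l.map (lcost t fs k Y B)).sum ≤ t →
      ∃ M : List (P × P), M.Sublist (l.map (fun x => (z, lf x))) ∧
        (∀ x ∈ l, B x → ∀ y ∈ l, Y y → move M (lf x) ≠ lf y) ∧
        (¬ gd → ∀ y ∈ l, Y y → move M z ≠ lf y) := by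
  classical
  induction l with
  | nil =>
    intro _ b acc gd _ _ _
    exact ⟨[], List.Sublist.refl _, fun x hx => absurd hx List.not_mem_nil,
      fun _ y hy => absurd hy List.not_mem_nil⟩
  | cons x l ih =>
    intro hnd b acc gd hok hgd hcost
    rw [List.nodup_cons] at hnd
    obtain ⟨hchk, hok'⟩ := hok
    rw [List.map_cons, List.sum_cons] at hcost
    -- tokens of leaves outside `l` are fixed
    have hfix : ∀ M : List (P × P), M.Sublist (l.map (fun x => (z, lf x))) → ∀ y, y ∉ l →
        move M (lf y) = lf y := by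
      intro M hM y hy
      apply move_of_notMem
      intro T hT
      obtain ⟨w, hw, rfl⟩ := List.mem_map.1 (hM.subset hT)
      exact ⟨(hz y).symm, fun h => hy (hlf h ▸ hw)⟩
    have hxfix : ∀ M : List (P × P), M.Sublist (l.map (fun x => (z, lf x))) →
        move M (lf x) = lf x := fun M hM => hfix M hM x hnd.1
    -- no swap
    have noswap : ∀ (acc' : ℕ), (¬ gd → stepb t fs k b x ≤ acc') →
        acc' + (l.map (lcost t fs k Y B)).sum ≤ t → ¬ (B x ∧ Y x) →
        ∃ M : List (P × P), M.Sublist ((x :: l).map (fun x => (z, lf x))) ∧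
          (∀ x' ∈ x :: l, B x' → ∀ y ∈ x :: l, Y y → move M (lf x') ≠ lf y) ∧
          (¬ gd → ∀ y ∈ x :: l, Y y → move M z ≠ lf y) := by
      intro acc' h1 h2 h3
      obtain ⟨M, hM, m1, m2⟩ := ih hnd.2 _ acc' gd hok' h1 h2
      refine ⟨M, hM.cons _, ?_, ?_⟩
      · intro x' hx' hB y hy hY
        rcases List.mem_cons.1 hx' with rfl | hx2
        · rw [hxfix M hM]
          intro h
          have := hlf h
          subst this
          exact h3 ⟨hB, hY⟩
        · rcases List.mem_cons.1 hy with rfl | hy2
          · intro h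
            rw [← hxfix M hM] at h
            have := hlf (move_injective M h)
            exact hnd.1 (this ▸ hx2)
          · exact m1 x' hx2 hB y hy2 hY
      · intro hg y hy hY
        rcases List.mem_cons.1 hy with rfl | hy
        · intro h
          rw [← hxfix M hM] at h
          exact hz _ (move_injective M h).symm
        · exact m2 hg y hy hY
    -- swap
    have doswap : ∀ (acc' : ℕ) (gd' : Prop), (¬ gd' → stepb t fs k b x ≤ acc') →
        acc' + (l.map (lcost t fs k Y B)).sum ≤ t → (B x → ¬ gd') → (¬ gd → ¬ Y x) →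
        ∃ M : List (P × P), M.Sublist ((x :: l).map (fun x => (z, lf x))) ∧
          (∀ x' ∈ x :: l, B x' → ∀ y ∈ x :: l, Y y → move M (lf x') ≠ lf y) ∧
          (¬ gd → ∀ y ∈ x :: l, Y y → move M z ≠ lf y) := by
      intro acc' gd' h1 h2 h3 h4
      obtain ⟨M, hM, m1, m2⟩ := ih hnd.2 _ acc' gd' hok' h1 h2
      have hlx : ∀ x', x' ≠ x → move ((z, lf x) :: M) (lf x') = move M (lf x') := by
        intro x' hx'
        rw [move_cons, Equiv.swap_apply_of_ne_of_ne (hz x') (fun h => hx' (hlf h))]
      have hself : move ((z, lf x) :: M) (lf x) = move M z := by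
        rw [move_cons, Equiv.swap_apply_right]
      have hzz : move ((z, lf x) :: M) z = lf x := by
        rw [move_cons, Equiv.swap_apply_left]
        exact hxfix M hM
      refine ⟨(z, lf x) :: M, ?_, ?_, ?_⟩
      · rw [List.map_cons]
        exact hM.cons_cons _
      · intro x' hx' hB y hy hY
        by_cases hxx : x' = x
        · subst hxx
          rw [hself]
          rcases List.mem_cons.1 hy with rfl | hy
          · intro h
            rw [← hxfix M hM] at h
            exact hz _ (move_injective M h).symm
          · exact m2 (h3 hB) y hy hY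
        · rw [hlx x' hxx]
          have hx'l : x' ∈ l := (List.mem_cons.1 hx').resolve_left hxx
          rcases List.mem_cons.1 hy with rfl | hy
          · intro h
            rw [← hxfix M hM] at h
            exact hxx (hlf (move_injective M h))
          · exact m1 x' hx'l hB y hy hY
      · intro hg y hy hY
        rw [hzz]
        intro h
        have := hlf h
        subst this
        exact h4 hg hY
    by_cases hfx : fs x
    · have hB := hfB x hfx
      have hst : stepb t fs k b x = min b (k x) := by
        unfold stepb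
        rw [if_pos hfx]
      have hck : t + 1 ≤ b + k x := by
        unfold chk at hchk
        rwa [if_pos hfx] at hchk
      by_cases hY : Y x
      · have hc : lcost t fs k Y B x = k x := by
          unfold lcost
          rw [if_pos hY, if_pos hfx, if_neg (by tauto)]
          rfl
        rw [hc] at hcost
        have hg : gd := by
          by_contra hg
          have := hgd hg
          omega
        exact doswap (acc + k x) False (fun _ => by rw [hst]; omega) (by omega)
          (fun _ h => h) (fun h => absurd hg h)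
      · exact noswap acc (fun h => by have := hgd h; rw [hst]; omega) (by omega)
          (fun h => hY h.2)
    · have hst : stepb t fs k b x = min (b + 1) (t + 2 - k x) := by
        unfold stepb
        rw [if_neg hfx]
      have hck : k x ≤ b + 1 ∧ k x ≤ t := by
        unfold chk at hchk
        rwa [if_neg hfx] at hchk
      by_cases hY : Y x
      · by_cases hB : B x
        · have hc : lcost t fs k Y B x = 1 + (t + 1 - k x) := by
            unfold lcost
            rw [if_pos hY, if_neg hfx, if_pos ⟨hfx, hB⟩]
          rw [hc] at hcost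
          have hg : gd := by
            by_contra hg
            have := hgd hg
            omega
          exact doswap (acc + (1 + (t + 1 - k x))) False (fun _ => by rw [hst]; omega) (by omega)
            (fun _ h => h) (fun h => absurd hg h)
        · have hc : lcost t fs k Y B x = 1 := by
            unfold lcost
            rw [if_pos hY, if_neg hfx, if_neg (fun h => hB h.2)]
          rw [hc] at hcost
          exact noswap (acc + 1) (fun h => by have := hgd h; rw [hst]; omega) (by omega)
            (fun h => hB h.1)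
      · by_cases hB : B x
        · have hc : lcost t fs k Y B x = t + 1 - k x := by
            unfold lcost
            rw [if_neg hY, if_pos ⟨hfx, hB⟩, zero_add]
          rw [hc] at hcost
          exact noswap (acc + (t + 1 - k x)) (fun h => by have := hgd h; rw [hst]; omega)
            (by omega) (fun h => hY h.2)
        · by_cases hg : gd
          · exact noswap acc (fun h => absurd hg h) (by omega) (fun h => hY h.2)
          · exact doswap acc True (fun h => absurd trivial h) (by omega) (fun h => absurd h hB)
              (fun _ => hY)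

end ReachNet
end

section

/-!
# Routing in the star network: the local lemma and the forest
-/

set_option autoImplicit false

open Finset

namespace ReachNet

section

variable {V S E : Type}

/-- The block of the last touch. -/
def loL (bl : S → V) (lo : E → V) : S ⊕ E → V := Sum.elim bl lo

@[simp] theorem loL_inl (bl : S → V) (lo : E → V) (s : S) : loL bl lo (Sum.inl s) = bl s := rfl
@[simp] theorem loL_inr (bl : S → V) (lo : E → V) (e : E) : loL bl lo (Sum.inr e) = lo e := rfl

variable [Fintype V] [DecidableEq V] [Fintype S] [DecidableEq S] [Fintype E] [DecidableEq E]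

/-- The cost of the state of an edge at a vertex. -/
def ecost (t : ℕ) (lo up : E → V) (ty : V → ℕ) (v : V) (e : E) (b : Bool) : ℕ :=
  if b = true then (if up e = v then ty (up e) + 1 else 0)
  else (if lo e = v then t + 1 - (ty (up e) + 1) else 0)

theorem ecost_spec {t : ℕ} {lo up : E → V} {ty : V → ℕ} (hne : ∀ e, lo e ≠ up e)
    (hk : ∀ e, ty (up e) ≤ t) (e : E) (v w : V)
    (h : (lo e = v ∧ up e = w) ∨ (up e = v ∧ lo e = w)) :
    ∃ b, ecost t lo up ty v e b = 0 ∧ ecost t lo up ty w e (!b) = 0 ∧
      ecost t lo up ty v e (!b) + ecost t lo up ty w e b ≤ t + 1 := by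
  have hk' := hk e
  rcases h with ⟨rfl, rfl⟩ | ⟨rfl, rfl⟩
  · refine ⟨true, ?_, ?_, ?_⟩
    · unfold ecost
      rw [if_pos rfl, if_neg (hne e).symm]
    · unfold ecost
      rw [if_neg (by simp), if_neg (hne e)]
    · unfold ecost
      rw [if_neg (by simp), if_pos rfl, if_pos rfl, if_pos rfl]
      omega
  · refine ⟨false, ?_, ?_, ?_⟩
    · unfold ecost
      rw [if_neg (by simp), if_neg (hne e)]
    · unfold ecost
      rw [if_pos (by simp), if_neg (hne e).symm]
    · unfold ecost
      rw [if_pos (by simp), if_pos rfl, if_neg (by simp), if_pos rfl]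
      omega

/-- **Routing**: the hypothesis of `netS_reach`. -/
theorem route_all {t m c : ℕ} (hmt : m ≤ t) (bl : S → V) (lo up : E → V) (ty : V → ℕ)
    (tl : V → List (S ⊕ E)) (hty : ∀ e, ty (lo e) < ty (up e)) (hm : ∀ v, ty v ≤ m)
    (hS : ∀ F : Finset V, F.Nonempty → F.card ≤ 2 * t * (m + 1) →
      (es lo up F).card + 1 ≤ F.card)
    (hbl : ∀ s, ty (bl s) = 0)
    (hnd : ∀ v, (tl v).Nodup)
    (hmem : ∀ v, ∀ p, p ∈ tl v ↔ loL bl up p = v ∨ loL bl lo p = v)
    (hok : ∀ v, ∃ B, Ok t (fun p => loL bl up p = v) (fun p => ty (loL bl up p) + 1) B (tl v))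
    (X : Finset (S ⊕ E)) (hX : X.card ≤ t) :
    ∃ (V0 : V → Prop) (u : S ⊕ E → Prop),
      (∀ p ∈ X, V0 (loL bl lo p)) ∧ (∀ p, V0 (loL bl lo p) → V0 (loL bl up p)) ∧
      (∀ v, V0 v → ∃ M : List (SP c (S ⊕ E) × SP c (S ⊕ E)), M.Sublist (tch c (tl v)) ∧
      ∀ p, (loL bl up p = v ∨ (loL bl lo p = v ∧ ¬ u p)) →
      ∀ q, ((loL bl up q = v ∧ loL bl lo q ≠ v ∧ V0 (loL bl lo q) ∧ u q) ∨
        (loL bl lo q = v ∧ q ∈ X)) →
        move M (Sum.inr p) ≠ Sum.inr q) := by
  classical
  have hne : ∀ e, lo e ≠ up e := fun e h => by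
    have := hty e
    rw [h] at this
    omega
  -- the upward closure
  let rel : V → V → Prop := fun a b => ∃ e, lo e = a ∧ up e = b
  let roots : Finset V := X.image (loL bl lo)
  let V0 : Finset V := univ.filter (fun v => ∃ r ∈ roots, Relation.ReflTransGen rel r v)
  have hV0 : ∀ v, v ∈ V0 ↔ ∃ r ∈ roots, Relation.ReflTransGen rel r v := fun v => by
    show v ∈ univ.filter _ ↔ _
    rw [mem_filter]
    exact ⟨fun h => h.2, fun h => ⟨mem_univ _, h⟩⟩
  have hroots : ∀ r ∈ roots, r ∈ V0 := fun r hr => (hV0 r).2 ⟨r, hr, Relation.ReflTransGen.refl⟩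
  have hup : ∀ e, lo e ∈ V0 → up e ∈ V0 := by
    intro e he
    obtain ⟨r, hr, hrel⟩ := (hV0 _).1 he
    exact (hV0 _).2 ⟨r, hr, hrel.tail ⟨e, rfl, rfl⟩⟩
  have hdown : ∀ x ∈ V0, x ∈ roots ∨ ∃ e, up e = x ∧ lo e ∈ V0 := by
    intro x hx
    obtain ⟨r, hr, hrel⟩ := (hV0 _).1 hx
    rcases Relation.ReflTransGen.cases_tail hrel with h | ⟨y, hy, e, he1, he2⟩
    · exact Or.inl (h ▸ hr)
    · exact Or.inr ⟨e, he2, he1 ▸ (hV0 y).2 ⟨r, hr, hy⟩⟩
  have hrc : roots.card ≤ t := card_image_le.trans hX
  have hforest := forest_of_sparse ty hty hm hS roots V0 hrc hdown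
  have hsum : ∑ v ∈ V0, (X.filter (fun p => loL bl lo p = v)).card ≤ t := by
    refine le_trans ?_ hX
    have h1 : ∑ v ∈ V0, (X.filter (fun p => loL bl lo p = v)).card ≤
        ∑ v : V, (X.filter (fun p => loL bl lo p = v)).card :=
      sum_le_sum_of_subset (subset_univ _)
    refine h1.trans (le_of_eq ?_)
    exact (card_eq_sum_card_fiberwise (f := loL bl lo) (s := X) (t := univ)
      (fun _ _ => mem_coe.2 (mem_univ _))).symm
  obtain ⟨u, hu⟩ := tree_route (t := t) (ecost t lo up ty) hne
    (fun e v w h => ecost_spec hne (fun e => (hm _).trans hmt) e v w h) V0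
    (fun F hF hFn => exists_small_degree F (hforest F hF hFn)) _ V0 Subset.rfl rfl
    (fun v => (X.filter (fun p => loL bl lo p = v)).card) hsum
  refine ⟨fun v => v ∈ V0, fun p => Sum.elim (fun _ => False) (fun e => u e = true) p,
    ?_, ?_, ?_⟩
  · intro p hp
    exact hroots _ (mem_image_of_mem _ hp)
  · intro p hp
    rcases p with s | e
    · exact hp
    · exact hup e hp
  · intro v hv
    obtain ⟨B, hB⟩ := hok v
    -- the cost
    let Y : S ⊕ E → Prop := fun q =>
      (loL bl up q = v ∧ loL bl lo q ≠ v ∧ loL bl lo q ∈ V0 ∧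
        Sum.elim (fun _ => False) (fun e => u e = true) q) ∨ (loL bl lo q = v ∧ q ∈ X)
    let Bd : S ⊕ E → Prop := fun p => loL bl up p = v ∨
      (loL bl lo p = v ∧ ¬ Sum.elim (fun _ => False) (fun e => u e = true) p)
    let bound : S ⊕ E → ℕ := fun p => (if p ∈ X ∧ loL bl lo p = v then 1 else 0) +
      Sum.elim (fun _ => 0) (fun e => if e ∈ inc lo up V0 v then
        ecost t lo up ty v e (u e) else 0) p
    have hterm : ∀ p ∈ tl v, lcost t (fun p => loL bl up p = v)
        (fun p => ty (loL bl up p) + 1) Y Bd p ≤ bound p := by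
      intro p hp
      rw [hmem] at hp
      unfold lcost
      rcases p with s | e
      · have hs : bl s = v := by
          rcases hp with h | h <;> exact h
        have hfs : loL bl up (Sum.inl s) = v := hs
        have hY : Y (Sum.inl s) ↔ Sum.inl s ∈ X := by
          constructor
          · rintro (h | h)
            · exact absurd hs h.2.1
            · exact h.2
          · exact fun h => Or.inr ⟨hs, h⟩
        have hb : bound (Sum.inl s) = if Sum.inl s ∈ X ∧ loL bl lo (Sum.inl s) = v then 1
            else 0 := by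
          show _ + 0 = _
          rfl
        rw [hb, if_pos hfs, if_neg (fun h : ¬ loL bl up (Sum.inl s) = v ∧ Bd (Sum.inl s) =>
          h.1 hfs)]
        by_cases hXs : (Sum.inl s : S ⊕ E) ∈ X
        · rw [if_pos (hY.2 hXs), if_pos ⟨hXs, hs⟩]
          have : ty (loL bl up (Sum.inl s)) = 0 := hbl s
          show ty (loL bl up (Sum.inl s)) + 1 + 0 ≤ 1
          rw [this]
        · rw [if_neg (fun h => hXs (hY.1 h))]
          exact Nat.zero_le _
      · by_cases hlo : lo e = v
        · -- a wire
          have hupe : up e ≠ v := fun h => hne e (hlo.trans h.symm)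
          have hfs : ¬ loL bl up (Sum.inr e) = v := hupe
          have hY : Y (Sum.inr e) ↔ Sum.inr e ∈ X := by
            constructor
            · rintro (h | h)
              · exact absurd h.1 hupe
              · exact h.2
            · exact fun h => Or.inr ⟨hlo, h⟩
          have hBd : Bd (Sum.inr e) ↔ ¬ u e = true := by
            constructor
            · rintro (h | h)
              · exact absurd h hupe
              · exact h.2
            · exact fun h => Or.inr ⟨hlo, h⟩
          have hin : e ∈ inc lo up V0 v := by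
            rw [mem_inc]
            exact ⟨⟨hlo ▸ hv, hup e (hlo ▸ hv)⟩, Or.inl hlo⟩
          have hb : bound (Sum.inr e) = (if Sum.inr e ∈ X ∧ loL bl lo (Sum.inr e) = v then 1
              else 0) + ecost t lo up ty v e (u e) := by
            show _ + (if e ∈ inc lo up V0 v then _ else 0) = _
            rw [if_pos hin]
          rw [hb, if_neg hfs]
          apply add_le_add
          · by_cases hXs : (Sum.inr e : S ⊕ E) ∈ X
            · rw [if_pos (hY.2 hXs), if_pos ⟨hXs, hlo⟩]
            · rw [if_neg (fun h => hXs (hY.1 h))]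
              exact Nat.zero_le _
          · by_cases hue : u e = true
            · rw [if_neg (fun h => hBd.1 h.2 hue)]
              exact Nat.zero_le _
            · rw [if_pos ⟨hfs, hBd.2 hue⟩]
              unfold ecost
              rw [if_neg hue, if_pos hlo]
              exact le_refl _
        · -- a slot
          have hupe : up e = v := by
            rcases hp with h | h
            · exact h
            · exact absurd h hlo
          have hfs : loL bl up (Sum.inr e) = v := hupe
          rw [if_pos hfs, if_neg (fun h : ¬ loL bl up (Sum.inr e) = v ∧ Bd (Sum.inr e) =>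
            h.1 hfs), add_zero]
          by_cases hY : Y (Sum.inr e)
          · rw [if_pos hY]
            have hY' : lo e ∈ V0 ∧ u e = true := by
              rcases hY with h | h
              · exact ⟨h.2.2.1, h.2.2.2⟩
              · exact absurd h.1 hlo
            have hin : e ∈ inc lo up V0 v := by
              rw [mem_inc]
              exact ⟨⟨hY'.1, hup e hY'.1⟩, Or.inr hupe⟩
            have hb : bound (Sum.inr e) = (if Sum.inr e ∈ X ∧ loL bl lo (Sum.inr e) = v then 1
                else 0) + ecost t lo up ty v e (u e) := by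
              show _ + (if e ∈ inc lo up V0 v then _ else 0) = _
              rw [if_pos hin]
            rw [hb]
            refine le_trans ?_ (Nat.le_add_left _ _)
            unfold ecost
            rw [if_pos hY'.2, if_pos hupe]
            exact le_refl _
          · rw [if_neg hY]
            exact Nat.zero_le _
    have hcost : ((tl v).map (lcost t (fun p => loL bl up p = v)
        (fun p => ty (loL bl up p) + 1) Y Bd)).sum ≤ t := by
      have h1 : ((tl v).map (lcost t (fun p => loL bl up p = v)
          (fun p => ty (loL bl up p) + 1) Y Bd)).sum ≤ ((tl v).map bound).sum :=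
        List.sum_le_sum hterm
      have h2 : ((tl v).map bound).sum = ∑ p ∈ (tl v).toFinset, bound p :=
        (List.sum_toFinset _ (hnd v)).symm
      have h3 : ∑ p ∈ (tl v).toFinset, bound p ≤ ∑ p : S ⊕ E, bound p :=
        sum_le_sum_of_subset (subset_univ _)
      have h4 : ∑ p : S ⊕ E, bound p = (X.filter (fun p => loL bl lo p = v)).card +
          ∑ e ∈ inc lo up V0 v, ecost t lo up ty v e (u e) := by
        have h5 : ∑ p : S ⊕ E, bound p =
            (∑ p : S ⊕ E, if p ∈ X ∧ loL bl lo p = v then 1 else 0) +
            ∑ p : S ⊕ E, Sum.elim (fun _ => 0) (fun e => if e ∈ inc lo up V0 v then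
              ecost t lo up ty v e (u e) else 0) p := sum_add_distrib
        rw [h5]
        congr 1
        · rw [← card_filter]
          congr 1
          ext p
          simp only [mem_filter, mem_univ, true_and]
        · rw [Fintype.sum_sum_type]
          simp only [Sum.elim_inl, Sum.elim_inr, sum_const_zero, zero_add]
          rw [← sum_filter, filter_mem_eq_inter, univ_inter]
      have h5 := hu v hv
      omega
    obtain ⟨M, hM, hm1, -⟩ := local_route (P := SP c (S ⊕ E)) t (fun p => loL bl up p = v)
      (fun p => ty (loL bl up p) + 1) Y Bd (fun p hp => Or.inl hp) (Sum.inl 0) Sum.inr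
      Sum.inr_injective (fun _ => Sum.inr_ne_inl) (tl v) (hnd v) B 0 True hB
      (fun h => absurd trivial h) (by rw [zero_add]; exact hcost)
    refine ⟨M, hM, ?_⟩
    intro p hp q hq
    refine hm1 p ?_ hp q ?_ hq
    · rw [hmem]
      rcases hp with h | h
      · exact Or.inl h
      · exact Or.inr h.1
    · rw [hmem]
      rcases hq with h | h
      · exact Or.inl h.1
      · exact Or.inr h.1

end

end ReachNet
end

section

/-!
# Construction of the star network
-/

set_option autoImplicit false

open Finset

namespace ReachNet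

/-! ### Lists -/

theorem exists_sorted {V : Type} [Fintype V] (ty : V → ℕ) :
    ∃ bs : List V, bs.Nodup ∧ (∀ v, v ∈ bs) ∧ bs.Pairwise (fun a b => ty b ≤ ty a) := by
  classical
  refine ⟨(univ : Finset V).toList.mergeSort (fun a b => decide (ty b ≤ ty a)), ?_, ?_, ?_⟩
  · exact (List.mergeSort_perm _ _).nodup_iff.2 (nodup_toList _)
  · intro v
    rw [(List.mergeSort_perm _ _).mem_iff, mem_toList]
    exact mem_univ v
  · have := List.pairwise_mergeSort (le := fun a b : V => decide (ty b ≤ ty a))
      (by
        intro a b c h1 h2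
        simp only [decide_eq_true_eq] at *
        omega)
      (by
        intro a b
        simp only [Bool.or_eq_true, decide_eq_true_eq]
        omega) (univ : Finset V).toList
    exact this.imp (fun h => of_decide_eq_true h)

section

variable {Λ : Type} (M : ℕ) (sl : List Λ) (w : Fin M → List Λ)

/-- The segments of a block. -/
def segs : List Λ := (List.finRange M).flatMap (fun j => (sl[j.val]?).toList ++ w j)

variable {M sl w}

theorem mem_segs (hM : sl.length ≤ M) (p : Λ) :
    p ∈ segs M sl w ↔ p ∈ sl ∨ ∃ j, p ∈ w j := by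
  unfold segs
  rw [List.mem_flatMap]
  constructor
  · rintro ⟨j, -, hp⟩
    rw [List.mem_append, Option.mem_toList] at hp
    rcases hp with hp | hp
    · exact Or.inl (List.mem_iff_getElem?.2 ⟨_, hp⟩)
    · exact Or.inr ⟨j, hp⟩
  · rintro (hp | ⟨j, hp⟩)
    · obtain ⟨i, hi⟩ := List.mem_iff_getElem?.1 hp
      have hil : i < sl.length := by
        by_contra h
        rw [List.getElem?_eq_none (by omega)] at hi
        exact absurd hi (by simp)
      refine ⟨⟨i, by omega⟩, List.mem_finRange _, ?_⟩
      rw [List.mem_append, Option.mem_toList]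
      exact Or.inl hi
    · refine ⟨j, List.mem_finRange _, ?_⟩
      rw [List.mem_append]
      exact Or.inr hp

theorem nodup_segs (hsl : sl.Nodup) (hw : ∀ j, (w j).Nodup)
    (hww : ∀ j j', j ≠ j' → ∀ p ∈ w j, p ∉ w j') (hsw : ∀ j, ∀ p ∈ sl, p ∉ w j) :
    (segs M sl w).Nodup := by
  unfold segs
  rw [List.nodup_flatMap]
  have hsome : ∀ (j : Fin M) (p : Λ), p ∈ (sl[j.val]?).toList → sl[j.val]? = some p := by
    intro j p hp
    rwa [Option.mem_toList] at hp
  have hmem : ∀ (j : Fin M) (p : Λ), p ∈ (sl[j.val]?).toList → p ∈ sl := fun j p hp =>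
    List.mem_iff_getElem?.2 ⟨_, hsome j p hp⟩
  constructor
  · intro j _
    rw [List.nodup_append]
    refine ⟨?_, hw j, ?_⟩
    · rcases sl[j.val]? with _ | x
      · exact List.nodup_nil
      · exact List.nodup_singleton x
    · intro a ha b hb hab
      subst hab
      exact hsw j a (hmem j a ha) hb
  · refine (List.nodup_finRange M).imp ?_
    intro j j' hjj
    show List.Disjoint _ _
    intro p hp hp'
    rw [List.mem_append] at hp hp'
    rcases hp with hp | hp
    · rcases hp' with hp' | hp'
      · have h1 := hsome j p hp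
        have h2 := hsome j' p hp'
        have hil : j.val < sl.length := by
          by_contra h
          rw [List.getElem?_eq_none (by omega)] at h1
          exact absurd h1 (by simp)
        exact hjj (Fin.ext ((List.getElem?_inj hil hsl).1 (h1.trans h2.symm)))
      · exact hsw j' p (hmem j p hp) hp'
    · rcases hp' with hp' | hp'
      · exact hsw j p (hmem j' p hp') hp
      · exact hww j j' hjj p hp hp'

end

/-! ### Numbers of blocks -/

/-- the number of blocks of type at most `i` -/
def SSf (N Q : ℕ) : ℕ → ℕ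
  | 0 => N
  | i + 1 => 3 * SSf N Q i + Q

/-- the number of blocks of type `i` -/
def nnf (N Q : ℕ) : ℕ → ℕ
  | 0 => N
  | i + 1 => 2 * SSf N Q i + Q

theorem sum_nnf (N Q k : ℕ) : ∑ i ∈ range (k + 1), nnf N Q i = SSf N Q k := by
  induction k with
  | zero => simp [nnf, SSf]
  | succ k ih =>
    rw [sum_range_succ, ih]
    show SSf N Q k + (2 * SSf N Q k + Q) = 3 * SSf N Q k + Q
    ring

/-- The blocks. -/
abbrev BV (t N Q : ℕ) : Type := (i : Fin (t / 2 + 1)) × Fin (nnf N Q i)

/-- The edges (twice touched leaves). -/
abbrev BE (t M N Q : ℕ) : Type := (v : BV t N Q) × (Fin M × Fin (t - 1 - 2 * v.1))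

/-- The once touched leaves. -/
abbrev BS (M N : ℕ) : Type := Fin N × Fin M

/-- The type of a block. -/
def bty {t N Q : ℕ} (v : BV t N Q) : ℕ := v.1.val

/-- The block of a once touched leaf. -/
def bbl {t M N Q : ℕ} (s : BS M N) : BV t N Q := ⟨⟨0, Nat.succ_pos _⟩, s.1⟩

/-- The lower block of an edge. -/
def blo {t M N Q : ℕ} (e : BE t M N Q) : BV t N Q := e.1

/-- The type of the upper block of an edge. -/
def bkk {t M N Q : ℕ} (e : BE t M N Q) : ℕ :=
  min (e.1.1.val + 1 + e.2.2.val) (t - 1 - e.1.1.val - e.2.2.val)

theorem card_BV (t N Q : ℕ) : Fintype.card (BV t N Q) = SSf N Q (t / 2) := by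
  rw [Fintype.card_sigma]
  simp only [Fintype.card_fin]
  rw [Fin.sum_univ_eq_sum_range (fun i => nnf N Q i) (t / 2 + 1), sum_nnf]

/-- the number of edges divided by `M` -/
def EEf (t N Q : ℕ) : ℕ := ∑ i ∈ range (t / 2 + 1), nnf N Q i * (t - 1 - 2 * i)

theorem card_BE (t M N Q : ℕ) : Fintype.card (BE t M N Q) = M * EEf t N Q := by
  rw [Fintype.card_sigma]
  simp only [Fintype.card_prod, Fintype.card_fin]
  rw [Fintype.sum_sigma]
  simp only [sum_const, card_univ, Fintype.card_fin, smul_eq_mul]
  rw [Fin.sum_univ_eq_sum_range (fun i => nnf N Q i * (M * (t - 1 - 2 * i))) (t / 2 + 1)]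
  unfold EEf
  rw [mul_sum]
  apply sum_congr rfl
  intro i _
  ring

theorem card_type (t N Q k : ℕ) (hk : k ≤ t / 2) :
    nnf N Q k ≤ (univ.filter (fun v : BV t N Q => bty v = k)).card := by
  have h1 : ((univ : Finset (Fin (nnf N Q k))).image
      (fun x => (⟨⟨k, by omega⟩, x⟩ : BV t N Q))).card = nnf N Q k := by
    rw [card_image_of_injective, card_univ, Fintype.card_fin]
    intro x y hxy
    exact eq_of_heq (Sigma.mk.inj hxy).2
  calc nnf N Q k = _ := h1.symm
    _ ≤ _ := by
      apply card_le_card
      intro v hv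
      obtain ⟨x, -, rfl⟩ := mem_image.1 hv
      rw [mem_filter]
      exact ⟨mem_univ _, rfl⟩

theorem card_lt_type (t N Q k : ℕ) :
    (univ.filter (fun v : BV t N Q => bty v < k + 1)).card ≤ SSf N Q k := by
  have h1 : (univ.filter (fun v : BV t N Q => bty v < k + 1)) ⊆
      ((univ : Finset (Fin (t / 2 + 1))).filter (fun i => i.val < k + 1)).biUnion
        (fun i => (univ : Finset (Fin (nnf N Q i))).image
          (fun x => (⟨i, x⟩ : BV t N Q))) := by
    intro v hv
    rw [mem_filter] at hv
    rw [mem_biUnion]
    exact ⟨v.1, mem_filter.2 ⟨mem_univ _, hv.2⟩, mem_image.2 ⟨v.2, mem_univ _, rfl⟩⟩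
  refine (card_le_card h1).trans (card_biUnion_le.trans ?_)
  have h2 : ∀ i ∈ (univ : Finset (Fin (t / 2 + 1))).filter (fun i => i.val < k + 1),
      ((univ : Finset (Fin (nnf N Q i))).image (fun x => (⟨i, x⟩ : BV t N Q))).card ≤
        nnf N Q i := by
    intro i _
    refine card_image_le.trans ?_
    rw [card_univ, Fintype.card_fin]
  refine (sum_le_sum h2).trans ?_
  rw [sum_filter, Fin.sum_univ_eq_sum_range (fun i => if i < k + 1 then nnf N Q i else 0)
    (t / 2 + 1), ← sum_filter, ← sum_nnf]
  apply sum_le_sum_of_subset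
  intro i hi
  rw [mem_filter] at hi
  exact mem_range.2 hi.2

theorem card_lo (t M N Q : ℕ) (v : BV t N Q) :
    (univ.filter (fun e : BE t M N Q => blo e = v)).card ≤ M * t := by
  have h1 : (univ.filter (fun e : BE t M N Q => blo e = v)) ⊆
      (univ : Finset (Fin M × Fin (t - 1 - 2 * v.1))).image
        (fun x => (⟨v, x⟩ : BE t M N Q)) := by
    intro e he
    rw [mem_filter] at he
    obtain ⟨-, he⟩ := he
    obtain ⟨v', x⟩ := e
    have : v' = v := he
    subst this
    exact mem_image.2 ⟨x, mem_univ _, rfl⟩
  refine (card_le_card h1).trans (card_image_le.trans ?_)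
  rw [card_univ, Fintype.card_prod, Fintype.card_fin, Fintype.card_fin]
  exact Nat.mul_le_mul_left _ (by omega)

theorem bkk_pos {t M N Q : ℕ} (e : BE t M N Q) : bty (blo e) < bkk e := by
  have h := e.2.2.2
  unfold bty blo bkk
  omega

theorem bkk_le {t M N Q : ℕ} (e : BE t M N Q) : bkk e ≤ t / 2 := by
  have h := e.2.2.2
  unfold bkk
  omega

theorem card_kk (t M N Q k : ℕ) :
    (univ.filter (fun e : BE t M N Q => bkk e = k + 1)).card ≤ M * (2 * SSf N Q k) := by
  have h1 := card_le_mul_card_image_of_maps_to
    (f := fun e : BE t M N Q => ((e.1, e.2.1) : BV t N Q × Fin M))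
    (s := univ.filter (fun e : BE t M N Q => bkk e = k + 1))
    (t := (univ.filter (fun v : BV t N Q => bty v < k + 1)) ×ˢ univ)
    (by
      intro e he
      rw [mem_filter] at he
      have := bkk_pos e
      rw [mem_product, mem_filter]
      exact ⟨⟨mem_univ _, by rw [← he.2]; exact this⟩, mem_univ _⟩) 2
    (by
      rintro ⟨v, j⟩ -
      have hinj : Set.InjOn (fun e : BE t M N Q => e.2.2.val)
          ((univ.filter (fun e : BE t M N Q => bkk e = k + 1)).filter
            (fun e => ((e.1, e.2.1) : BV t N Q × Fin M) = (v, j)) : Finset (BE t M N Q)) := by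
        rintro ⟨v1, j1, d1⟩ h1 ⟨v2, j2, d2⟩ h2 hd
        simp only [coe_filter, Set.mem_setOf_eq, Prod.mk.injEq] at h1 h2
        obtain ⟨-, rfl, rfl⟩ := h1
        obtain ⟨-, rfl, rfl⟩ := h2
        have : d1 = d2 := Fin.ext hd
        rw [this]
      have hmaps : ∀ e ∈ (univ.filter (fun e : BE t M N Q => bkk e = k + 1)).filter
            (fun e => ((e.1, e.2.1) : BV t N Q × Fin M) = (v, j)),
          e.2.2.val ∈ ({k - v.1.val, t - 1 - v.1.val - (k + 1)} : Finset ℕ) := by
        rintro ⟨v1, j1, d1⟩ h1
        simp only [mem_filter, mem_univ, true_and, Prod.mk.injEq] at h1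
        obtain ⟨h0, rfl, rfl⟩ := h1
        have hd := d1.2
        unfold bkk at h0
        simp only [mem_insert, mem_singleton]
        simp only at h0
        omega
      refine (card_le_card_of_injOn _ hmaps hinj).trans ?_
      exact card_le_two)
  rw [card_product, card_univ, Fintype.card_fin] at h1
  refine h1.trans ?_
  have h2 := card_lt_type t N Q k
  calc 2 * ((univ.filter (fun v : BV t N Q => bty v < k + 1)).card * M)
      = M * (2 * (univ.filter (fun v : BV t N Q => bty v < k + 1)).card) := by ring
    _ ≤ _ := Nat.mul_le_mul_left _ (Nat.mul_le_mul_left _ h2)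

end ReachNet
end

section

/-!
# The star network
-/

set_option autoImplicit false

open Finset

namespace ReachNet

/-- the ball bound -/
def QQ (t M : ℕ) : ℕ := (1 + (M * t + M)) ^ (2 * t * (t / 2 + 1)) + 1

theorem exists_star_net {t M N n c : ℕ} (ht : 1 ≤ t) (hM : 1 ≤ M) (h : t ≤ n) (htc : t ≤ c)
    (hn : c + 1 + (N * M + M * EEf t N (QQ t M)) = n) :
    ∃ L : List (Fin n × Fin n), IsNet h L ∧ IsStar L ∧
      L.length ≤ 2 * ((c + 1) * (c + 1)) + t * SSf N (QQ t M) (t / 2) +
        (N * M + 2 * (M * EEf t N (QQ t M))) := by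
  classical
  set Q := QQ t M with hQ
  obtain ⟨up, hup1, hup2, hup3⟩ := exists_graph (V := BV t N Q) (E := BE t M N Q) blo bkk bty
    (M * t) M (2 * t * (t / 2 + 1)) hM (card_lo t M N Q) (by
      intro e0
      have hpos := bkk_pos e0
      have hle := bkk_le e0
      obtain ⟨k, hk⟩ : ∃ k, bkk e0 = k + 1 := ⟨bkk e0 - 1, by omega⟩
      rw [hk]
      have h1 := card_kk t M N Q k
      have h2 := card_type t N Q (k + 1) (by omega)
      have h3 : nnf N Q (k + 1) = 2 * SSf N Q k + Q := rfl
      have h4 : (1 + (M * t + M)) ^ (2 * t * (t / 2 + 1)) + 1 = Q := rfl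
      rw [h4]
      calc _ ≤ M * (2 * SSf N Q k) + M * Q := Nat.add_le_add_right h1 _
        _ = M * nnf N Q (k + 1) := by rw [h3]; ring
        _ ≤ _ := Nat.mul_le_mul_left _ h2)
  have hty : ∀ e : BE t M N Q, bty (blo e) < bty (up e) := fun e => by
    rw [hup1]
    exact bkk_pos e
  have hne : ∀ e : BE t M N Q, up e ≠ blo e := fun e h' => by
    have := hty e
    rw [h'] at this
    omega
  have hm : ∀ v : BV t N Q, bty v ≤ t / 2 := fun v => Nat.lt_succ_iff.1 v.1.2
  -- slots
  let sl : BV t N Q → List (BS M N ⊕ BE t M N Q) := fun v =>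
    (univ.filter (fun p : BS M N ⊕ BE t M N Q => loL bbl up p = v)).toList
  have hslmem : ∀ v p, p ∈ sl v ↔ loL bbl up p = v := by
    intro v p
    show p ∈ (univ.filter _).toList ↔ _
    rw [mem_toList, mem_filter]
    exact ⟨fun h' => h'.2, fun h' => ⟨mem_univ _, h'⟩⟩
  have hslnd : ∀ v, (sl v).Nodup := fun v => nodup_toList _
  have hsllen : ∀ v, (sl v).length ≤ M := by
    intro v
    show (univ.filter _).toList.length ≤ M
    rw [length_toList]
    by_cases hv : bty v = 0
    · have hsub : (univ.filter (fun p : BS M N ⊕ BE t M N Q => loL bbl up p = v)) ⊆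
          (univ.filter (fun s : BS M N => (bbl s : BV t N Q) = v)).image Sum.inl := by
        intro p hp
        rw [mem_filter] at hp
        rcases p with s | e
        · exact mem_image.2 ⟨s, mem_filter.2 ⟨mem_univ _, hp.2⟩, rfl⟩
        · exfalso
          have h1 : up e = v := hp.2
          have h2 := hty e
          rw [h1, hv] at h2
          omega
      refine (card_le_card hsub).trans (card_image_le.trans ?_)
      have hinj : Set.InjOn (fun s : BS M N => s.2)
          (univ.filter (fun s : BS M N => (bbl s : BV t N Q) = v) : Finset (BS M N)) := by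
        intro s hs s' hs' hss
        rw [coe_filter] at hs hs'
        have h1 : (bbl s : BV t N Q) = bbl s' := hs.2.trans hs'.2.symm
        have h2 : s.1 = s'.1 := eq_of_heq (Sigma.mk.inj h1).2
        exact Prod.ext h2 hss
      have := card_le_card_of_injOn (t := (univ : Finset (Fin M))) (fun s : BS M N => s.2)
        (fun _ _ => mem_coe.2 (mem_univ _)) hinj
      rwa [card_univ, Fintype.card_fin] at this
    · have hsub : (univ.filter (fun p : BS M N ⊕ BE t M N Q => loL bbl up p = v)) ⊆
          (univ.filter (fun e : BE t M N Q => up e = v)).image Sum.inr := by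
        intro p hp
        rw [mem_filter] at hp
        rcases p with s | e
        · exfalso
          have h1 : (bbl s : BV t N Q) = v := hp.2
          apply hv
          rw [← h1]
          rfl
        · exact mem_image.2 ⟨e, mem_filter.2 ⟨mem_univ _, hp.2⟩, rfl⟩
      exact (card_le_card hsub).trans (card_image_le.trans (hup2 v))
  -- wires
  let w : BV t N Q → Fin M → List (BS M N ⊕ BE t M N Q) := fun v j =>
    (List.finRange (t - 1 - 2 * v.1)).map (fun d => Sum.inr ⟨v, (j, d)⟩)
  have hwmem : ∀ v j p, p ∈ w v j → ∃ d, p = Sum.inr ⟨v, (j, d)⟩ := by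
    intro v j p hp
    obtain ⟨d, -, rfl⟩ := List.mem_map.1 hp
    exact ⟨d, rfl⟩
  let tl : BV t N Q → List (BS M N ⊕ BE t M N Q) := fun v => segs M (sl v) (w v)
  have hmem : ∀ v, ∀ p, p ∈ tl v ↔ loL bbl up p = v ∨ loL bbl blo p = v := by
    intro v p
    show p ∈ segs M (sl v) (w v) ↔ _
    rw [mem_segs (hsllen v), hslmem]
    constructor
    · rintro (h' | ⟨j, hj⟩)
      · exact Or.inl h'
      · obtain ⟨d, rfl⟩ := hwmem v j p hj
        exact Or.inr rfl
    · rintro (h' | h')
      · exact Or.inl h'
      · rcases p with s | e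
        · exact Or.inl h'
        · right
          obtain ⟨v', j, d⟩ := e
          have hvv : v' = v := h'
          subst hvv
          exact ⟨j, List.mem_map.2 ⟨d, List.mem_finRange d, rfl⟩⟩
  have hnd : ∀ v, (tl v).Nodup := by
    intro v
    apply nodup_segs (hslnd v)
    · intro j
      apply List.Nodup.map _ (List.nodup_finRange _)
      intro d d' hdd
      have h1 := Sum.inr_injective hdd
      have h2 := eq_of_heq (Sigma.mk.inj h1).2
      exact (Prod.mk.inj h2).2
    · intro j j' hjj p hp hp'
      obtain ⟨d, hd⟩ := hwmem v j p hp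
      obtain ⟨d', hd'⟩ := hwmem v j' p hp'
      have h1 := Sum.inr_injective (hd.symm.trans hd')
      have h2 := eq_of_heq (Sigma.mk.inj h1).2
      exact hjj (Prod.mk.inj h2).1
    · intro j p hp hp'
      obtain ⟨d, rfl⟩ := hwmem v j p hp'
      rw [hslmem] at hp
      exact hne _ hp
  have hok : ∀ v, ∃ B, Ok t (fun p => loL bbl up p = v)
      (fun p => bty (loL bbl up p) + 1) B (tl v) := by
    intro v
    refine ⟨(bty v + 1) + (t + 1 - 2 * (bty v + 1)), ?_⟩
    apply Ok_flatMap t (fun p => loL bbl up p = v) (fun p => bty (loL bbl up p) + 1)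
      (fun j : Fin M => ((sl v)[j.val]?).toList ++ w v j)
      ((bty v + 1) + (t + 1 - 2 * (bty v + 1))) (List.finRange M) ?_ _ le_rfl
    intro j _ b hb
    have hwlen : (w v j).length = t - 1 - 2 * v.1 := by
      show (List.map _ _).length = _
      rw [List.length_map, List.length_finRange]
    apply Ok_segment t (fun p => loL bbl up p = v) (fun p => bty (loL bbl up p) + 1) _ _
      (bty v + 1) ?_ ?_ ?_ b hb
    · intro p hp
      have h1 : p ∈ sl v := List.mem_iff_getElem?.2 ⟨_, hp⟩
      rw [hslmem] at h1
      refine ⟨h1, ?_⟩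
      show bty (loL bbl up p) + 1 = _
      rw [h1]
    · intro i hi
      have hi' : i < t - 1 - 2 * v.1 := by
        rw [← hwlen]
        exact hi
      have hget : (w v j)[i] = Sum.inr ⟨v, (j, ⟨i, hi'⟩)⟩ := by
        show (List.map _ _)[i]'_ = _
        rw [List.getElem_map, List.getElem_finRange]
        rfl
      rw [hget]
      have hk : bty (up ⟨v, (j, ⟨i, hi'⟩)⟩) = min (bty v + 1 + i) (t - 1 - bty v - i) := by
        rw [hup1]
        rfl
      have hi2 : i < t - 1 - 2 * bty v := hi'
      refine ⟨hne ⟨v, (j, ⟨i, hi'⟩)⟩, ?_, ?_, ?_⟩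
      · show bty (up ⟨v, (j, ⟨i, hi'⟩)⟩) + 1 ≤ _
        rw [hk]
        omega
      · show bty (up ⟨v, (j, ⟨i, hi'⟩)⟩) + 1 + _ ≤ _
        rw [hk]
        omega
      · show bty (up ⟨v, (j, ⟨i, hi'⟩)⟩) + 1 ≤ _
        rw [hk]
        omega
    · rw [hwlen]
      show t - 1 - 2 * bty v = _
      omega
  obtain ⟨bs, hbs1, hbs2, hbs3⟩ := exists_sorted (V := BV t N Q) bty
  have hreach := fun (x : Fin t → SP c (BS M N ⊕ BE t M N Q)) (hx : Function.Injective x) =>
    netS_reach htc (loL bbl blo) (loL bbl up) bty tl
      (by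
        intro p hp
        rcases p with s | e
        · exact absurd rfl hp
        · exact hty e)
      (fun v p hp => (hmem v p).1 hp)
      (fun X hX => route_all (c := c) (by omega) bbl blo up bty tl hty hm hup3
        (fun s => rfl) hnd hmem hok X hX)
      bs hbs1 hbs3 hbs2 x hx
  -- transport
  have hcard : Fintype.card (BS M N ⊕ BE t M N Q) = N * M + M * EEf t N Q := by
    rw [Fintype.card_sum, card_BE, Fintype.card_prod, Fintype.card_fin, Fintype.card_fin]
  let e1 : BS M N ⊕ BE t M N Q ≃ Fin (N * M + M * EEf t N Q) := Fintype.equivFinOfCardEq hcard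
  let e : SP c (BS M N ⊕ BE t M N Q) ≃ Fin n :=
    ((Equiv.sumCongr (Equiv.refl (Fin (c + 1))) e1).trans finSumFinEquiv).trans (finCongr hn)
  have he : ∀ k : Fin (c + 1), (e (Sum.inl k)).val = k.val := by
    intro k
    simp [e]
  have hstar : ∀ T ∈ netS htc tl bs, T.1 = Sum.inl 0 ∧ T.2 ≠ Sum.inl 0 := by
    intro T hT
    have hsw : ∀ T ∈ (sw c).map (Prod.map Sum.inl Sum.inl), (T : SP c (BS M N ⊕ BE t M N Q) ×
        SP c (BS M N ⊕ BE t M N Q)).1 = Sum.inl 0 ∧ T.2 ≠ Sum.inl 0 := by
      intro T hT
      obtain ⟨T', hT', rfl⟩ := List.mem_map.1 hT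
      obtain ⟨h1, h2⟩ := sw_star c T' hT'
      refine ⟨?_, fun h' => h2 (Sum.inl_injective h')⟩
      show Sum.inl T'.1 = _
      rw [h1]
    unfold netS at hT
    rw [List.mem_append, List.mem_append] at hT
    rcases hT with (hT | hT) | hT
    · exact hsw T hT
    · rw [List.mem_flatMap] at hT
      obtain ⟨v, -, hT⟩ := hT
      unfold blkS gadS tch at hT
      rw [List.mem_append] at hT
      rcases hT with hT | hT
      · obtain ⟨i, -, rfl⟩ := List.mem_map.1 hT
        exact ⟨rfl, fun h' => st_ne htc i (Sum.inl_injective h')⟩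
      · obtain ⟨p, -, rfl⟩ := List.mem_map.1 hT
        exact ⟨rfl, Sum.inr_ne_inl⟩
    · exact hsw T hT
  refine ⟨(netS htc tl bs).map (Prod.map e e), ⟨?_, ?_⟩, ?_, ?_⟩
  · intro T hT
    obtain ⟨T', hT', rfl⟩ := List.mem_map.1 hT
    obtain ⟨h1, h2⟩ := hstar T' hT'
    intro h'
    have := e.injective h'
    rw [h1] at this
    exact h2 this.symm
  · intro x hx
    obtain ⟨L, hL, hm'⟩ := hreach (fun j => e.symm (x j)) (e.symm.injective.comp hx)
    refine ⟨L.map (Prod.map e e), hL.map _, fun j => ?_⟩
    have hej : e (Sum.inl (Fin.castLE (by omega) j)) = Fin.castLE h j := by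
      apply Fin.ext
      rw [he]
      rfl
    rw [← hej, move_map e.injective, hm' j, Equiv.apply_symm_apply]
  · intro T hT
    obtain ⟨T', hT', rfl⟩ := List.mem_map.1 hT
    obtain ⟨h1, -⟩ := hstar T' hT'
    show (e T'.1).val = 0
    rw [h1, he]
    rfl
  · rw [List.length_map]
    unfold netS
    rw [List.length_append, List.length_append, List.length_map, List.length_flatMap]
    have hsw := length_sw c
    have htl : ∀ v, (tl v).length ≤
        (univ.filter (fun p : BS M N ⊕ BE t M N Q => loL bbl up p = v)).card +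
        (univ.filter (fun e : BE t M N Q => blo e = v)).card := by
      intro v
      rw [← List.toFinset_card_of_nodup (hnd v)]
      have hsub : (tl v).toFinset ⊆
          (univ.filter (fun p : BS M N ⊕ BE t M N Q => loL bbl up p = v)) ∪
          (univ.filter (fun e : BE t M N Q => blo e = v)).image Sum.inr := by
        intro p hp
        rw [List.mem_toFinset, hmem] at hp
        rw [mem_union]
        rcases hp with hp | hp
        · exact Or.inl (mem_filter.2 ⟨mem_univ _, hp⟩)
        · rcases p with s | e
          · exact Or.inl (mem_filter.2 ⟨mem_univ _, hp⟩)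
          · exact Or.inr (mem_image.2 ⟨e, mem_filter.2 ⟨mem_univ _, hp⟩, rfl⟩)
      refine (card_le_card hsub).trans ((card_union_le _ _).trans ?_)
      exact Nat.add_le_add_left card_image_le _
    have hblk : ∀ v, (blkS (c := c) htc tl v).length = t + (tl v).length := by
      intro v
      unfold blkS gadS tch
      rw [List.length_append, List.length_map, List.length_map, List.length_finRange]
    have hsum : (bs.map (fun v => (blkS (c := c) htc tl v).length)).sum ≤
        t * SSf N Q (t / 2) + (N * M + 2 * (M * EEf t N Q)) := by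
      rw [← List.sum_toFinset _ hbs1]
      have huniv : bs.toFinset = univ := by
        ext v
        rw [List.mem_toFinset]
        exact ⟨fun _ => mem_univ _, fun _ => hbs2 v⟩
      rw [huniv]
      have h1 : ∑ v : BV t N Q, (blkS (c := c) htc tl v).length ≤
          ∑ v : BV t N Q, (t +
            ((univ.filter (fun p : BS M N ⊕ BE t M N Q => loL bbl up p = v)).card +
            (univ.filter (fun e : BE t M N Q => blo e = v)).card)) := by
        apply sum_le_sum
        intro v _
        rw [hblk]
        exact Nat.add_le_add_left (htl v) _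
      refine h1.trans (le_of_eq ?_)
      rw [sum_add_distrib, sum_add_distrib, sum_const, card_univ, card_BV, smul_eq_mul]
      have h2 := card_eq_sum_card_fiberwise (f := loL bbl up)
        (s := (univ : Finset (BS M N ⊕ BE t M N Q))) (t := (univ : Finset (BV t N Q)))
        (fun _ _ => mem_coe.2 (mem_univ _))
      have h3 := card_eq_sum_card_fiberwise (f := blo)
        (s := (univ : Finset (BE t M N Q))) (t := (univ : Finset (BV t N Q)))
        (fun _ _ => mem_coe.2 (mem_univ _))
      rw [← h2, ← h3, card_univ, card_univ, hcard, card_BE]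
      ring
    omega

end ReachNet
end
end
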