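import Pool.Agent.Lib.MP_720f8f_co.StarNet

/-!
# The upper bound for star networks
-/

set_option autoImplicit false

open Finset

namespace ReachNet

theorem SSf_lin (N Q i : ℕ) : SSf N Q i = N * SSf 1 0 i + Q * SSf 0 1 i := by
  induction i with
  | zero => simp [SSf]
  | succ i ih =>
    show 3 * SSf N Q i + Q = N * (3 * SSf 1 0 i + 0) + Q * (3 * SSf 0 1 i + 1)
    rw [ih]
    ring

theorem nnf_lin (N Q i : ℕ) : nnf N Q i = N * nnf 1 0 i + Q * nnf 0 1 i := by
  cases i with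
  | zero => simp [nnf]
  | succ i =>
    show 2 * SSf N Q i + Q = N * (2 * SSf 1 0 i + 0) + Q * (2 * SSf 0 1 i + 1)
    rw [SSf_lin]
    ring

theorem EEf_lin (t N Q : ℕ) : EEf t N Q = N * EEf t 1 0 + Q * EEf t 0 1 := by
  unfold EEf
  rw [mul_sum, mul_sum, ← sum_add_distrib]
  apply sum_congr rfl
  intro i _
  rw [nnf_lin]
  ring

theorem EEf_step (t : ℕ) (ht : 1 ≤ t) : EEf (t + 2) 1 0 = 3 * EEf t 1 0 + 2 := by
  have h1 : (t + 2) / 2 + 1 = (t / 2 + 1) + 1 := by omega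
  have h2 : ∀ i, nnf 1 0 (i + 1 + 1) = 3 * nnf 1 0 (i + 1) := by
    intro i
    show 2 * (3 * SSf 1 0 i + 0) + 0 = 3 * (2 * SSf 1 0 i + 0)
    ring
  unfold EEf
  rw [h1, sum_range_succ', sum_range_succ', sum_range_succ']
  have h3 : ∑ i ∈ range (t / 2), nnf 1 0 (i + 1 + 1) * (t + 2 - 1 - 2 * (i + 1 + 1)) =
      3 * ∑ i ∈ range (t / 2), nnf 1 0 (i + 1) * (t - 1 - 2 * (i + 1)) := by
    rw [mul_sum]
    apply sum_congr rfl
    intro i _
    rw [h2]
    have : t + 2 - 1 - 2 * (i + 1 + 1) = t - 1 - 2 * (i + 1) := by omega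
    rw [this]
    ring
  rw [h3]
  have h4 : nnf 1 0 (0 + 1) = 2 := rfl
  have h5 : nnf 1 0 0 = 1 := rfl
  rw [h4, h5]
  omega

/-- `1 / dlt t` -/
def II (t : ℕ) : ℕ := 1 + EEf t 1 0

theorem II_mul_dlt : ∀ t : ℕ, 1 ≤ t → (II t : ℝ) * dlt t = 1 := by
  intro t
  induction t using Nat.strong_induction_on with
  | _ t ih =>
    intro ht
    by_cases h1 : t = 1
    · subst h1
      have h2 : II 1 = 1 := rfl
      rw [h2]
      unfold dlt
      norm_num
    · by_cases h2 : t = 2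
      · subst h2
        have h2 : II 2 = 2 := rfl
        rw [h2]
        unfold dlt
        norm_num
      · obtain ⟨s, rfl⟩ : ∃ s, t = s + 2 := ⟨t - 2, by omega⟩
        have h3 := ih s (by omega) (by omega)
        have h4 : II (s + 2) = 3 * II s := by
          unfold II
          rw [EEf_step s (by omega)]
          ring
        have h5 : dlt (s + 2) = dlt s * (1 / 3) := by
          unfold dlt
          have e1 : (s + 2) % 2 = s % 2 := by omega
          have e2 : (s + 2) / 2 = s / 2 + 1 := by omega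
          rw [e1, e2, pow_succ]
          ring
        rw [h4, h5]
        push_cast
        linarith

theorem II_pos (t : ℕ) : 1 ≤ II t := by
  unfold II
  omega

/-- Small `n`. -/
theorem exists_star_small {t n : ℕ} (ht : 1 ≤ t) (h : t ≤ n) :
    ∃ L : List (Fin n × Fin n), IsNet h L ∧ IsStar L ∧ L.length ≤ n * n := by
  obtain ⟨c, rfl⟩ : ∃ c, n = c + 1 := ⟨n - 1, by omega⟩
  refine ⟨sw c, ⟨?_, ?_⟩, ?_, length_sw c⟩
  · intro T hT
    obtain ⟨h1, h2⟩ := sw_star c T hT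
    rw [h1]
    exact h2.symm
  · intro x hx
    obtain ⟨π, hπ⟩ := exists_perm_extend (fun _ : Fin t => True) (Fin.castLE h) x
      (fun i j _ _ hij => Fin.castLE_injective h hij) (fun i j _ _ hij => hx hij)
    obtain ⟨M, hM, hm⟩ := sw_universal c π
    exact ⟨M, hM, fun j => by rw [hm, hπ j trivial]⟩
  · intro T hT
    rw [(sw_star c T hT).1]
    rfl

/-- the exponent of `M` in the size of a ball -/
def RR (t : ℕ) : ℕ := 2 * t * (t / 2 + 1)

/-- **The upper bound**, with a parameter `M`. -/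
theorem upper_param {t : ℕ} (ht : 1 ≤ t) : ∃ A B : ℝ, 0 ≤ A ∧ 0 ≤ B ∧ ∀ n M : ℕ, 1 ≤ M →
    ∀ h : t ≤ n, ∃ L : List (Fin n × Fin n), IsNet h L ∧ IsStar L ∧
      (L.length : ℝ) ≤ (2 - dlt t) * n + A * (n / M) + B * (M : ℝ) ^ (2 * RR t + 2) := by
  set I := II t with hI
  set C := EEf t 0 1 with hC
  set g := SSf 0 1 (t / 2) with hg
  set a := SSf 1 0 (t / 2) with ha
  set q0 : ℝ := ((t : ℝ) + 2) ^ RR t + 1 with hq0
  have hq0pos : 0 ≤ q0 := by positivity
  have hd0 := dlt_pos t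
  have hd1 := dlt_le_one ht
  have hId := II_mul_dlt t ht
  rw [← hI] at hId
  refine ⟨t * a, 2 * ((t : ℝ) + 1 + I) ^ 2 + t * g * q0 + (t + 1 + C * q0 + I) +
    ((t : ℝ) + 1 + C * q0) ^ 2, by positivity, by positivity, ?_⟩
  intro n M hM h
  have hM1 : (1 : ℝ) ≤ M := by exact_mod_cast hM
  have hM0 : (0 : ℝ) < M := by linarith
  have hpow : ∀ {k : ℕ}, k ≤ 2 * RR t + 2 → (M : ℝ) ^ k ≤ (M : ℝ) ^ (2 * RR t + 2) :=
    fun hk => pow_le_pow_right₀ hM1 hk
  set P : ℝ := (M : ℝ) ^ (2 * RR t + 2) with hP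
  have hP1 : 1 ≤ P := one_le_pow₀ hM1
  have hMP : (M : ℝ) ≤ P := by
    have := hpow (k := 1) (by omega)
    rwa [pow_one] at this
  -- the ball bound
  have hQ : (QQ t M : ℝ) ≤ q0 * (M : ℝ) ^ RR t := by
    unfold QQ
    push_cast
    have h1 : (1 + ((M : ℝ) * t + M)) ≤ (t + 2) * M := by nlinarith
    have h2 : (1 + ((M : ℝ) * t + M)) ^ RR t ≤ ((t + 2) * M) ^ RR t :=
      pow_le_pow_left₀ (by positivity) h1 _
    rw [mul_pow] at h2
    have h3 : (1 : ℝ) ≤ (M : ℝ) ^ RR t := one_le_pow₀ hM1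
    have h4 : (1 + ((M : ℝ) * t + M)) ^ (2 * t * (t / 2 + 1)) =
      (1 + ((M : ℝ) * t + M)) ^ RR t := rfl
    rw [h4, hq0, add_mul, one_mul]
    linarith
  set Q := QQ t M with hQdef
  have hQ0 : (0 : ℝ) ≤ Q := Nat.cast_nonneg _
  have hMQ : (M : ℝ) * Q ≤ q0 * (M : ℝ) ^ (RR t + 1) := by
    calc (M : ℝ) * Q ≤ M * (q0 * (M : ℝ) ^ RR t) := mul_le_mul_of_nonneg_left hQ hM0.le
      _ = q0 * (M : ℝ) ^ (RR t + 1) := by rw [pow_succ]; ring
  by_cases hcase : t + 1 + M * Q * C ≤ n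
  · -- the construction
    set r := n - (t + 1) - M * Q * C with hr
    set N := r / (M * I) with hN
    have hIp : 1 ≤ I := II_pos t
    have hMI : 0 < M * I := Nat.mul_pos (by omega) (by omega)
    have hdm : M * I * N + r % (M * I) = r := Nat.div_add_mod r (M * I)
    have hmod : r % (M * I) < M * I := Nat.mod_lt _ hMI
    have hE : N * M + M * EEf t N Q = M * I * N + M * Q * C := by
      rw [EEf_lin, ← hC, hI]
      unfold II
      ring
    obtain ⟨c, hc⟩ : ∃ c, c + 1 = t + 1 + r % (M * I) := ⟨t + r % (M * I), by ring⟩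
    obtain ⟨L, hL1, hL2, hL3⟩ := exists_star_net (M := M) (N := N) (c := c) ht hM h
      (by omega) (by rw [← hQdef, hE]; omega)
    rw [← hQdef] at hL3
    refine ⟨L, hL1, hL2, ?_⟩
    rw [SSf_lin, ← hg, ← ha] at hL3
    have hL4 : (L.length : ℝ) + N * M ≤ 2 * ((c + 1) * (c + 1)) + t * (N * a + Q * g) +
        2 * (M * I * N + M * Q * C) := by
      have : L.length + N * M ≤ 2 * ((c + 1) * (c + 1)) + t * (N * a + Q * g) +
          2 * (M * I * N + M * Q * C) := by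
        rw [← hE]
        omega
      exact_mod_cast this
    have hn' : M * I * N + M * Q * C ≤ n := by omega
    have hn'r : (M : ℝ) * I * N + M * Q * C ≤ n := by exact_mod_cast hn'
    have hNM : (N : ℝ) * M ≤ n := by
      have : N * M ≤ n := by
        have : N * M ≤ M * I * N := by
          calc N * M = M * 1 * N := by ring
            _ ≤ M * I * N := Nat.mul_le_mul_right _ (Nat.mul_le_mul_left _ hIp)
        omega
      exact_mod_cast this
    have hNn : (N : ℝ) ≤ n / M := by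
      rw [le_div_iff₀ hM0]
      exact hNM
    have hlow : (n : ℝ) ≤ M * I * N + (t + 1 + M * Q * C + M * I) := by
      have : n ≤ M * I * N + (t + 1 + M * Q * C + M * I) := by omega
      exact_mod_cast this
    have hNM2 : dlt t * n ≤ N * M + dlt t * (t + 1 + M * Q * C + M * I) := by
      have h1 := mul_le_mul_of_nonneg_left hlow hd0.le
      have h2 : dlt t * ((M : ℝ) * I * N + (t + 1 + M * Q * C + M * I)) =
          (I * dlt t) * (N * M) + dlt t * (t + 1 + M * Q * C + M * I) := by ring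
      rw [h2, hId, one_mul] at h1
      exact h1
    have hMQ2 : (M : ℝ) * Q ≤ q0 * P :=
      hMQ.trans (mul_le_mul_of_nonneg_left (hpow (by omega)) hq0pos)
    have hQP : (Q : ℝ) ≤ q0 * P :=
      hQ.trans (mul_le_mul_of_nonneg_left (hpow (by omega)) hq0pos)
    have hb0 : (0 : ℝ) ≤ t + 1 + M * Q * C + M * I := by positivity
    have hb1 : (t : ℝ) + 1 + M * Q * C + M * I ≤ (t + 1 + C * q0 + I) * P := by
      have k1 : (M : ℝ) * Q * C ≤ q0 * P * C :=
        mul_le_mul_of_nonneg_right hMQ2 (Nat.cast_nonneg _)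
      have k2 : (M : ℝ) * I ≤ P * I := mul_le_mul_of_nonneg_right hMP (Nat.cast_nonneg _)
      have k3 : ((t : ℝ) + 1) * 1 ≤ (t + 1) * P :=
        mul_le_mul_of_nonneg_left hP1 (by positivity)
      calc (t : ℝ) + 1 + M * Q * C + M * I ≤ (t + 1) * P + q0 * P * C + P * I := by linarith
        _ = (t + 1 + C * q0 + I) * P := by ring
    have hb2 : dlt t * (t + 1 + M * Q * C + M * I) ≤ t + 1 + M * Q * C + M * I := by
      calc dlt t * (t + 1 + M * Q * C + M * I) ≤ 1 * (t + 1 + M * Q * C + M * I) :=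
            mul_le_mul_of_nonneg_right hd1 hb0
        _ = _ := one_mul _
    have hb3 : 2 * (((c : ℝ) + 1) * (c + 1)) ≤ 2 * ((t : ℝ) + 1 + I) ^ 2 * P := by
      have k1 : ((c : ℝ) + 1) ≤ (t + 1 + I) * M := by
        have : c + 1 ≤ t + 1 + M * I := by omega
        have k2 : (c : ℝ) + 1 ≤ t + 1 + M * I := by exact_mod_cast this
        have k3 : ((t : ℝ) + 1) * 1 ≤ (t + 1) * M :=
          mul_le_mul_of_nonneg_left hM1 (by positivity)
        calc (c : ℝ) + 1 ≤ t + 1 + M * I := k2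
          _ ≤ (t + 1) * M + M * I := by linarith
          _ = (t + 1 + I) * M := by ring
      have k4 : ((c : ℝ) + 1) * (c + 1) ≤ ((t + 1 + I) * M) * ((t + 1 + I) * M) :=
        mul_le_mul k1 k1 (by positivity) (by positivity)
      have k5 : (M : ℝ) ^ 2 ≤ P := hpow (by omega)
      calc 2 * (((c : ℝ) + 1) * (c + 1)) ≤ 2 * (((t + 1 + I) * M) * ((t + 1 + I) * M)) := by
            linarith
        _ = 2 * ((t : ℝ) + 1 + I) ^ 2 * (M : ℝ) ^ 2 := by ring
        _ ≤ 2 * ((t : ℝ) + 1 + I) ^ 2 * P := mul_le_mul_of_nonneg_left k5 (by positivity)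
    have hb4 : (t : ℝ) * (Q * g) ≤ t * g * q0 * P := by
      calc (t : ℝ) * (Q * g) = (t * g) * Q := by ring
        _ ≤ (t * g) * (q0 * P) := mul_le_mul_of_nonneg_left hQP (by positivity)
        _ = t * g * q0 * P := by ring
    have hb5 : (t : ℝ) * (N * a) ≤ t * a * (n / M) := by
      calc (t : ℝ) * (N * a) = (t * a) * N := by ring
        _ ≤ (t * a) * (n / M) := mul_le_mul_of_nonneg_left hNn (by positivity)
    have hb6 : (0 : ℝ) ≤ ((t : ℝ) + 1 + C * q0) ^ 2 * P := by positivity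
    have hfin : (2 * ((t : ℝ) + 1 + I) ^ 2 + t * g * q0 + (t + 1 + C * q0 + I) +
        ((t : ℝ) + 1 + C * q0) ^ 2) * P = 2 * ((t : ℝ) + 1 + I) ^ 2 * P + t * g * q0 * P +
        (t + 1 + C * q0 + I) * P + ((t : ℝ) + 1 + C * q0) ^ 2 * P := by ring
    rw [hfin]
    have hmul : (t : ℝ) * (N * a + Q * g) = t * (N * a) + t * (Q * g) := by ring
    rw [hmul] at hL4
    linarith
  · -- small `n`
    push Not at hcase
    obtain ⟨L, hL1, hL2, hL3⟩ := exists_star_small ht h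
    refine ⟨L, hL1, hL2, ?_⟩
    have h1 : (L.length : ℝ) ≤ n * n := by exact_mod_cast hL3
    have h2 : (n : ℝ) ≤ t + 1 + M * Q * C := by
      have : n ≤ t + 1 + M * Q * C := by omega
      exact_mod_cast this
    have h3 : (t : ℝ) + 1 + M * Q * C ≤ (t + 1 + C * q0) * (M : ℝ) ^ (RR t + 1) := by
      have k0 : (1 : ℝ) ≤ (M : ℝ) ^ (RR t + 1) := one_le_pow₀ hM1
      have k1 : (M : ℝ) * Q * C ≤ q0 * (M : ℝ) ^ (RR t + 1) * C :=
        mul_le_mul_of_nonneg_right hMQ (Nat.cast_nonneg _)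
      have k3 : ((t : ℝ) + 1) * 1 ≤ (t + 1) * (M : ℝ) ^ (RR t + 1) :=
        mul_le_mul_of_nonneg_left k0 (by positivity)
      calc (t : ℝ) + 1 + M * Q * C ≤ (t + 1) * (M : ℝ) ^ (RR t + 1) +
            q0 * (M : ℝ) ^ (RR t + 1) * C := by linarith
        _ = (t + 1 + C * q0) * (M : ℝ) ^ (RR t + 1) := by ring
    have h4 : (n : ℝ) * n ≤ ((t + 1 + C * q0) * (M : ℝ) ^ (RR t + 1)) *
        ((t + 1 + C * q0) * (M : ℝ) ^ (RR t + 1)) :=
      mul_le_mul (h2.trans h3) (h2.trans h3) (Nat.cast_nonneg _) (by positivity)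
    have h5 : ((t + 1 + C * q0) * (M : ℝ) ^ (RR t + 1)) *
        ((t + 1 + C * q0) * (M : ℝ) ^ (RR t + 1)) = ((t : ℝ) + 1 + C * q0) ^ 2 * P := by
      rw [hP]
      have : (M : ℝ) ^ (2 * RR t + 2) = (M : ℝ) ^ (RR t + 1) * (M : ℝ) ^ (RR t + 1) := by
        rw [← pow_add]
        congr 1
        ring
      rw [this]
      ring
    have h6 : (0 : ℝ) ≤ (2 - dlt t) * n := mul_nonneg (by linarith) (Nat.cast_nonneg _)
    have h7 : (0 : ℝ) ≤ t * a * (n / M) := by positivity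
    have h8 : (0 : ℝ) ≤ (2 * ((t : ℝ) + 1 + I) ^ 2 + t * g * q0 + (t + 1 + C * q0 + I)) * P := by
      positivity
    have hfin : (2 * ((t : ℝ) + 1 + I) ^ 2 + t * g * q0 + (t + 1 + C * q0 + I) +
        ((t : ℝ) + 1 + C * q0) ^ 2) * P = (2 * ((t : ℝ) + 1 + I) ^ 2 + t * g * q0 +
        (t + 1 + C * q0 + I)) * P + ((t : ℝ) + 1 + C * q0) ^ 2 * P := by ring
    rw [hfin]
    linarith

end ReachNet
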