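import Pool.Agent.Lib.MP_720f8f_co.Route

/-!
# The upper bound
-/

set_option autoImplicit false

open Finset

namespace ReachNet

section

variable {c N m K : ℕ}

theorem length_phase1 (G : List (Fin c × Fin c)) (hub : Fin N × GP m → Fin K) (z : Fin c) :
    (phase1 G hub z (List.finRange K)).length = K * G.length + N * 2 ^ m := by
  have h1 : ∀ bs : List (Fin K), (phase1 G hub z bs).length =
      bs.length * G.length +
        (bs.map (fun b => (univ.filter (fun u => hub u = b)).card)).sum := by
    intro bs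
    induction bs with
    | nil => simp [phase1]
    | cons b bs ih =>
      have hph : phase1 G hub z (b :: bs) =
          (G.map (Prod.map Sum.inl Sum.inl) ++ blk hub z b) ++ phase1 G hub z bs := by
        unfold phase1
        rw [List.flatMap_cons]
      rw [hph, List.length_append, List.length_append, List.length_map, ih]
      unfold blk
      rw [List.length_map, length_toList, List.length_cons, List.map_cons, List.sum_cons]
      ring
  rw [h1, List.length_finRange]
  congr 1
  rw [← List.sum_toFinset _ (List.nodup_finRange K)]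
  have h2 : (List.finRange K).toFinset = univ := by
    ext b
    simp
  rw [h2]
  have h3 := card_eq_sum_card_fiberwise (f := hub) (s := univ) (t := univ)
    (fun _ _ => mem_coe.2 (mem_univ _))
  rw [← h3, card_univ, Fintype.card_prod, Fintype.card_fin, card_GP]

theorem length_phase3 (M : List (GP m × GP m)) (is : List (Fin N)) :
    (phase3 (c := c) (fun _ => M) is).length = is.length * M.length := by
  induction is with
  | nil => simp [phase3]
  | cons i is ih =>
    have hsplit : phase3 (c := c) (fun _ => M) (i :: is) =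
        M.map (Prod.map (fun w => Sum.inr (i, w)) (fun w => Sum.inr (i, w))) ++
          phase3 (fun _ => M) is := by
      unfold phase3
      rw [List.flatMap_cons]
    rw [hsplit, List.length_append, List.length_map, ih, List.length_cons]
    ring

theorem length_net (G : List (Fin c × Fin c)) (hub : Fin N × GP m → Fin K) (z : Fin c) :
    (net G hub z).length = K * G.length + N * 2 ^ m + G.length + N * (2 ^ m - 1) := by
  unfold net
  rw [List.length_append, List.length_append, length_phase1, List.length_map, length_phase3,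
    List.length_finRange]
  have := length_gad m
  rw [show (gad m).length = 2 ^ m - 1 by omega]

theorem net_ne (G : List (Fin c × Fin c)) (hG : ∀ T ∈ G, T.1 ≠ T.2)
    (hub : Fin N × GP m → Fin K) (z : Fin c) : ∀ T ∈ net G hub z, T.1 ≠ T.2 := by
  have hGl : ∀ T ∈ G.map (Prod.map (Sum.inl : Fin c → Pos c N m) Sum.inl), T.1 ≠ T.2 := by
    intro T hT
    obtain ⟨T', hT', rfl⟩ := List.mem_map.1 hT
    exact fun h => hG T' hT' (Sum.inl_injective h)
  intro T hT
  unfold net at hT
  rw [List.mem_append, List.mem_append] at hT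
  rcases hT with (hT | hT) | hT
  · unfold phase1 at hT
    rw [List.mem_flatMap] at hT
    obtain ⟨b, -, hT⟩ := hT
    rw [List.mem_append] at hT
    rcases hT with hT | hT
    · exact hGl T hT
    · unfold blk at hT
      obtain ⟨u, -, rfl⟩ := List.mem_map.1 hT
      exact Sum.inl_ne_inr
  · exact hGl T hT
  · unfold phase3 at hT
    rw [List.mem_flatMap] at hT
    obtain ⟨i, -, hT⟩ := hT
    obtain ⟨T', hT', rfl⟩ := List.mem_map.1 hT
    intro h
    exact gad_ne m T' hT' (congrArg Prod.snd (Sum.inr_injective h))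

end

/-- a universal word for `Fin c` -/
noncomputable def uw (c : ℕ) : List (Fin c × Fin c) := (exists_univ_word (Fin c)).choose

theorem uw_ne (c : ℕ) : ∀ T ∈ uw c, T.1 ≠ T.2 := (exists_univ_word (Fin c)).choose_spec.1

theorem uw_universal (c : ℕ) : Universal (uw c) := (exists_univ_word (Fin c)).choose_spec.2

/-- a constant depending on `t` only -/
noncomputable def LL (t : ℕ) : ℕ := ∑ c ∈ range (t + 2 ^ (t / 2)), (uw c).length

theorem exists_net {t n : ℕ} (ht : 1 ≤ t) (h : t ≤ n) (D K : ℕ)
    (hK : (n - t) / 2 ^ (t / 2) * 2 ^ (t / 2) +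
      2 ^ (t / 2) * (1 + D * 2 ^ (t / 2)) ^ t * D ≤ (K + 1) * D) :
    ∃ L : List (Fin n × Fin n), IsNet h L ∧
      L.length ≤ (n - t) / 2 ^ (t / 2) * (2 * 2 ^ (t / 2) - 1) + (K + 2) * LL t := by
  classical
  obtain ⟨m, hm⟩ : ∃ m, m = t / 2 := ⟨_, rfl⟩
  rw [← hm] at hK ⊢
  obtain ⟨N, hN⟩ : ∃ N, N = (n - t) / 2 ^ m := ⟨_, rfl⟩
  rw [← hN] at hK ⊢
  obtain ⟨c, hc⟩ : ∃ c, c = t + (n - t) % 2 ^ m := ⟨_, rfl⟩
  have hpow : 0 < 2 ^ m := Nat.pos_of_ne_zero (by positivity)
  have hn : c + N * 2 ^ m = n := by
    have := Nat.div_add_mod' (n - t) (2 ^ m)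
    rw [← hN] at this
    omega
  have hmod : (n - t) % 2 ^ m < 2 ^ m := Nat.mod_lt _ hpow
  have htc : t ≤ c := by omega
  -- the hypergraph
  obtain ⟨hh, h1, -, h3⟩ := exists_hyper (V := Fin (K + 1)) (2 ^ m) t D Nat.one_le_two_pow N
    (by rw [Fintype.card_fin]; exact hK)
  have heq : ∀ i < N, Nonempty (GP m ≃ {v // v ∈ hh i}) := by
    intro i hi
    refine ⟨Fintype.equivOfCardEq ?_⟩
    rw [card_GP, Fintype.card_coe, h1 i hi]
  let hub : ℕ → GP m → Fin (K + 1) := fun i w =>
    if hi : i < N then ((heq i hi).some w).1 else 0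
  have hubi : ∀ i (hi : i < N) w, hub i w = ((heq i hi).some w).1 := by
    intro i hi w
    show (if hi : i < N then ((heq i hi).some w).1 else 0) = _
    rw [dif_pos hi]
  have hinj : ∀ i < N, Function.Injective (hub i) := by
    intro i hi w w' hw
    rw [hubi i hi, hubi i hi] at hw
    exact (heq i hi).some.injective (Subtype.ext hw)
  have hmem : ∀ i < N, ∀ w, hub i w ∈ hh i := by
    intro i hi w
    rw [hubi i hi]
    exact ((heq i hi).some w).2
  let hub' : Fin N × GP m → Fin (K + 1) := fun u => hub u.1 u.2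
  have hw : ∀ X : ℕ → Finset (GP m), (∀ i j, i ≠ j → (X i).card ≤ m ∨ (X j).card ≤ m) →
      ∀ F : Finset (Fin N), F.card ≤ t →
      ∃ M : Fin N → List (GP m × GP m), (∀ i, (M i).Sublist (gad m)) ∧
        ∀ i ∈ F, ∀ j ∈ F, ∀ w w', move (M i) w ∈ X i → move (M j) w' ∈ X j →
          hub' (i, w) = hub' (j, w') → i = j ∧ w = w' := by
    intro X hX F hF
    have hFv : (F.image Fin.val).card = F.card := card_image_of_injective _ Fin.val_injective
    have hFr : F.image Fin.val ⊆ range N := by
      intro i hi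
      obtain ⟨j, -, rfl⟩ := mem_image.1 hi
      exact mem_range.2 j.2
    obtain ⟨M, hM, hm'⟩ := choose_wires hinj hmem h1 h3 X _ (F.image Fin.val) rfl hFr
      (by rw [hFv]; exact hF) (fun i _ j _ hij => hX i j hij)
    refine ⟨fun i => M i, fun i => hM i, ?_⟩
    intro i hi j hj w w' hw hw' heq'
    by_cases hij : i = j
    · subst hij
      exact ⟨rfl, hinj i i.2 heq'⟩
    · exact absurd heq' (hm' i (mem_image_of_mem _ hi) j (mem_image_of_mem _ hj)
        (fun h => hij (Fin.ext h)) w w' hw hw')
  have hc0 : 0 < c := by omega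
  have hreach := fun (x : Fin t → Pos c N m) (hx : Function.Injective x) =>
    net_reach (uw_universal c) hub' ⟨0, hc0⟩ (by omega) hw (Fin.castLE htc)
      (Fin.castLE_injective htc) x hx
  -- transport to `Fin n`
  have hcard : Fintype.card (Fin N × GP m) = N * 2 ^ m := by
    rw [Fintype.card_prod, Fintype.card_fin, card_GP]
  let e1 : Fin N × GP m ≃ Fin (N * 2 ^ m) := Fintype.equivFinOfCardEq hcard
  let e : Pos c N m ≃ Fin n :=
    ((Equiv.sumCongr (Equiv.refl (Fin c)) e1).trans finSumFinEquiv).trans (finCongr hn)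
  have he : ∀ j : Fin t, e (Sum.inl (Fin.castLE htc j)) = Fin.castLE h j := by
    intro j
    apply Fin.ext
    simp [e]
  refine ⟨(net (uw c) hub' ⟨0, hc0⟩).map (Prod.map e e), ⟨?_, ?_⟩, ?_⟩
  · intro T hT
    obtain ⟨T', hT', rfl⟩ := List.mem_map.1 hT
    exact fun h => net_ne (uw c) (uw_ne c) hub' ⟨0, hc0⟩ T' hT' (e.injective h)
  · intro x hx
    obtain ⟨M, hM, hm'⟩ := hreach (fun j => e.symm (x j)) (e.symm.injective.comp hx)
    refine ⟨M.map (Prod.map e e), hM.map _, fun j => ?_⟩
    rw [← he j, move_map e.injective, hm' j, Equiv.apply_symm_apply]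
  · rw [List.length_map, length_net]
    have hLL : (uw c).length ≤ LL t := by
      unfold LL
      exact single_le_sum (f := fun c => (uw c).length) (fun _ _ => Nat.zero_le _)
        (mem_range.2 (by rw [← hm]; omega))
    have e1 : N * 2 ^ m + N * (2 ^ m - 1) = N * (2 * 2 ^ m - 1) := by
      rw [← mul_add]
      congr 1
      omega
    calc (K + 1) * (uw c).length + N * 2 ^ m + (uw c).length + N * (2 ^ m - 1)
        = N * (2 * 2 ^ m - 1) + (K + 2) * (uw c).length := by rw [← e1]; ring
      _ ≤ N * (2 * 2 ^ m - 1) + (K + 2) * LL t :=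
          Nat.add_le_add_left (Nat.mul_le_mul_left _ hLL) _

end ReachNet
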